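import Pool.Agent.H749.GS.Cup
import Pool.Agent.H749.GK.KF

/-!
# The operations on the cochains of a fixed internal degree
-/

set_option autoImplicit false
set_option linter.unusedSectionVars false

namespace Pool.Agent.H749.GS

open Finset MvPolynomial Pool.Agent.H749.GK.St Pool.Agent.W624.Stz
open Pool.Agent.Q171.ND3.St (ev0 ev1 faces sqC mem_ev0 mem_ev1 par)

theorem face_eq : Pool.Agent.Q171.ND3.St.face = Pool.Agent.H749.GK.St.face := by
  funext j
  apply algHom_ext
  rintro ⟨a, n⟩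
  rw [Pool.Agent.Q171.ND3.St.face, Pool.Agent.H749.GK.St.face, aeval_X, aeval_X]
  simp only
  by_cases h1 : a + 1 < j
  · rw [if_pos h1, if_pos h1]
    rfl
  · rw [if_neg h1, if_neg h1]
    by_cases h2 : j ≤ a
    · rw [if_pos h2, if_neg (by omega)]
      rfl
    · rw [if_neg h2, if_pos (by omega), coprod]
      refine sum_congr rfl fun i _ => ?_
      have hx : ∀ b m, Pool.Agent.Q171.ND3.St.ξ b m = Pool.Agent.H749.GK.St.ξ b m := by
        intro b m
        cases m <;> rfl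
      rw [hx, hx]

theorem d_eq (s : ℕ) : Pool.Agent.Q171.ND3.St.d s = Pool.Agent.H749.GK.St.d s := by
  rw [Pool.Agent.Q171.ND3.St.d, Pool.Agent.H749.GK.St.d, face_eq]

theorem xi_IW (a m : ℕ) : IW wt (Pool.Agent.H749.GK.St.ξ a m) (2 ^ m - 1) := by
  cases m with
  | zero =>
    rw [show (2 : ℤ) ^ 0 - 1 = 0 by norm_num]
    exact IW.one' wt
  | succ m => exact isWeightedHomogeneous_X (ZMod 2) wt (a, m)

theorem xi_Sup {a s : ℕ} (m : ℕ) (h : a < s) : Pool.Agent.H749.GK.St.ξ a m ∈ Sup s := by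
  cases m with
  | zero => exact Subalgebra.one_mem _
  | succ m => exact X_mem_supported.mpr h

theorem cop_IW (a n : ℕ) : IW wt (coprod a n) (2 ^ n - 1) := by
  rw [coprod]
  refine IsWeightedHomogeneous.sum _ _ _ fun i hi => ?_
  rw [mem_range] at hi
  have h1 := ((xi_IW a (n - i)).pow (2 ^ i)).mul (xi_IW (a + 1) i)
  have h2 : (2 ^ i : ℕ) • ((2 : ℤ) ^ (n - i) - 1) + (2 ^ i - 1) = 2 ^ n - 1 := by
    rw [nsmul_eq_mul]
    push_cast
    rw [mul_sub, ← pow_add, show i + (n - i) = n by omega]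
    ring
  rwa [h2] at h1

theorem cop_Sup {a s : ℕ} (n : ℕ) (h : a + 1 < s) : coprod a n ∈ Sup s :=
  Subalgebra.sum_mem _ fun i _ =>
    Subalgebra.mul_mem _ (Subalgebra.pow_mem _ (xi_Sup _ (by omega)) _) (xi_Sup _ h)

theorem face_C {s : ℕ} {t : ℤ} (j : ℕ) {f : P} (hf : f ∈ C s t) : face j f ∈ C (s + 1) t := by
  constructor
  · refine aeval_Sup (s := s) ?_ hf.1
    rintro ⟨a, n⟩ ha
    simp only at ha ⊢
    split_ifs
    · exact X_mem_supported.mpr (show a < s + 1 by omega)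
    · exact cop_Sup _ (by omega)
    · exact X_mem_supported.mpr (show a + 1 < s + 1 by omega)
  · refine IW.aeval' (AddMonoidHom.id ℤ) (face j) (w := wt) ?_ hf.2
    rintro ⟨a, n⟩
    rw [face, aeval_X]
    simp only [AddMonoidHom.id_apply]
    split_ifs
    · exact isWeightedHomogeneous_X (ZMod 2) wt (a, n)
    · exact cop_IW a (n + 1)
    · exact isWeightedHomogeneous_X (ZMod 2) wt (a + 1, n)

theorem faces_C {s : ℕ} {t : ℤ} (A : Finset ℕ) {f : P} (hf : f ∈ C s t) :
    faces A f ∈ C (s + A.card) t := by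
  have h : ∀ l : List ℕ, l.foldr (fun j y => Pool.Agent.Q171.ND3.St.face j y) f
      ∈ C (s + l.length) t := by
    intro l
    induction l with
    | nil => simpa using hf
    | cons a l ih =>
      rw [List.foldr_cons, List.length_cons, ← add_assoc, face_eq]
      rw [face_eq] at ih
      exact face_C a ih
  have := h (A.sort (· ≥ ·))
  rwa [Finset.length_sort] at this

theorem fA_C {s : ℕ} {t : ℤ} (r : ℕ) (A : Finset ℕ) {f : P} (hf : f ∈ C s t) :
    fA r A f ∈ C (s + A.card) t := by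
  have h := faces_C (A.image (· + r)) hf
  rwa [card_image_of_injective _ (add_left_injective r)] at h

theorem mulC {s : ℕ} {t u : ℤ} {x y : P} (hx : x ∈ C s t) (hy : y ∈ C s u) :
    x * y ∈ C s (t + u) := ⟨Subalgebra.mul_mem _ hx.1 hy.1, IsWeightedHomogeneous.mul hx.2 hy.2⟩

theorem cup_C {r k l M a b s : ℕ} {t u : ℤ} {x y : P} (hx : x ∈ C a t) (hy : y ∈ C b u)
    (ha : a + k ≤ s) (hb : b + l ≤ s) : cup r k l M x y ∈ C s (t + u) := by
  unfold cup SU
  refine Submodule.sum_mem _ fun U hU => ?_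
  rw [mem_filter] at hU
  have h0 := fA_C r (ev0 U) hx
  have h1 := fA_C r (ev1 U) hy
  rw [hU.2.1] at h0
  rw [hU.2.2] at h1
  exact mulC (C_le ha h0) (C_le hb h1)

theorem sqC_C {k s : ℕ} {t : ℤ} {x : P} (hx : x ∈ C s t) : sqC k s x ∈ C (s + k) (2 * t) := by
  rw [sqC_cup, two_mul]
  exact cup_C hx hx le_rfl le_rfl

theorem sqC_Z {k s : ℕ} {t : ℤ} {x : P} (hx : x ∈ Z s t) : sqC k s x ∈ Z (s + k) (2 * t) := by
  refine ⟨sqC_C hx.1, LinearMap.mem_ker.mpr ?_⟩
  have h := Pool.Agent.Q171.ND3.St.d_sqC k s (x := x) (by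
    rw [d_eq]; exact LinearMap.mem_ker.mp hx.2)
  rwa [d_eq] at h

theorem mem_B_of {s : ℕ} {t : ℤ} {v f : P} (hv : v ∈ C s t) (h : d s v = f) : f ∈ B (s + 1) t :=
  Submodule.mem_map.mpr ⟨v, hv, h⟩

/-- the operations are additive up to coboundaries -/
theorem sqC_add_B {k s : ℕ} {t : ℤ} {x y : P} (hx : x ∈ Z s t) (hy : y ∈ Z s t) :
    sqC (k + 1) s (x + y) + sqC (k + 1) s x + sqC (k + 1) s y ∈ B (s + k + 1) (2 * t) := by
  have h := sqC_add k s (x := x) (y := y) (by rw [d_eq]; exact LinearMap.mem_ker.mp hx.2)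
    (by rw [d_eq]; exact LinearMap.mem_ker.mp hy.2)
  rw [d_eq] at h
  have hC : cup 0 k k (s + k + 1) x y ∈ C (s + k) (2 * t) := by
    rw [two_mul]
    exact cup_C hx.1 hy.1 le_rfl le_rfl
  refine mem_B_of hC ?_
  rw [h]
  have h1 := GS.ch2 (sqC (k + 1) s x)
  have h2 := GS.ch2 (sqC (k + 1) s y)
  linear_combination -h1 - h2

/-- the operations map coboundaries to coboundaries -/
theorem sqC_B {k s : ℕ} {t : ℤ} {x : P} (hx : x ∈ B s t) : sqC (k + 1) s x ∈ B (s + k + 1) (2 * t) := by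
  cases s with
  | zero =>
    have h0 : x = 0 := (Submodule.mem_bot _).mp hx
    subst h0
    have h1 : sqC (k + 1) 0 (0 : P) = 0 := by
      rw [sqC_cup]
      exact cup_zero_left _ _ _ _ _
    rw [h1]
    exact Submodule.zero_mem _
  | succ s =>
    obtain ⟨w, hw, rfl⟩ := Submodule.mem_map.mp hx
    have h := sqC_d k s w
    rw [d_eq, d_eq] at h
    have hC : cup 0 (k + 1) k (s + k + 2) w (d s w) + sqC (k + 1) s w ∈ C (s + k + 1) (2 * t) := by
      have h5 : sqC (k + 1) s w ∈ C (s + (k + 1)) (2 * t) := sqC_C hw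
      rw [← add_assoc] at h5
      refine Submodule.add_mem _ ?_ h5
      rw [two_mul]
      exact cup_C hw (d_C hw) (by omega) (by omega)
    have h6 := mem_B_of hC h.symm
    rwa [show s + k + 1 + 1 = s + 1 + k + 1 by omega] at h6

end Pool.Agent.H749.GS
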