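import Pool.Agent.H749.GS.Br

/-!
# The Cartan formula for the product with a primitive element
-/

set_option autoImplicit false
set_option linter.unusedSectionVars false

namespace Pool.Agent.H749.GS

open Finset MvPolynomial Pool.Agent.H749.GK.St Pool.Agent.W624.Stz
open Pool.Agent.Q171.ND3.St (ev0 ev1 faces sqC mem_ev0 mem_ev1 par)

/-- `ξ₁ ^ (2 ^ m)` in the slot `0` -/
noncomputable def zt (m : ℕ) : P := X (0, 0) ^ (2 ^ m)

theorem zt_sq (m : ℕ) : zt m * zt m = zt (m + 1) := by
  rw [zt, zt, ← pow_add, pow_succ, mul_two]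

theorem face1_zt (m : ℕ) : face 1 (zt m) = zt m + shift 1 (zt m) := by
  have h : face 1 (X (0, 0)) = (X (0, 0) + X (1, 0) : P) := by
    rw [face, aeval_X]
    simp only
    rw [if_neg (by omega), if_pos trivial, coprod, sum_range_succ, sum_range_one]
    simp [Pool.Agent.H749.GK.St.ξ]
  rw [zt, map_pow, h, add_pow0, map_pow, shift_X, add_zero]

theorem face2_zt (j m : ℕ) : face (j + 2) (zt m) = zt m := by
  have h : face (j + 2) (X (0, 0)) = (X (0, 0) : P) := by
    rw [face, aeval_X]
    simp only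
    rw [if_pos (by omega)]
  rw [zt, map_pow, h]

theorem face_shift1 (j : ℕ) (f : P) : face (j + 1) (shift 1 f) = shift 1 (face j f) := by
  have : (face (j + 1)).comp (shift 1) = (shift 1).comp (face j) := by
    apply algHom_ext
    rintro ⟨a, n⟩
    rw [AlgHom.comp_apply, AlgHom.comp_apply, shift_X, face, face, aeval_X, aeval_X]
    simp only
    by_cases h1 : a + 1 < j
    · rw [if_pos (by omega), if_pos h1, shift_X]
    · rw [if_neg (by omega), if_neg h1]
      by_cases h2 : a + 1 = j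
      · rw [if_pos (by omega), if_pos h2, coprod, coprod, map_sum]
        refine sum_congr rfl fun i _ => ?_
        have hx : ∀ b m, shift 1 (Pool.Agent.H749.GK.St.ξ b m)
            = Pool.Agent.H749.GK.St.ξ (1 + b) m := by
          intro b m
          cases m with
          | zero => exact map_one _
          | succ m => exact shift_X 1 (b, m)
        rw [map_mul, map_pow, hx, hx, show 1 + (a + 1) = 1 + a + 1 by omega]
      · rw [if_neg (by omega), if_neg h2, shift_X]
        simp only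
        rw [show 1 + (a + 1) = 1 + a + 1 by omega]
  exact DFunLike.congr_fun this f

theorem shift1_inj {f g : P} (h : shift 1 f = shift 1 g) : f = g := by
  have := congrArg e0 h
  rwa [e0_shift, e0_shift] at this

theorem e0_zt (m : ℕ) : e0 (zt m) = 0 := by
  rw [zt, map_pow, e0_zero, zero_pow (by positivity)]

theorem fA_insert {r n : ℕ} {A : Finset ℕ} (h : ∀ a ∈ A, a < n) (x : P) :
    fA r (insert n A) x = face (n + r) (fA r A x) := by
  rw [fA, fA, image_insert, Pool.Agent.Q171.ND3.St.faces_insert, face_eq]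
  intro a ha
  obtain ⟨b, hb, rfl⟩ := mem_image.mp ha
  have := h b hb
  omega

theorem fA_empty (r : ℕ) (x : P) : fA r ∅ x = x := by
  rw [fA, image_empty, faces]
  simp

theorem faces_insert' {n : ℕ} {A : Finset ℕ} (h : ∀ a ∈ A, a < n) (x : P) :
    faces (insert n A) x = face n (faces A x) := by
  rw [Pool.Agent.Q171.ND3.St.faces_insert h, face_eq]

theorem fA1_shift (A : Finset ℕ) (x : P) : fA 1 A (shift 1 x) = shift 1 (faces A x) := by
  induction A using Finset.induction_on_max with
  | empty =>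
    rw [fA_empty]
    congr 1
    rw [faces]
    simp
  | insert n A hn ih => rw [fA_insert hn, ih, face_shift1, faces_insert' hn]

theorem fA1_zt0 {A : Finset ℕ} (h : 0 ∉ A) (m : ℕ) : fA 1 A (zt m) = zt m := by
  induction A using Finset.induction_on_max with
  | empty => exact fA_empty _ _
  | insert n A hn ih =>
    rw [mem_insert, not_or] at h
    obtain ⟨j, rfl⟩ : ∃ j, n = j + 1 := ⟨n - 1, by omega⟩
    rw [fA_insert hn, ih h.2, face2_zt]

/-- the second part of the faces -/
noncomputable def al (m : ℕ) (A : Finset ℕ) : P := e0 (fA 1 A (zt m))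

theorem fA1_zt (m : ℕ) (A : Finset ℕ) : fA 1 A (zt m) = zt m + shift 1 (al m A) := by
  have h : ∃ α : P, fA 1 A (zt m) = zt m + shift 1 α := by
    induction A using Finset.induction_on_max with
    | empty => exact ⟨0, by rw [fA_empty, map_zero, add_zero]⟩
    | insert n A hn ih =>
      obtain ⟨α, hα⟩ := ih
      rw [fA_insert hn, hα, map_add, face_shift1]
      cases n with
      | zero =>
        refine ⟨zt m + face 0 α, ?_⟩
        rw [zero_add, face1_zt, map_add, add_assoc]
      | succ j => exact ⟨face (j + 1) α, by rw [face2_zt]⟩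
  obtain ⟨α, hα⟩ := h
  rw [al, hα, map_add, e0_zt, e0_shift, zero_add]

theorem dr1_eq (s : ℕ) (f : P) : dr 1 s f = ∑ j ∈ range (s + 2), face (j + 1) f := by
  rw [dr, face_eq]

theorem dr1_shift (s : ℕ) (x : P) : dr 1 s (shift 1 x) = shift 1 (d s x) := by
  rw [dr1_eq, d_apply, map_sum]
  exact sum_congr rfl fun j _ => face_shift1 j x

theorem dr1_zt (s m : ℕ) (x : P) :
    dr 1 s (zt m * shift 1 x) = zt m * shift 1 (d s x) + shift 1 (zt m * shift 1 x) := by
  have h1 : dr 1 s (zt m * shift 1 x) = zt m * dr 1 s (shift 1 x)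
      + shift 1 (zt m) * shift 1 (shift 1 x) := by
    rw [dr1_eq, dr1_eq, sum_range_succ' _ (s + 1), sum_range_succ' _ (s + 1), zero_add, map_mul,
      face1_zt, show face 1 (shift 1 x) = shift 1 (shift 1 x) by
        rw [show (1 : ℕ) = 0 + 1 from rfl, face_shift1 0, face_zero]]
    have h2 : ∑ k ∈ range (s + 1), face (k + 1 + 1) (zt m * shift 1 x)
        = zt m * ∑ k ∈ range (s + 1), face (k + 1 + 1) (shift 1 x) := by
      rw [mul_sum]
      exact sum_congr rfl fun k _ => by rw [map_mul, face2_zt]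
    rw [h2]
    ring
  rw [h1, dr1_shift, map_mul]

theorem d_succ_eq (s : ℕ) (f : P) : d (s + 1) f = dr 1 s f + shift 1 f := by
  rw [d_apply, dr1_eq, show s + 1 + 2 = (s + 2) + 1 by omega, sum_range_succ', face_zero]

theorem d_zt (s m : ℕ) (x : P) : d (s + 1) (zt m * shift 1 x) = zt m * shift 1 (d s x) := by
  rw [d_succ_eq, dr1_zt, add_assoc, GS.ch2, add_zero]

theorem cup1_shift (k l M : ℕ) (x y : P) :
    cup 1 k l M (shift 1 x) (shift 1 y) = shift 1 (cup 0 k l M x y) := by
  unfold cup SU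
  rw [map_sum]
  refine sum_congr rfl fun U _ => ?_
  beta_reduce
  rw [fA1_shift, fA1_shift, map_mul, fA_zero, fA_zero]

theorem drsum (s : ℕ) (f : P) :
    ∑ w ∈ range (s + 2), Pool.Agent.Q171.ND3.St.face (w + 1) f = dr 1 s f := rfl

/-- the coboundary formula with raised indices -/
theorem cup_dd (k s : ℕ) (w : P) (h : dr 1 (s + 1) (dr 1 s w) = 0) :
    cup 1 (k + 1) (k + 1) (s + k + 1 + 2) (dr 1 s w) (dr 1 s w)
      = dr 1 (s + k + 1) (cup 1 (k + 1) k (s + k + 2) w (dr 1 s w)
        + cup 1 (k + 1) (k + 1) (s + k + 2) w w) := by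
  have h1 := dcup (r := 1) (s := s) (s' := s + 1) (k := k + 1) (l := k) (m := s + k + 1) w
    (dr 1 s w) (by omega) (by omega)
  have h2 := dcup (r := 1) (s := s) (s' := s) (k := k + 1) (l := k + 1) (m := s + k + 1) w w
    (by omega) (by omega)
  rw [h, cup_zero_right, zero_add, drsum] at h1
  rw [add_assoc _ (cup 1 (k + 1 + 1) (k + 1 + 1) (s + k + 1 + 2) w w), GS.ch2, add_zero, drsum] at h2
  have h5 : ∀ f g : P, dr 1 (s + k + 1) (f + g) = dr 1 (s + k + 1) f + dr 1 (s + k + 1) g := by
    intro f g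
    rw [dr, dr, dr, ← sum_add_distrib]
    exact sum_congr rfl fun j _ => map_add _ _ _
  rw [h5, show s + k + 2 = s + k + 1 + 1 by omega, h1, h2]
  have h3 := GS.ch2 (cup 1 (k + 1) (k + 1 + 1) (s + k + 1 + 2) (dr 1 s w) w)
  have h4 := GS.ch2 (cup 1 (k + 1 + 1) (k + 1) (s + k + 1 + 2) w (dr 1 s w))
  linear_combination -h3 - h4

theorem SU_add {R : Type*} [CommRing R] (k l N : ℕ) (f g : Finset ℕ → R) :
    SU k l N (fun W => f W + g W) = SU k l N f + SU k l N g := sum_add_distrib

theorem SU_shift (k l N : ℕ) (f : Finset ℕ → P) :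
    shift 1 (SU k l N f) = SU k l N (fun W => shift 1 (f W)) := map_sum _ _ _

theorem SU_mul (k l N : ℕ) (z : P) (f : Finset ℕ → P) :
    z * SU k l N f = SU k l N (fun W => z * f W) := mul_sum _ _ _

/-- **The Cartan formula**: `Sq^(k+1) (ζ x) = Sq⁰ ζ Sq^(k+1) x + ζ² Sq^k x` for `ζ = ξ₁ ^ (2 ^ m)`. -/
theorem cartan (k s m : ℕ) (x : P) (hx : d s x = 0) :
    sqC (k + 1) (s + 1) (zt m * shift 1 x)
      = zt (m + 1) * shift 1 (sqC (k + 1) s x) + zt m * shift 1 (zt m * shift 1 (sqC k s x))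
        + d (s + k + 1) (e0 (cup 1 (k + 1) k (s + k + 2) (zt m * shift 1 x)
            (shift 1 (zt m * shift 1 x))
          + cup 1 (k + 1) (k + 1) (s + k + 2) (zt m * shift 1 x) (zt m * shift 1 x))) := by
  set z := zt m with hz
  set w := z * shift 1 x with hw
  have hx' : Pool.Agent.Q171.ND3.St.d s x = 0 := by rw [d_eq]; exact hx
  have hq : d (s + k) (sqC k s x) = 0 := by
    have := Pool.Agent.Q171.ND3.St.d_sqC k s hx'
    rwa [d_eq] at this
  have hq1 : d (s + k + 1) (sqC (k + 1) s x) = 0 := by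
    have := Pool.Agent.Q171.ND3.St.d_sqC (k + 1) s hx'
    rwa [d_eq] at this
  have hdw : dr 1 s w = shift 1 w := by
    rw [hw, dr1_zt, hx, map_zero, mul_zero, zero_add]
  have hdw0 : d (s + 1) w = 0 := by rw [hw, d_zt, hx, map_zero, mul_zero]
  have hddw : dr 1 (s + 1) (dr 1 s w) = 0 := by rw [hdw, dr1_shift, hdw0, map_zero]
  have hfw : ∀ A : Finset ℕ, fA 1 A w = (z + shift 1 (al m A)) * shift 1 (faces A x) := by
    intro A
    rw [hw, fA_mul, fA1_shift, fA1_zt]
  -- the two parts of `F`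
  set G1 := SU (k + 1) (k + 1) (s + k + 2) (fun U =>
    (al m (ev0 U) + al m (ev1 U)) * (faces (ev0 U) x * faces (ev1 U) x)) with hG1
  set G0 := SU (k + 1) (k + 1) (s + k + 2) (fun U =>
    (al m (ev0 U) * al m (ev1 U)) * (faces (ev0 U) x * faces (ev1 U) x)) with hG0
  set H0 := SU (k + 1) k (s + k + 2) (fun U =>
    al m (ev0 U) * (faces (ev0 U) x * faces (ev1 U) w)) with hH0
  have hF2 : cup 1 (k + 1) (k + 1) (s + k + 2) w w
      = z * z * shift 1 (sqC (k + 1) s x) + z * shift 1 G1 + shift 1 G0 := by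
    rw [sqC_cup, show s + (k + 1) + 1 = s + k + 2 by omega]
    unfold cup
    rw [hG1, hG0, SU_shift, SU_shift, SU_shift, SU_mul, SU_mul, ← SU_add, ← SU_add]
    refine SU_congr fun U _ _ _ => ?_
    rw [hfw, hfw, fA_zero, fA_zero]
    simp only [map_mul, map_add]
    ring
  have hF1 : cup 1 (k + 1) k (s + k + 2) w (shift 1 w)
      = z * shift 1 (cup 0 (k + 1) k (s + k + 2) x w) + shift 1 H0 := by
    unfold cup
    rw [hH0, SU_shift, SU_shift, SU_mul, ← SU_add]
    refine SU_congr fun U _ _ _ => ?_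
    rw [hfw, fA1_shift, fA_zero, fA_zero]
    simp only [map_mul]
    ring
  -- the coefficient of `z`
  have hc1 : cup 1 k k (s + k + 1) (shift 1 x) w = z * shift 1 (sqC k s x) := by
    rw [sqC_cup]
    unfold cup
    rw [SU_shift, SU_mul]
    refine SU_congr fun U _ _ _ => ?_
    have h0 : (0 : ℕ) ∉ ev1 U := by
      intro h
      apply (mem_ev1.mp h).2
      rw [par]
      simp
    rw [hw, fA_mul, fA1_shift, fA1_shift, fA1_zt0 h0, fA_zero, fA_zero, map_mul]
    ring
  have hc2 : cup 1 (k + 1) (k + 1) (s + k + 2) (shift 1 x) w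
      + cup 1 (k + 1) (k + 1) (s + k + 2) w (shift 1 x) = shift 1 G1 := by
    unfold cup
    rw [hG1, SU_shift, ← SU_add]
    refine SU_congr fun U _ _ _ => ?_
    rw [hfw, hfw, fA1_shift, fA1_shift]
    simp only [map_mul, map_add]
    have := GS.ch2 (z * (shift 1 (faces (ev0 U) x) * shift 1 (faces (ev1 U) x)))
    linear_combination this
  have hB := dcup (r := 1) (s := s) (s' := s) (k := k) (l := k) (m := s + k) (shift 1 x) w rfl rfl
  rw [drsum, hdw, dr1_shift, hx, map_zero, cup_zero_left, add_zero, cup1_shift,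
    add_assoc (shift 1 (cup 0 (k + 1) k (s + k + 2) x w)), hc2, hc1, ← map_add] at hB
  have hB2 : dr 1 (s + k) (z * shift 1 (sqC k s x)) = shift 1 (z * shift 1 (sqC k s x)) := by
    rw [dr1_zt, hq, map_zero, mul_zero, zero_add]
  rw [hB2] at hB
  have hF : z * shift 1 (sqC k s x) = cup 0 (k + 1) k (s + k + 2) x w + G1 := shift1_inj hB
  -- the sum
  have hsum : cup 1 (k + 1) k (s + k + 2) w (shift 1 w)
      + cup 1 (k + 1) (k + 1) (s + k + 2) w w
      = zt (m + 1) * shift 1 (sqC (k + 1) s x) + z * shift 1 (z * shift 1 (sqC k s x))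
        + shift 1 (H0 + G0) := by
    rw [hF1, hF2, hF, ← zt_sq, map_add, map_add]
    ring
  have he0 : e0 (cup 1 (k + 1) k (s + k + 2) w (shift 1 w)
      + cup 1 (k + 1) (k + 1) (s + k + 2) w w) = H0 + G0 := by
    rw [hsum, map_add, map_add, map_mul, map_mul, e0_zt, hz, e0_zt, zero_mul, zero_mul, zero_add,
      zero_add, e0_shift]
  rw [he0]
  have h1 := cup_dd k s w hddw
  rw [hdw, cup1_shift, hsum] at h1
  have h2 : cup 0 (k + 1) (k + 1) (s + k + 1 + 2) w w = sqC (k + 1) (s + 1) w := by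
    rw [sqC_cup, show s + 1 + (k + 1) + 1 = s + k + 1 + 2 by omega]
  have h3 : ∀ f g : P, dr 1 (s + k + 1) (f + g) = dr 1 (s + k + 1) f + dr 1 (s + k + 1) g := by
    intro f g
    rw [dr, dr, dr, ← sum_add_distrib]
    exact sum_congr rfl fun j _ => map_add _ _ _
  have h4 : d (s + k + 1) (z * shift 1 (sqC k s x)) = 0 := by
    rw [hz, d_zt, hq, map_zero, mul_zero]
  rw [h2, h3, h3, dr1_shift, dr1_zt, hz, dr1_zt, ← hz, h4, hq1, map_zero, mul_zero, mul_zero,
    zero_add, zero_add, ← map_add, ← map_add] at h1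
  exact shift1_inj h1

end Pool.Agent.H749.GS
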