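import Pool.Graph.R_pool_sql_team_seeded_3997aac3.Q171.ND3.Re

/-!
# The combinatorial identity behind the cup products of two cochains
-/

set_option autoImplicit false
set_option linter.unusedSectionVars false

namespace Pool.Agent.H749.GS

open Finset Pool.Agent.Q171.ND3.St

/-- the pairs of disjoint sets of the sizes `k + 1` and `l + 1` -/
noncomputable def Pr2 (k l N : ℕ) : Finset (Finset ℕ × Finset ℕ) :=
  ((range N).powerset ×ˢ (range N).powerset).filter
    fun p => p.1.card = k + 1 ∧ p.2.card = l + 1 ∧ Disjoint p.1 p.2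

theorem mem_Pr2 {k l N : ℕ} {A B : Finset ℕ} : (A, B) ∈ Pr2 k l N ↔
    (A ⊆ range N ∧ B ⊆ range N) ∧ A.card = k + 1 ∧ B.card = l + 1 ∧ Disjoint A B := by
  simp only [Pr2, mem_filter, mem_product, mem_powerset]

variable {R : Type*} [CommRing R]

/-- the sum over the sets with one more element -/
def ex (N : ℕ) (xs : Finset ℕ → R) (B : Finset ℕ) : R := ∑ w ∈ range N \ B, xs (insert w B)

/-- the sum over the sets with `k` elements in `ev0` and `l` elements in `ev1` -/
def SU (k l N : ℕ) (f : Finset ℕ → R) : R :=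
  ∑ W ∈ (range N).powerset with (ev0 W).card = k ∧ (ev1 W).card = l, f W

open Classical in
theorem ins_sum (h2 : ∀ a : R, a + a = 0) (ys : Finset ℕ → R) {N : ℕ} {W A B : Finset ℕ}
    (hW : W ⊆ range N) (hun : A ∪ B = W) (hdj : Disjoint A B) :
    ∑ w ∈ A, ys (insert w B) = ex N ys B + ∑ w ∈ range N \ W, ys (insert w B) := by
  have h4 : range N \ B = A ∪ (range N \ W) := by
    ext u
    have h5 := Finset.ext_iff.mp hun u
    rw [mem_union] at h5
    have h6 : u ∈ W → u ∈ range N := fun h => hW h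
    have h7 : u ∈ A → u ∉ B := fun h => disjoint_left.mp hdj h
    simp only [mem_sdiff, mem_union]
    tauto
  have hd2 : Disjoint A (range N \ W) := by
    rw [disjoint_left]
    intro u hu hu'
    apply (mem_sdiff.mp hu').2
    rw [← hun, mem_union]
    exact Or.inl hu
  rw [ex, h4, sum_union hd2, add_assoc, h2, add_zero]

open Classical in
/-- the combinatorial identity -/
theorem cmbG (h2 : ∀ a : R, a + a = 0) (xs ys : Finset ℕ → R) (k l N : ℕ) :
    ∑ W ∈ (range N).powerset, ∑ w ∈ W,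
      (if ((ev0 W).erase w).card = k ∧ ((ev1 W).erase w).card = l then
        xs (insert w (ev0 W)) * ys (insert w (ev1 W)) else 0)
      = SU (k + 1) l N (fun W => xs (ev0 W) * ex N ys (ev1 W))
        + SU k (l + 1) N (fun W => ex N xs (ev0 W) * ys (ev1 W))
        + SU (k + 1) (l + 1) N (fun W => xs (ev0 W) * ys (ev1 W))
        + SU (l + 1) (k + 1) N (fun W => xs (ev1 W) * ys (ev0 W)) := by
  -- splitting
  have hsplit : ∀ W ∈ (range N).powerset, ∑ w ∈ W,
      (if ((ev0 W).erase w).card = k ∧ ((ev1 W).erase w).card = l then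
        xs (insert w (ev0 W)) * ys (insert w (ev1 W)) else 0)
      = ((if (ev0 W).card = k + 1 ∧ (ev1 W).card = l then xs (ev0 W) * ex N ys (ev1 W) else 0)
        + (if (ev0 W).card = k ∧ (ev1 W).card = l + 1 then ex N xs (ev0 W) * ys (ev1 W) else 0))
        + ∑ w ∈ range N \ W, ((if (ev0 W).card = k + 1 ∧ (ev1 W).card = l then
          xs (ev0 W) * ys (insert w (ev1 W)) else 0)
        + (if (ev0 W).card = k ∧ (ev1 W).card = l + 1 then
          xs (insert w (ev0 W)) * ys (ev1 W) else 0)) := by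
    intro W hW
    rw [mem_powerset] at hW
    have hun := ev0_union W
    have hdj := ev0_disj W
    have e0 : ∀ w ∈ ev0 W, (if ((ev0 W).erase w).card = k ∧ ((ev1 W).erase w).card = l then
        xs (insert w (ev0 W)) * ys (insert w (ev1 W)) else 0)
        = if (ev0 W).card = k + 1 ∧ (ev1 W).card = l then
          xs (ev0 W) * ys (insert w (ev1 W)) else 0 := by
      intro w hw
      have hw1 : w ∉ ev1 W := disjoint_left.mp hdj hw
      have hpos : 0 < (ev0 W).card := card_pos.mpr ⟨w, hw⟩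
      rw [insert_eq_of_mem hw, card_erase_of_mem hw, erase_eq_of_notMem hw1]
      congr 1
      simp only [eq_iff_iff, and_congr_left_iff]
      intro _
      omega
    have e1 : ∀ w ∈ ev1 W, (if ((ev0 W).erase w).card = k ∧ ((ev1 W).erase w).card = l then
        xs (insert w (ev0 W)) * ys (insert w (ev1 W)) else 0)
        = if (ev0 W).card = k ∧ (ev1 W).card = l + 1 then
          xs (insert w (ev0 W)) * ys (ev1 W) else 0 := by
      intro w hw
      have hw1 : w ∉ ev0 W := disjoint_right.mp hdj hw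
      have hpos : 0 < (ev1 W).card := card_pos.mpr ⟨w, hw⟩
      rw [insert_eq_of_mem hw, card_erase_of_mem hw, erase_eq_of_notMem hw1]
      congr 1
      simp only [eq_iff_iff, and_congr_right_iff]
      intro _
      omega
    conv_lhs => rw [← hun]
    rw [sum_union hdj, hun, sum_congr rfl e0, sum_congr rfl e1, sum_add_distrib]
    have c0 : ∑ w ∈ ev0 W, (if (ev0 W).card = k + 1 ∧ (ev1 W).card = l then
          xs (ev0 W) * ys (insert w (ev1 W)) else 0)
        = (if (ev0 W).card = k + 1 ∧ (ev1 W).card = l then xs (ev0 W) * ex N ys (ev1 W) else 0)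
          + ∑ w ∈ range N \ W, (if (ev0 W).card = k + 1 ∧ (ev1 W).card = l then
          xs (ev0 W) * ys (insert w (ev1 W)) else 0) := by
      by_cases hc : (ev0 W).card = k + 1 ∧ (ev1 W).card = l
      · simp only [if_pos hc]
        rw [← mul_sum, ← mul_sum, ← mul_add, ins_sum h2 ys hW hun hdj]
      · simp only [if_neg hc, sum_const_zero, add_zero]
    have c1 : ∑ w ∈ ev1 W, (if (ev0 W).card = k ∧ (ev1 W).card = l + 1 then
          xs (insert w (ev0 W)) * ys (ev1 W) else 0)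
        = (if (ev0 W).card = k ∧ (ev1 W).card = l + 1 then ex N xs (ev0 W) * ys (ev1 W) else 0)
          + ∑ w ∈ range N \ W, (if (ev0 W).card = k ∧ (ev1 W).card = l + 1 then
          xs (insert w (ev0 W)) * ys (ev1 W) else 0) := by
      by_cases hc : (ev0 W).card = k ∧ (ev1 W).card = l + 1
      · simp only [if_pos hc]
        rw [← sum_mul, ← sum_mul, ← add_mul, ins_sum h2 xs hW (by rw [union_comm]; exact hun)
          hdj.symm]
      · simp only [if_neg hc, sum_const_zero, add_zero]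
    rw [c0, c1]
    abel
  rw [sum_congr rfl hsplit]
  simp only [sum_add_distrib]
  -- reindexing
  have r0 : ∑ W ∈ (range N).powerset, ∑ w ∈ range N \ W,
      (if (ev0 W).card = k + 1 ∧ (ev1 W).card = l then xs (ev0 W) * ys (insert w (ev1 W)) else 0)
      = ∑ p ∈ Pr2 k l N, ∑ w ∈ p.2, (if ev0 ((p.1 ∪ p.2).erase w) = p.1.erase w then
          xs p.1 * ys p.2 else 0) := by
    simp only [← sum_filter]
    rw [sum_sigma', sum_sigma']
    refine sum_nbij' (fun x => ⟨(ev0 x.1, insert x.2 (ev1 x.1)), x.2⟩)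
      (fun x => ⟨(x.1.1 ∪ x.1.2).erase x.2, x.2⟩) ?_ ?_ ?_ ?_ ?_
    · rintro ⟨W, w⟩ h
      simp only [mem_sigma, mem_powerset, mem_filter, mem_sdiff] at h ⊢
      obtain ⟨hW, ⟨hw, hwW⟩, h0, h1⟩ := h
      have hw0 : w ∉ ev0 W := fun h => hwW (mem_ev0.mp h).1
      have hw1 : w ∉ ev1 W := fun h => hwW (mem_ev1.mp h).1
      refine ⟨mem_Pr2.mpr ⟨⟨fun u hu => hW (mem_ev0.mp hu).1, ?_⟩, h0, ?_, ?_⟩,
        mem_insert_self _ _, ?_⟩
      · intro u hu
        rcases mem_insert.mp hu with rfl | hu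
        · exact hw
        · exact hW (mem_ev1.mp hu).1
      · rw [card_insert_of_notMem hw1, h1]
      · exact disjoint_insert_right.mpr ⟨hw0, ev0_disj W⟩
      · rw [union_insert, ev0_union, erase_insert hwW, erase_eq_of_notMem hw0]
    · rintro ⟨⟨A, B⟩, w⟩ h
      simp only [mem_sigma, mem_powerset, mem_filter, mem_sdiff] at h ⊢
      obtain ⟨hp, hw, h0⟩ := h
      obtain ⟨⟨hA, hB⟩, hcA, hcB, hd⟩ := mem_Pr2.mp hp
      have hwA : w ∉ A := disjoint_right.mp hd hw
      rw [erase_eq_of_notMem hwA] at h0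
      refine ⟨fun u hu => union_subset hA hB (mem_of_mem_erase hu),
        ⟨hB hw, notMem_erase _ _⟩, ?_, ?_⟩
      · rw [h0, hcA]
      · rw [union_erase_sdiff hd h0, card_erase_of_mem hw, hcB, Nat.add_sub_cancel]
    · rintro ⟨W, w⟩ h
      simp only [mem_sigma, mem_powerset, mem_filter, mem_sdiff] at h
      obtain ⟨hW, ⟨hw, hwW⟩, h0, h1⟩ := h
      simp only
      rw [union_insert, ev0_union, erase_insert hwW]
    · rintro ⟨⟨A, B⟩, w⟩ h
      simp only [mem_sigma, mem_filter] at h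
      obtain ⟨hp, hw, h0⟩ := h
      obtain ⟨⟨hA, hB⟩, hcA, hcB, hd⟩ := mem_Pr2.mp hp
      have hwA : w ∉ A := disjoint_right.mp hd hw
      rw [erase_eq_of_notMem hwA] at h0
      simp only
      rw [h0, union_erase_sdiff hd h0, insert_erase hw]
    · rintro ⟨W, w⟩ _
      rfl
  have r1 : ∑ W ∈ (range N).powerset, ∑ w ∈ range N \ W,
      (if (ev0 W).card = k ∧ (ev1 W).card = l + 1 then xs (insert w (ev0 W)) * ys (ev1 W) else 0)
      = ∑ p ∈ Pr2 k l N, ∑ w ∈ p.1, (if ev0 ((p.1 ∪ p.2).erase w) = p.1.erase w then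
          xs p.1 * ys p.2 else 0) := by
    simp only [← sum_filter]
    rw [sum_sigma', sum_sigma']
    refine sum_nbij' (fun x => ⟨(insert x.2 (ev0 x.1), ev1 x.1), x.2⟩)
      (fun x => ⟨(x.1.1 ∪ x.1.2).erase x.2, x.2⟩) ?_ ?_ ?_ ?_ ?_
    · rintro ⟨W, w⟩ h
      simp only [mem_sigma, mem_powerset, mem_filter, mem_sdiff] at h ⊢
      obtain ⟨hW, ⟨hw, hwW⟩, h0, h1⟩ := h
      have hw0 : w ∉ ev0 W := fun h => hwW (mem_ev0.mp h).1
      have hw1 : w ∉ ev1 W := fun h => hwW (mem_ev1.mp h).1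
      refine ⟨mem_Pr2.mpr ⟨⟨?_, fun u hu => hW (mem_ev1.mp hu).1⟩, ?_, h1, ?_⟩,
        mem_insert_self _ _, ?_⟩
      · intro u hu
        rcases mem_insert.mp hu with rfl | hu
        · exact hw
        · exact hW (mem_ev0.mp hu).1
      · rw [card_insert_of_notMem hw0, h0]
      · exact disjoint_insert_left.mpr ⟨hw1, ev0_disj W⟩
      · rw [insert_union, ev0_union, erase_insert hwW, erase_insert hw0]
    · rintro ⟨⟨A, B⟩, w⟩ h
      simp only [mem_sigma, mem_powerset, mem_filter, mem_sdiff] at h ⊢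
      obtain ⟨hp, hw, h0⟩ := h
      obtain ⟨⟨hA, hB⟩, hcA, hcB, hd⟩ := mem_Pr2.mp hp
      refine ⟨fun u hu => union_subset hA hB (mem_of_mem_erase hu),
        ⟨hA hw, notMem_erase _ _⟩, ?_, ?_⟩
      · rw [h0, card_erase_of_mem hw, hcA, Nat.add_sub_cancel]
      · rw [union_erase_sdiff' hd hw h0, hcB]
    · rintro ⟨W, w⟩ h
      simp only [mem_sigma, mem_powerset, mem_filter, mem_sdiff] at h
      obtain ⟨hW, ⟨hw, hwW⟩, h0, h1⟩ := h
      simp only
      rw [insert_union, ev0_union, erase_insert hwW]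
    · rintro ⟨⟨A, B⟩, w⟩ h
      simp only [mem_sigma, mem_filter] at h
      obtain ⟨hp, hw, h0⟩ := h
      obtain ⟨⟨hA, hB⟩, hcA, hcB, hd⟩ := mem_Pr2.mp hp
      simp only
      rw [union_erase_sdiff' hd hw h0, h0, insert_erase hw]
    · rintro ⟨W, w⟩ _
      rfl
  have r2 : ∀ p ∈ Pr2 k l N, (∑ w ∈ p.2, (if ev0 ((p.1 ∪ p.2).erase w) = p.1.erase w then
          xs p.1 * ys p.2 else 0)) + ∑ w ∈ p.1, (if ev0 ((p.1 ∪ p.2).erase w) = p.1.erase w then
          xs p.1 * ys p.2 else 0)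
      = (if p.1 = ev1 (p.1 ∪ p.2) then xs p.1 * ys p.2 else 0)
        + (if p.1 = ev0 (p.1 ∪ p.2) then xs p.1 * ys p.2 else 0) := by
    rintro ⟨A, B⟩ hp
    obtain ⟨⟨hA, hB⟩, hcA, hcB, hd⟩ := mem_Pr2.mp hp
    have hc := count (R := R) h2 (A := A) (X := A ∪ B) subset_union_left (union_subset hA hB)
    simp only
    rw [add_comm, ← sum_union hd]
    have h3 : ∀ w ∈ A ∪ B, (if ev0 ((A ∪ B).erase w) = A.erase w then xs A * ys B else 0)
        = xs A * ys B * (if ev0 ((A ∪ B).erase w) = A.erase w then (1 : R) else 0) := by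
      intro w _
      split_ifs <;> simp
    rw [sum_congr rfl h3, ← mul_sum, hc, mul_add]
    congr 1 <;> split_ifs <;> simp
  rw [r0, r1]
  have r3 : (∑ p ∈ Pr2 k l N, ∑ w ∈ p.2, (if ev0 ((p.1 ∪ p.2).erase w) = p.1.erase w then
          xs p.1 * ys p.2 else 0)) + ∑ p ∈ Pr2 k l N, ∑ w ∈ p.1,
          (if ev0 ((p.1 ∪ p.2).erase w) = p.1.erase w then xs p.1 * ys p.2 else 0)
      = (∑ p ∈ Pr2 k l N, if p.1 = ev1 (p.1 ∪ p.2) then xs p.1 * ys p.2 else 0)
        + ∑ p ∈ Pr2 k l N, (if p.1 = ev0 (p.1 ∪ p.2) then xs p.1 * ys p.2 else 0) := by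
    rw [← sum_add_distrib, ← sum_add_distrib]
    exact sum_congr rfl r2
  have hev : ∀ {A B : Finset ℕ}, Disjoint A B → A = ev0 (A ∪ B) → B = ev1 (A ∪ B) := by
    intro A B hd h
    have hun := ev0_union (A ∪ B)
    have hdj := ev0_disj (A ∪ B)
    rw [← h] at hun hdj
    ext u
    have h4 := Finset.ext_iff.mp hun u
    rw [mem_union, mem_union] at h4
    have h5 : u ∈ A → u ∉ ev1 (A ∪ B) := fun h => disjoint_left.mp hdj h
    have h6 : u ∈ A → u ∉ B := fun h => disjoint_left.mp hd h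
    tauto
  have hev' : ∀ {A B : Finset ℕ}, Disjoint A B → A = ev1 (A ∪ B) → B = ev0 (A ∪ B) := by
    intro A B hd h
    have hun := ev0_union (A ∪ B)
    have hdj := ev0_disj (A ∪ B)
    rw [← h] at hun hdj
    ext u
    have h4 := Finset.ext_iff.mp hun u
    rw [mem_union, mem_union] at h4
    have h5 : u ∈ ev0 (A ∪ B) → u ∉ A := fun h => disjoint_left.mp hdj h
    have h6 : u ∈ A → u ∉ B := fun h => disjoint_left.mp hd h
    tauto
  have s0 : ∑ p ∈ Pr2 k l N, (if p.1 = ev0 (p.1 ∪ p.2) then xs p.1 * ys p.2 else 0)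
      = SU (k + 1) (l + 1) N (fun W => xs (ev0 W) * ys (ev1 W)) := by
    rw [SU, ← sum_filter]
    refine sum_nbij' (fun p => p.1 ∪ p.2) (fun W => (ev0 W, ev1 W)) ?_ ?_ ?_ ?_ ?_
    · rintro ⟨A, B⟩ h
      rw [mem_filter] at h
      obtain ⟨hp, h0⟩ := h
      obtain ⟨⟨hA, hB⟩, hcA, hcB, hd⟩ := mem_Pr2.mp hp
      have h1 := hev hd h0
      simp only at h0
      simp only [mem_filter, mem_powerset]
      rw [← h0, ← h1]
      exact ⟨union_subset hA hB, hcA, hcB⟩
    · intro W h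
      simp only [mem_filter, mem_powerset] at h ⊢
      obtain ⟨hW, h0, h1⟩ := h
      refine ⟨mem_Pr2.mpr ⟨⟨fun u hu => hW (mem_ev0.mp hu).1, fun u hu => hW (mem_ev1.mp hu).1⟩,
        h0, h1, ev0_disj W⟩, ?_⟩
      rw [ev0_union]
    · rintro ⟨A, B⟩ h
      rw [mem_filter] at h
      obtain ⟨hp, h0⟩ := h
      obtain ⟨⟨hA, hB⟩, hcA, hcB, hd⟩ := mem_Pr2.mp hp
      have h1 := hev hd h0
      simp only at h0
      simp only
      rw [← h0, ← h1]
    · intro W _
      exact ev0_union W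
    · rintro ⟨A, B⟩ h
      rw [mem_filter] at h
      obtain ⟨hp, h0⟩ := h
      obtain ⟨⟨hA, hB⟩, hcA, hcB, hd⟩ := mem_Pr2.mp hp
      have h1 := hev hd h0
      simp only at h0
      simp only
      rw [← h0, ← h1]
  have s1 : ∑ p ∈ Pr2 k l N, (if p.1 = ev1 (p.1 ∪ p.2) then xs p.1 * ys p.2 else 0)
      = SU (l + 1) (k + 1) N (fun W => xs (ev1 W) * ys (ev0 W)) := by
    rw [SU, ← sum_filter]
    refine sum_nbij' (fun p => p.1 ∪ p.2) (fun W => (ev1 W, ev0 W)) ?_ ?_ ?_ ?_ ?_
    · rintro ⟨A, B⟩ h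
      rw [mem_filter] at h
      obtain ⟨hp, h0⟩ := h
      obtain ⟨⟨hA, hB⟩, hcA, hcB, hd⟩ := mem_Pr2.mp hp
      have h1 := hev' hd h0
      simp only at h0
      simp only [mem_filter, mem_powerset]
      rw [← h0, ← h1]
      exact ⟨union_subset hA hB, hcB, hcA⟩
    · intro W h
      simp only [mem_filter, mem_powerset] at h ⊢
      obtain ⟨hW, h0, h1⟩ := h
      refine ⟨mem_Pr2.mpr ⟨⟨fun u hu => hW (mem_ev1.mp hu).1, fun u hu => hW (mem_ev0.mp hu).1⟩,
        h1, h0, (ev0_disj W).symm⟩, ?_⟩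
      rw [union_comm, ev0_union]
    · rintro ⟨A, B⟩ h
      rw [mem_filter] at h
      obtain ⟨hp, h0⟩ := h
      obtain ⟨⟨hA, hB⟩, hcA, hcB, hd⟩ := mem_Pr2.mp hp
      have h1 := hev' hd h0
      simp only at h0
      simp only
      rw [← h0, ← h1]
    · intro W _
      change ev1 W ∪ ev0 W = W
      rw [union_comm, ev0_union]
    · rintro ⟨A, B⟩ h
      rw [mem_filter] at h
      obtain ⟨hp, h0⟩ := h
      obtain ⟨⟨hA, hB⟩, hcA, hcB, hd⟩ := mem_Pr2.mp hp
      have h1 := hev' hd h0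
      simp only at h0
      simp only
      rw [← h0, ← h1]
  have t0 : SU (k + 1) l N (fun W => xs (ev0 W) * ex N ys (ev1 W))
      = ∑ W ∈ (range N).powerset, (if (ev0 W).card = k + 1 ∧ (ev1 W).card = l then
        xs (ev0 W) * ex N ys (ev1 W) else 0) := by rw [SU, sum_filter]
  have t1 : SU k (l + 1) N (fun W => ex N xs (ev0 W) * ys (ev1 W))
      = ∑ W ∈ (range N).powerset, (if (ev0 W).card = k ∧ (ev1 W).card = l + 1 then
        ex N xs (ev0 W) * ys (ev1 W) else 0) := by rw [SU, sum_filter]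
  rw [r3, s0, s1, t0, t1]
  abel

/-- the reindexing of the differential of a cup product -/
theorem reidx2 (f : Finset ℕ → Finset ℕ → R) (k l M : ℕ) :
    ∑ w ∈ range (M + 1), ∑ U ∈ (range M).powerset with (ev0 U).card = k ∧ (ev1 U).card = l,
      f (insert w (sh w (ev0 U))) (insert w (sh w (ev1 U)))
    = ∑ W ∈ (range (M + 1)).powerset, ∑ w ∈ W,
      (if ((ev0 W).erase w).card = k ∧ ((ev1 W).erase w).card = l then
        f (insert w (ev0 W)) (insert w (ev1 W)) else 0) := by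
  simp only [← sum_filter]
  rw [sum_sigma', sum_sigma']
  refine sum_nbij' (fun x => ⟨insert x.1 (sh x.1 x.2), x.1⟩) (fun x => ⟨x.2, pull x.2 x.1⟩)
    ?_ ?_ ?_ ?_ ?_
  · rintro ⟨w, U⟩ h
    simp only [mem_sigma, mem_powerset, mem_filter, mem_range] at h ⊢
    obtain ⟨hw, hU, h0, h1⟩ := h
    refine ⟨?_, mem_insert_self _ _, ?_, ?_⟩
    · intro a ha
      rcases mem_insert.mp ha with rfl | ha
      · exact mem_range.mpr hw
      · obtain ⟨b, hb, rfl⟩ := mem_image.mp ha
        have := mem_range.mp (hU hb)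
        rw [mem_range, om]
        split_ifs <;> omega
    · rw [ev0_sh, card_sh, h0]
    · rw [ev1_sh, card_sh, h1]
  · rintro ⟨W, w⟩ h
    simp only [mem_sigma, mem_powerset, mem_filter, mem_range] at h ⊢
    obtain ⟨hW, hw, h0, h1⟩ := h
    have h2 : insert w (sh w (pull w W)) = W := by rw [sh_pull, insert_erase hw]
    refine ⟨mem_range.mp (hW hw), ?_, ?_, ?_⟩
    · intro a ha
      obtain ⟨b, hb, rfl⟩ := mem_image.mp ha
      have h3 := mem_range.mp (hW (mem_of_mem_erase hb))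
      have h4 := mem_range.mp (hW hw)
      have h5 := (mem_erase.mp hb).1
      rw [mem_range, dn]
      split_ifs <;> omega
    · rw [← h2, ev0_sh, card_sh] at h0
      exact h0
    · rw [← h2, ev1_sh, card_sh] at h1
      exact h1
  · rintro ⟨w, U⟩ _
    simp only
    rw [pull_sh]
  · rintro ⟨W, w⟩ h
    simp only [mem_sigma, mem_filter] at h
    simp only
    rw [sh_pull, insert_erase h.2.1]
  · rintro ⟨w, U⟩ _
    simp only
    rw [insert_ev0_sh, insert_ev1_sh]

end Pool.Agent.H749.GS
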