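import Pool.Agent.H749.GS.Cmb

/-!
# Cup products of two cochains, and the differential of a cup product
-/

set_option autoImplicit false
set_option linter.unusedSectionVars false

namespace Pool.Agent.H749.GS

open Finset MvPolynomial Pool.Agent.Q171.ND3.St Pool.Agent.W624.Stz

/-- the faces with the indices raised by `r` -/
noncomputable def fA (r : ℕ) (A : Finset ℕ) (x : P) : P := faces (A.image (· + r)) x

theorem fA_zero (A : Finset ℕ) (x : P) : fA 0 A x = faces A x := by
  rw [fA]
  congr 1
  simp

theorem om_add (w r a : ℕ) : om (w + r) (a + r) = om w a + r := by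
  simp only [om]
  split_ifs <;> omega

theorem face_fA (r w : ℕ) (A : Finset ℕ) (x : P) :
    face (w + r) (fA r A x) = fA r (insert w (sh w A)) x := by
  have h : insert (w + r) (sh (w + r) (A.image (· + r))) = (insert w (sh w A)).image (· + r) := by
    rw [image_insert]
    congr 1
    unfold Pool.Agent.Q171.ND3.St.sh
    rw [image_image, image_image]
    refine image_congr ?_
    intro a _
    exact om_add w r a
  rw [fA, fA, face_faces, h]

theorem faces_face (B : Finset ℕ) (i : ℕ) (x : P) :
    faces B (face i x) = faces (insert (en B i) B) x := by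
  apply jo_inj
  rw [jo_faces, jo_faces, jo_face, FF_FF (om_mono i).monotone (en_mono B).monotone]
  congr 2
  refine en_eq ((en_mono B).comp (om_mono i)) fun b => ?_
  rw [mem_insert, not_or]
  constructor
  · rintro ⟨h1, h2⟩
    have : b ∈ Set.range (en B) := by rw [en_range]; exact h2
    obtain ⟨a, rfl⟩ := this
    obtain ⟨c, rfl⟩ := om_surj (w := i) (b := a) (fun e => h1 (by rw [e]))
    exact ⟨c, rfl⟩
  · rintro ⟨a, rfl⟩
    refine ⟨fun e => om_ne i a ((en_mono B).injective e), ?_⟩
    exact Nat.nth_mem_of_infinite (inf_compl B) _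

theorem en_add (r : ℕ) (B : Finset ℕ) (i : ℕ) : en (B.image (· + r)) (i + r) = en B i + r := by
  have h : (fun a => if a < r then a else en B (a - r) + r) = en (B.image (· + r)) := by
    refine en_eq ?_ fun b => ?_
    · intro a b hab
      change (if a < r then a else en B (a - r) + r) < (if b < r then b else en B (b - r) + r)
      split_ifs with h1 h2
      · exact hab
      · omega
      · omega
      · have := en_mono B (show a - r < b - r by omega)
        omega
    · constructor
      · intro hb
        by_cases h1 : b < r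
        · exact ⟨b, if_pos h1⟩
        · have h2 : b - r ∉ B := by
            intro h2
            apply hb
            exact mem_image.mpr ⟨b - r, h2, by omega⟩
          have h3 : b - r ∈ Set.range (en B) := by rw [en_range]; exact h2
          obtain ⟨a, ha⟩ := h3
          refine ⟨a + r, (if_neg (by omega)).trans ?_⟩
          rw [Nat.add_sub_cancel, ha]
          omega
      · rintro ⟨a, rfl⟩ hb
        obtain ⟨c, hc, he⟩ := mem_image.mp hb
        change c + r = (if a < r then a else en B (a - r) + r) at he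
        split_ifs at he with h1
        · omega
        · have h4 : c = en B (a - r) := by omega
          have h5 : en B (a - r) ∉ B := Nat.nth_mem_of_infinite (inf_compl B) _
          exact h5 (h4 ▸ hc)
  rw [← h]
  refine (if_neg (by omega)).trans ?_
  rw [Nat.add_sub_cancel]

theorem fA_face (r : ℕ) (B : Finset ℕ) (i : ℕ) (x : P) :
    fA r B (face (i + r) x) = fA r (insert (en B i) B) x := by
  rw [fA, fA, faces_face, en_add, image_insert]

/-- the differential with the indices raised by `r` -/
noncomputable def dr (r s : ℕ) (x : P) : P := ∑ j ∈ range (s + 2), face (j + r) x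

theorem dr_zero (s : ℕ) (x : P) : dr 0 s x = d s x := by
  rw [dr, d, LinearMap.sum_apply]
  rfl

theorem faces_add (A : Finset ℕ) (x y : P) : faces A (x + y) = faces A x + faces A y := by
  apply jo_inj
  rw [map_add, jo_faces, jo_faces, jo_faces, map_add, map_add]

theorem faces_mul (A : Finset ℕ) (x y : P) : faces A (x * y) = faces A x * faces A y := by
  apply jo_inj
  rw [map_mul, jo_faces, jo_faces, jo_faces, map_mul, map_mul]

theorem faces_zero (A : Finset ℕ) : faces A 0 = 0 := by
  apply jo_inj
  rw [jo_faces, map_zero, map_zero]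

theorem faces_sum {ι : Type*} (S : Finset ι) (A : Finset ℕ) (f : ι → P) :
    faces A (∑ i ∈ S, f i) = ∑ i ∈ S, faces A (f i) := by
  classical
  induction S using Finset.induction_on with
  | empty => rw [sum_empty, sum_empty, faces_zero]
  | insert a S ha ih => rw [sum_insert ha, sum_insert ha, faces_add, ih]

theorem fA_add (r : ℕ) (A : Finset ℕ) (x y : P) : fA r A (x + y) = fA r A x + fA r A y :=
  faces_add _ _ _

theorem fA_mul (r : ℕ) (A : Finset ℕ) (x y : P) : fA r A (x * y) = fA r A x * fA r A y :=
  faces_mul _ _ _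

theorem fA_zero' (r : ℕ) (A : Finset ℕ) : fA r A 0 = 0 := faces_zero _

theorem fA_sum {ι : Type*} (r : ℕ) (S : Finset ι) (A : Finset ℕ) (f : ι → P) :
    fA r A (∑ i ∈ S, f i) = ∑ i ∈ S, fA r A (f i) := faces_sum S _ f

/-- the sum over the sets with one more element -/
theorem fA_dr {r s k : ℕ} (x : P) {B : Finset ℕ} (hB : B ⊆ range (s + k + 2)) (hk : B.card = k) :
    ex (s + k + 2) (fun A => fA r A x) B = fA r B (dr r s x) := by
  have hc : Nat.count (· ∉ B) (s + k + 2) = s + 2 := by rw [count_notMem hB, hk]; omega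
  rw [dr, fA_sum, ex]
  symm
  refine sum_bij (fun i _ => en B i) ?_ ?_ ?_ ?_
  · intro i hi
    rw [mem_range] at hi
    rw [mem_sdiff, mem_range]
    refine ⟨Nat.nth_lt_of_lt_count (by rw [hc]; exact hi), ?_⟩
    exact Nat.nth_mem_of_infinite (inf_compl B) i
  · intro i _ j _ h
    exact (en_mono B).injective h
  · intro w hw
    rw [mem_sdiff, mem_range] at hw
    refine ⟨Nat.count (· ∉ B) w, ?_, ?_⟩
    · rw [mem_range, ← hc]
      exact Nat.count_strict_mono hw.2 hw.1
    · exact Nat.nth_count hw.2
  · intro i _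
    exact fA_face r B i x

/-- the cup product -/
noncomputable def cup (r k l M : ℕ) (x y : P) : P :=
  SU k l M fun U => fA r (ev0 U) x * fA r (ev1 U) y

theorem ch2 (a : P) : a + a = 0 := p2_add_self a

theorem SU_congr {R : Type*} [CommRing R] {k l N : ℕ} {f g : Finset ℕ → R}
    (h : ∀ W, W ⊆ range N → (ev0 W).card = k → (ev1 W).card = l → f W = g W) :
    SU k l N f = SU k l N g := by
  unfold SU
  refine sum_congr rfl fun W hW => ?_
  rw [mem_filter, mem_powerset] at hW
  exact h W hW.1 hW.2.1 hW.2.2

/-- the differential of a cup product -/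
theorem dcup {r s s' k l m : ℕ} (x y : P) (h1 : s + k = m) (h2 : s' + l = m) :
    ∑ w ∈ range (m + 2), face (w + r) (cup r k l (m + 1) x y)
      = cup r (k + 1) l (m + 2) x (dr r s' y) + cup r k (l + 1) (m + 2) (dr r s x) y
        + cup r (k + 1) (l + 1) (m + 2) x y + cup r (l + 1) (k + 1) (m + 2) y x := by
  have e1 : ∀ w ∈ range (m + 2), face (w + r) (cup r k l (m + 1) x y)
      = ∑ U ∈ (range (m + 1)).powerset with (ev0 U).card = k ∧ (ev1 U).card = l,
        fA r (insert w (sh w (ev0 U))) x * fA r (insert w (sh w (ev1 U))) y := by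
    intro w _
    unfold cup SU
    rw [map_sum]
    exact sum_congr rfl fun U _ => by rw [map_mul, face_fA, face_fA]
  have e2 := reidx2 (fun A B => fA r A x * fA r B y) k l (m + 1)
  have e3 := cmbG ch2 (fun A => fA r A x) (fun A => fA r A y) k l (m + 2)
  have e4 : SU (k + 1) l (m + 2) (fun W => fA r (ev0 W) x * ex (m + 2) (fun A => fA r A y) (ev1 W))
      = cup r (k + 1) l (m + 2) x (dr r s' y) := by
    refine SU_congr fun W hW h0 h1' => ?_
    have h3 := fA_dr (r := r) (s := s') y (B := ev1 W) (k := l) (by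
      rw [h2]
      exact fun u hu => hW (mem_ev1.mp hu).1) h1'
    rw [h2] at h3
    rw [h3]
  have e5 : SU k (l + 1) (m + 2) (fun W => ex (m + 2) (fun A => fA r A x) (ev0 W) * fA r (ev1 W) y)
      = cup r k (l + 1) (m + 2) (dr r s x) y := by
    refine SU_congr fun W hW h0 h1' => ?_
    have h3 := fA_dr (r := r) (s := s) x (B := ev0 W) (k := k) (by
      rw [h1]
      exact fun u hu => hW (mem_ev0.mp hu).1) h0
    rw [h1] at h3
    rw [h3]
  have e6 : SU (l + 1) (k + 1) (m + 2) (fun W => fA r (ev1 W) x * fA r (ev0 W) y)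
      = cup r (l + 1) (k + 1) (m + 2) y x :=
    SU_congr fun W _ _ _ => mul_comm _ _
  rw [sum_congr rfl e1]
  refine e2.trans (e3.trans ?_)
  rw [e4, e5, e6]
  rfl

theorem cup_zero_left (r k l M : ℕ) (y : P) : cup r k l M 0 y = 0 := by
  unfold cup SU
  refine sum_eq_zero fun U _ => ?_
  rw [fA_zero', zero_mul]

theorem cup_zero_right (r k l M : ℕ) (x : P) : cup r k l M x 0 = 0 := by
  unfold cup SU
  refine sum_eq_zero fun U _ => ?_
  rw [fA_zero', mul_zero]

theorem cup_add_left (r k l M : ℕ) (x x' y : P) :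
    cup r k l M (x + x') y = cup r k l M x y + cup r k l M x' y := by
  unfold cup SU
  rw [← sum_add_distrib]
  refine sum_congr rfl fun U _ => ?_
  beta_reduce
  rw [fA_add, add_mul]

theorem cup_add_right (r k l M : ℕ) (x y y' : P) :
    cup r k l M x (y + y') = cup r k l M x y + cup r k l M x y' := by
  unfold cup SU
  rw [← sum_add_distrib]
  refine sum_congr rfl fun U _ => ?_
  beta_reduce
  rw [fA_add, mul_add]

theorem sqC_cup (k s : ℕ) (x : P) : sqC k s x = cup 0 k k (s + k + 1) x x := by
  unfold sqC cup SU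
  refine sum_congr rfl fun U _ => ?_
  beta_reduce
  rw [fA_zero, fA_zero]

/-- the operation on sums of cocycles -/
theorem sqC_add (k s : ℕ) {x y : P} (hx : d s x = 0) (hy : d s y = 0) :
    sqC (k + 1) s (x + y) = sqC (k + 1) s x + sqC (k + 1) s y
      + d (s + k) (cup 0 k k (s + k + 1) x y) := by
  have h := dcup (r := 0) (k := k) (l := k) (m := s + k) x y rfl rfl
  rw [dr_zero, dr_zero, hx, hy, cup_zero_left, cup_zero_right, add_zero, zero_add] at h
  have h1 : d (s + k) (cup 0 k k (s + k + 1) x y)
      = ∑ w ∈ range (s + k + 2), face (w + 0) (cup 0 k k (s + k + 1) x y) := by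
    rw [d, LinearMap.sum_apply]; rfl
  rw [h1, h, sqC_cup, sqC_cup, sqC_cup, cup_add_left, cup_add_right, cup_add_right,
    show s + (k + 1) + 1 = s + k + 2 by omega]
  ring

theorem dd_zero (s : ℕ) (x : P) : d (s + 1) (d s x) = 0 := by
  have h2 : ∀ B : Finset ℕ, B ⊆ range (s + 1 + 2) → B.card = 1 →
      ex (s + 1 + 2) (fun A => fA 0 A x) B = fA 0 B (dr 0 s x) := fun B hB hk =>
    fA_dr (r := 0) (s := s) (k := 1) x (by exact hB) hk
  have h3 : d (s + 1) (d s x) = ∑ w ∈ range (s + 1 + 2), faces {w} (d s x) := by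
    rw [d, LinearMap.sum_apply]
    refine sum_congr rfl fun w _ => ?_
    have h4 : faces {w} (d s x) = face w (faces ∅ (d s x)) := by
      rw [← faces_insert (by simp)]
      rfl
    rw [h4, faces]
    simp only [sort_empty, List.foldr_nil]
    rw [d, LinearMap.sum_apply]
    rfl
  rw [h3]
  have h4 : ∀ w ∈ range (s + 1 + 2), faces {w} (d s x)
      = ∑ v ∈ range (s + 1 + 2) \ {w}, faces {v, w} x := by
    intro w hw
    have h5 := h2 {w} (by simpa using hw) (card_singleton w)
    rw [dr_zero, fA_zero, ex] at h5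
    rw [← h5]
    exact sum_congr rfl fun v _ => by rw [fA_zero]
  rw [sum_congr rfl h4, sum_sigma']
  refine sum_involution (fun x _ => ⟨x.2, x.1⟩) ?_ ?_ ?_ ?_
  · rintro ⟨w, v⟩ _
    simp only
    rw [pair_comm]
    exact ch2 _
  · rintro ⟨w, v⟩ h _ he
    simp only [mem_sigma, mem_range, mem_sdiff, mem_singleton] at h
    simp only [Sigma.mk.injEq, heq_eq_eq] at he
    exact h.2.2 he.1
  · rintro ⟨w, v⟩ h
    simp only [mem_sigma, mem_range, mem_sdiff, mem_singleton] at h ⊢
    exact ⟨h.2.1, h.1, fun e => h.2.2 e.symm⟩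
  · rintro ⟨w, v⟩ _
    rfl

/-- the operation on coboundaries -/
theorem sqC_d (k s : ℕ) (w : P) :
    sqC (k + 1) (s + 1) (d s w)
      = d (s + k + 1) (cup 0 (k + 1) k (s + k + 2) w (d s w) + sqC (k + 1) s w) := by
  have h1 := dcup (r := 0) (s := s) (s' := s + 1) (k := k + 1) (l := k) (m := s + k + 1) w (d s w)
    (by omega) (by omega)
  have h2 := dcup (r := 0) (s := s) (s' := s) (k := k + 1) (l := k + 1) (m := s + k + 1) w w
    (by omega) (by omega)
  rw [dr_zero, dr_zero, dd_zero, cup_zero_right, zero_add] at h1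
  rw [dr_zero, add_assoc _ (cup 0 (k + 1 + 1) (k + 1 + 1) (s + k + 1 + 2) w w), ch2, add_zero] at h2
  have e : ∀ z : P, d (s + k + 1) z = ∑ w ∈ range (s + k + 1 + 2), face (w + 0) z := by
    intro z
    rw [d, LinearMap.sum_apply]; rfl
  rw [map_add, e, e, sqC_cup, sqC_cup, show s + (k + 1) + 1 = s + k + 1 + 1 by omega,
    show s + 1 + (k + 1) + 1 = s + k + 1 + 2 by omega, h1, h2]
  have h3 := ch2 (cup 0 (k + 1) (k + 1 + 1) (s + k + 1 + 2) (d s w) w)
  have h4 := ch2 (cup 0 (k + 1 + 1) (k + 1) (s + k + 1 + 2) w (d s w))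
  linear_combination -h3 - h4

end Pool.Agent.H749.GS
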