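import Pool.Agent.H749.GS.Hg

/-!
# The `E₄`-page in sparse degrees
-/

set_option autoImplicit false
set_option linter.unusedSectionVars false

namespace Pool.Agent.H749.GS

open Finset MvPolynomial TensorProduct Pool.Agent.W624.Stz
open Pool.Agent.Q171.ND3.St (IsHom Sq Sq0 fr sqC Diffs fam sq0 Cocycle IsDeg isDeg_iff star_cl
  Sq_fr Sq0_fr Sq_hom Sq_iter Sq0_iter third fr_hom)

open Pool.Agent.Q171.ND3.St renaming Z → NZ, cl → ncl, Ext → NE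

theorem even_of_dvd {r t : ℕ} (h : 2 ^ (r + 1) ∣ t) : Even t :=
  even_iff_two_dvd.mpr (dvd_trans (dvd_pow_self 2 (by omega)) h)

/-- the criterion for `d₂ y = 0` -/
theorem d2crit (s : ℕ) : ∃ r : ℕ, ∀ (D : Diffs) (t : ℕ), 2 ^ r ∣ t → ∀ X : NZ (s + 1),
    IsHom t X.1 → D.d₂ (s + 1) (Sq0 (s + 1) (ncl X)) = 0 → ncl (Sq 1 X) = 0 := by
  obtain ⟨r, hr⟩ := star_cl s
  refine ⟨r + 1, fun D t ht X hX h => ?_⟩
  have h1 := D.lin.bruner₂ (s + 1) t X (even_of_dvd ht) hX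
  have h2 : D.lin.d₂ (s + 1) (Sq0 (s + 1) (ncl X)) = 0 := h
  rw [h2] at h1
  refine (hr t (dvd_trans (pow_dvd_pow 2 (by omega)) ht) 0 (Sq 1 X)
    (isWeightedHomogeneous_zero _ _ _) (Sq_hom hX) ?_).2
  rw [map_zero, map_zero, map_zero, ← h1, map_zero]

/-- the Adem relation `Sq¹ Sq¹ = 0` follows from the properties of `d₂` -/
theorem adN (s : ℕ) : ∃ r : ℕ, ∀ (_ : Diffs) (t : ℕ), 2 ^ r ∣ t → ∀ X : NZ s,
    IsHom t X.1 → ncl (Sq 1 (Sq 1 X)) = 0 := by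
  obtain ⟨r, hr⟩ := star_cl s
  refine ⟨r + 1, fun D t ht X hX => ?_⟩
  have h1 := D.lin.bruner₂ s (2 * t) (fr X) (even_two_mul _) (hX.pow 2)
  have h2 := congrArg (D.lin.d₂ (s + 2)) h1
  rw [D.lin.sq_zero, D.lin.mul_h0, Sq_fr, ← Sq0_fr,
    D.lin.bruner₂ (s + 1) (2 * t) (Sq 1 X) (even_two_mul _) (Sq_hom hX)] at h2
  refine (hr (2 * t) (Dvd.dvd.mul_left (dvd_trans (pow_dvd_pow 2 (by omega)) ht) 2) 0
    (Sq 1 (Sq 1 X)) (isWeightedHomogeneous_zero _ _ _) (Sq_hom (Sq_hom hX)) ?_).2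
  rw [map_zero, map_zero, map_zero]
  exact h2

theorem Ad_of (S : ℕ) : ∃ R : ℕ, ∀ _ : Diffs, Ad S R := by
  choose r hr using adN
  refine ⟨∑ i ∈ range (S + 1), r i, fun D a t t' t'' h h' ha ht hd x => ?_⟩
  obtain ⟨n, rfl⟩ := Int.eq_ofNat_of_zero_le ht
  have hra : r a ≤ ∑ i ∈ range (S + 1), r i :=
    Finset.single_le_sum (f := r) (fun _ _ => Nat.zero_le _) (mem_range.mpr (by omega))
  have hd2 : 2 ^ (r a) ∣ n := by
    have h1 : (2 : ℤ) ^ (r a) ∣ (n : ℤ) := dvd_trans (pow_dvd_pow 2 hra) hd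
    exact_mod_cast h1
  obtain ⟨x, rfl⟩ := Pool.Agent.H749.GK.St.cl_surj x
  rw [Sk_cl, Sk_cl]
  apply Pool.Agent.H749.GK.St.cl_zero.mpr
  rw [qZ_val, qZ_val]
  have h1 := hr a D n hd2 (toN x) (toN_hom x)
  have h2 := ncl_zero.mp h1
  have h3 : (Sq 1 (Sq 1 (toN x))).1 = sqC 1 (a + 1) (sqC 1 a x.1) := by
    change sqC 1 (a + 1) (sqC 1 a (toN x).1) = _
    rw [toN_val]
  have h4 := toN_B (Sq_hom (k := 1) (Sq_hom (k := 1) (toN_hom x))) h2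
  rw [h3] at h4
  have e : ((2 * (2 * n) : ℕ) : ℤ) = t'' := by rw [h', h]; push_cast; ring
  rw [e] at h4
  exact h4

/-- a cocycle as a structure -/
def coc {s : ℕ} (x : NZ s) : Cocycle s := ⟨x.1, x.2.1, LinearMap.mem_ker.mp x.2.2⟩

theorem iter_ncl {s : ℕ} (n : ℕ) (x : NZ s) : (Sq0 s)^[n] (ncl x) = ncl (fr^[n] x) := Sq0_iter x n

theorem fam_ncl {s : ℕ} (n : ℕ) (x : NZ s) : fam s n (ncl x) = ncl (fr^[n] x) := Sq0_iter x n

/-- the data of the main theorem -/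
structure Dat (s J r S R b m e : ℕ) (D : Diffs) : Prop where
  hthird : ∀ (t : ℕ) (x : Cocycle s), IsHom t x.val →
    ∀ j, J ≤ j → D.d₂ (s + 1) (fam (s + 1) j (x.Sq 1).cls) = 0 ∧
      (D.Survives₄ (s + 1) (fam (s + 1) j (x.Sq 1).cls) ↔
        fam (s + 3) J ((x.Sq 1).Sq 2).cls = 0)
  hcrit : ∀ (t : ℕ), 2 ^ r ∣ t → ∀ X : NZ (s + 1),
    IsHom t X.1 → D.d₂ (s + 1) (Sq0 (s + 1) (ncl X)) = 0 → ncl (Sq 1 X) = 0
  hS : s + 1 ≤ S
  he : 2 ^ r ∣ e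
  hL : Lev S R b m ((2 * e : ℕ) : ℤ) (e : ℤ)
  hA : Ad S R

variable {s J r S R b m e : ℕ} {D : Diffs}

namespace Dat

variable (h : Dat s J r S R b m e D)
include h

theorem de {a : ℕ} (ha : a ≤ S + 4) : 2 ^ (2 * a + 1) ∣ e := by
  have h1 : (2 : ℤ) ^ (2 * a + 1) ∣ (e : ℤ) := dvd_trans (pow_dvd_pow 2 (by omega)) h.hL.dv
  exact_mod_cast h1

theorem crit1 {X : NZ (s + 1)} (hX : IsHom (2 * e) X.1)
    (h2 : D.d₂ (s + 1) (ncl (fr^[J + 1] X)) = 0) : ncl (Sq 1 X) = 0 := by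
  rw [Function.iterate_succ_apply', ← Sq0_fr] at h2
  have h3 := h.hcrit (2 ^ J * (2 * e)) (Dvd.dvd.mul_left (Dvd.dvd.mul_left h.he _) _) _
    (fr_hom hX J) h2
  rw [Sq_iter] at h3
  exact down (a := s + 1 + 1) (c := 2 * (2 * e)) J
    (Dvd.dvd.mul_left (Dvd.dvd.mul_left (h.de (by have := h.hS; omega)) _) _) (Sq 1 X)
    (Sq_hom hX) h3

/-- the classes killed by `d₂` -/
theorem keyA (hs : s + 1 < b + 3 * m) {X : NZ (s + 1)} (hX : IsHom (2 * e) X.1)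
    (h2 : D.d₂ (s + 1) (ncl (fr^[J + 1] X)) = 0) :
    ∃ W : NZ s, IsHom e W.1 ∧ ncl (Sq 1 W) = ncl X := by
  have hcc : ((2 * e : ℕ) : ℤ) = 2 * (e : ℤ) := by push_cast; ring
  exact useH ((h.hL.all h.hA).2.1 hcc) hs h.hS hX (h.crit1 hX h2)

theorem y_eq {X : NZ (s + 1)} {W : NZ s} (hW : ncl (Sq 1 W) = ncl X) :
    ncl (fr^[J + 1] X) = ncl (Sq 1 (fr^[J + 1] W)) := by
  rw [Sq_iter, ← iter_ncl, ← iter_ncl, hW]

theorem y_fam {X : NZ (s + 1)} {W : NZ s} (hW : ncl (Sq 1 W) = ncl X) :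
    ncl (fr^[J + 1] X) = fam (s + 1) (J + 1) ((coc W).Sq 1).cls := by
  have h1 : ((coc W).Sq 1).cls = ncl (Sq 1 W) := rfl
  rw [h1, hW]
  exact (fam_ncl _ _).symm

/-- the square of the class upstairs -/
theorem Sq2_zero {X : NZ (s + 1)} {W : NZ s} (hW : ncl (Sq 1 W) = ncl X) (hWe : IsHom e W.1) :
    D.Survives₄ (s + 1) (ncl (fr^[J + 1] X)) ↔ ncl (Sq 2 (Sq 1 W)) = 0 := by
  rw [h.y_fam hW, (h.hthird e (coc W) hWe (J + 1) (by omega)).2]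
  have h1 : ((((coc W).Sq 1).Sq 2).cls) = ncl (Sq 2 (Sq 1 W)) := rfl
  rw [h1]
  constructor
  · intro h2
    have h3 := (fam_ncl J (Sq 2 (Sq 1 W))).symm.trans h2
    exact down (a := s + 1 + 2) (c := 2 * (2 * e)) J
      (Dvd.dvd.mul_left (Dvd.dvd.mul_left (h.de (by have := h.hS; omega)) _) _) _
      (Sq_hom (Sq_hom hWe)) h3
  · intro h2
    have h3 := fam_ncl J (Sq 2 (Sq 1 W))
    have h4 := iter_ncl J (Sq 2 (Sq 1 W))
    rw [h2, Pool.Agent.Q171.ND3.St.iter_zero] at h4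
    exact h3.trans h4.symm

theorem main {t : ℕ} (ht : t = 2 ^ (J + 1) * (2 * e)) (y : NE (s + 1)) (hy : IsDeg (s + 1) t y) :
    (s + 1 < b + 3 * m →
      (D.d₂ (s + 1) y = 0 ↔ ∃ x : Cocycle s, IsHom (t / 2) x.val ∧ (x.Sq 1).cls = y) ∧
      (D.Survives₄ (s + 1) y ↔ ∃ x : Cocycle s, IsHom (t / 2) x.val ∧ (x.Sq 1).cls = y ∧
        ((x.Sq 1).Sq 2).cls = 0)) ∧
    ((1 ≤ m ∧ s + 1 ≤ b + m) ∨ (3 ≤ m ∧ s + 1 ≤ b + m + 1) ∨ (5 ≤ m ∧ s + 1 ≤ b + m + 2) →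
      D.Survives₄ (s + 1) y → y = 0) := by
  have ht2 : t / 2 = 2 ^ (J + 1) * e := by
    rw [ht, show 2 ^ (J + 1) * (2 * e) = 2 * (2 ^ (J + 1) * e) by ring]
    exact Nat.mul_div_cancel_left _ (by norm_num)
  rw [ht2]
  obtain ⟨Y, hY, rfl⟩ := hy
  rw [ht] at hY
  obtain ⟨X, hX, hXY⟩ := pull (a := s + 1) (c := 2 * e) (J + 1)
    (Dvd.dvd.mul_left (h.de (by have := h.hS; omega)) _) Y.toZ hY
  have hYX : Y.cls = ncl (fr^[J + 1] X) := hXY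
  rw [hYX]
  -- roots of `x`
  have hroot : ∀ x : Cocycle s, IsHom (2 ^ (J + 1) * e) x.val → ∃ W : NZ s, IsHom e W.1 ∧
      (x.Sq 1).cls = ncl (fr^[J + 1] (Sq 1 W)) ∧
      ((x.Sq 1).Sq 2).cls = ncl (fr^[J + 1] (Sq 2 (Sq 1 W))) := by
    intro x hx
    obtain ⟨W, hW, hxW⟩ := pull (a := s) (c := e) (J + 1)
      (h.de (by have := h.hS; omega)) x.toZ hx
    have hW2 := fr_hom hW (J + 1)
    have h1 := wdq 0 (X := x.toZ) (X' := fr^[J + 1] W) hx hW2 hxW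
    have h2 := wdq 1 (X := Sq 1 x.toZ) (X' := Sq 1 (fr^[J + 1] W)) (Sq_hom hx) (Sq_hom hW2) h1
    refine ⟨W, hW, ?_, ?_⟩
    · rw [← Sq_iter]
      exact h1
    · rw [← Sq_iter, ← Sq_iter]
      exact h2
  have hdn : ∀ {a : ℕ} (x x' : NZ a), IsHom (2 * e) x.1 → IsHom (2 * e) x'.1 →
      a ≤ S + 4 → ncl (fr^[J + 1] x) = ncl (fr^[J + 1] x') → ncl x = ncl x' := by
    intro a x x' hx hx' ha hxx
    have h1 : ncl (fr^[J + 1] (x + x')) = 0 := by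
      rw [← iter_ncl]
      have h2 : (Sq0 a)^[J + 1] (ncl (x + x')) = (Sq0 a)^[J + 1] (ncl x)
          + (Sq0 a)^[J + 1] (ncl x') := by
        rw [map_add]
        exact iterate_map_add (Sq0 a) (J + 1) _ _
      rw [h2, iter_ncl, iter_ncl, hxx]
      exact self_add _
    have h3 := down (a := a) (c := 2 * e) (J + 1)
      (Dvd.dvd.mul_left (h.de ha) _) (x + x') (hx.add hx') h1
    rw [map_add] at h3
    exact add_eq_zero_of h3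
  refine ⟨fun hs => ⟨⟨fun h2 => ?_, ?_⟩, ⟨fun h2 => ?_, ?_⟩⟩, fun hm h2 => ?_⟩
  · obtain ⟨W, hW, hWX⟩ := h.keyA hs hX h2
    exact ⟨coc (fr^[J + 1] W), fr_hom hW (J + 1), (h.y_eq hWX).symm⟩
  · rintro ⟨x, hx, hxy⟩
    obtain ⟨W, hW, h1, _⟩ := hroot x hx
    rw [← hxy, h1]
    have h3 := (h.hthird e (coc W) hW (J + 1) (by omega)).1
    have h4 : fam (s + 1) (J + 1) ((coc W).Sq 1).cls = ncl (fr^[J + 1] (Sq 1 W)) :=
      fam_ncl _ _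
    rwa [h4] at h3
  · obtain ⟨W, hW, hWX⟩ := h.keyA hs hX h2.1
    refine ⟨coc (fr^[J + 1] W), fr_hom hW (J + 1), (h.y_eq hWX).symm, ?_⟩
    have h3 := (h.Sq2_zero hWX hW).mp h2
    have h4 : (((coc (fr^[J + 1] W)).Sq 1).Sq 2).cls = ncl (Sq 2 (Sq 1 (fr^[J + 1] W))) := rfl
    rw [h4, Sq_iter, Sq_iter, ← iter_ncl, h3]
    exact Pool.Agent.Q171.ND3.St.iter_zero _
  · rintro ⟨x, hx, hxy, hx2⟩
    obtain ⟨W, hW, h1, h3⟩ := hroot x hx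
    have h4 : ncl (fr^[J + 1] X) = ncl (fr^[J + 1] (Sq 1 W)) := by rw [← hxy, h1]
    have h5 : ncl (Sq 1 W) = ncl X :=
      hdn (Sq 1 W) X (Sq_hom hW) hX (by have := h.hS; omega) h4.symm
    refine (h.Sq2_zero h5 hW).mpr ?_
    refine down (a := s + 1 + 2) (c := 2 * (2 * e)) (J + 1)
      (Dvd.dvd.mul_left (Dvd.dvd.mul_left (h.de (by have := h.hS; omega)) _) _) _
      (Sq_hom (Sq_hom hW)) ?_
    exact h3.symm.trans hx2
  · obtain ⟨W, hW, hWX⟩ := h.keyA (by omega) hX h2.1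
    have h3 := (h.Sq2_zero hWX hW).mp h2
    have h4 : ncl (Sq 2 X) = 0 := by
      rw [← wdq 1 (X := Sq 1 W) (X' := X) (Sq_hom hW) hX hWX]
      exact h3
    have h5 : ncl X = 0 :=
      useW (h.hL.W_all h.hA h.hS hm) hX (h.crit1 hX h2.1) h4
    rw [← iter_ncl, h5]
    exact Pool.Agent.Q171.ND3.St.iter_zero _

end Dat

/-- the vanishing of the lines below `b`, in the degree `u`, gives the vanishing in `u / 2 ^ n` -/
theorem Vn_of {S b u' n : ℕ} (hd : 2 ^ (2 * (S + 4) + 1) ∣ u')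
    (hb : ∀ i < b, ∀ y : NE i, IsDeg i (2 ^ (n + 1) * u') y → y = 0) :
    Vn S b (2 * (u' : ℤ)) := by
  intro i hi hiS α
  obtain ⟨x, rfl⟩ := Pool.Agent.H749.GK.St.cl_surj α
  apply Pool.Agent.H749.GK.St.cl_zero.mpr
  have hd' : (2 : ℤ) ^ (2 * i + 1) ∣ 2 * (u' : ℤ) := by
    refine Dvd.dvd.mul_left (dvd_trans (pow_dvd_pow 2 (show 2 * i + 1 ≤ 2 * (S + 4) + 1 by omega)) ?_) 2
    exact_mod_cast hd
  refine sqB hd' n x ?_
  have h1 := useV (hb i hi) (Pool.Agent.H749.GK.St.cl ⟨x.1 ^ (2 ^ n), by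
    have h2 := (Pool.Agent.H749.GK.St.sqZ n (2 * (u' : ℤ)) i x).2
    have e : (2 : ℤ) ^ n * (2 * (u' : ℤ)) = ((2 ^ (n + 1) * u' : ℕ) : ℤ) := by push_cast; ring
    rw [← e]
    exact h2⟩)
  have h3 := Pool.Agent.H749.GK.St.cl_zero.mp h1
  have e : (2 : ℤ) ^ n * (2 * (u' : ℤ)) = ((2 ^ (n + 1) * u' : ℕ) : ℤ) := by push_cast; ring
  rw [e]
  exact h3

/-- **The `E₄`-page in sparse degrees.** -/
theorem sparse (s : ℕ) : ∃ L : ℕ, ∀ (u b m : ℕ) (k : ℕ → ℕ), 2 ^ L ∣ u →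
    (∀ i < b, ∀ y : NE i, IsDeg i u y → y = 0) → L ≤ k 0 → 2 ^ L * u ≤ 2 ^ k 0 →
    (∀ i, k i + L ≤ k (i + 1)) → ∀ (D : Diffs) (y : NE (s + 1)),
    IsDeg (s + 1) (u + ∑ i ∈ range m, 2 ^ k i) y →
    (s + 1 < b + 3 * m →
      (D.d₂ (s + 1) y = 0 ↔ ∃ x : Cocycle s, IsHom ((u + ∑ i ∈ range m, 2 ^ k i) / 2) x.val ∧
        (x.Sq 1).cls = y) ∧
      (D.Survives₄ (s + 1) y ↔ ∃ x : Cocycle s,
        IsHom ((u + ∑ i ∈ range m, 2 ^ k i) / 2) x.val ∧ (x.Sq 1).cls = y ∧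
        ((x.Sq 1).Sq 2).cls = 0)) ∧
    ((1 ≤ m ∧ s + 1 ≤ b + m) ∨ (3 ≤ m ∧ s + 1 ≤ b + m + 1) ∨ (5 ≤ m ∧ s + 1 ≤ b + m + 2) →
      D.Survives₄ (s + 1) y → y = 0) := by
  obtain ⟨J, hJ⟩ := third s
  obtain ⟨r, hr⟩ := d2crit s
  obtain ⟨R, hR⟩ := Ad_of (s + 1)
  set N := 2 * (s + 1) + R + 14 with hN
  refine ⟨N + r + (J + 2), fun u b m k hu hb hk0 hk1 hk D y hy => ?_⟩
  obtain ⟨u₁, hu₁⟩ := hu
  have hu' : u = 2 ^ (J + 2) * (2 ^ (N + r) * u₁) := by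
    rw [hu₁, pow_add 2 (N + r) (J + 2)]; ring
  set u' := 2 ^ (N + r) * u₁ with hu'd
  have hkJ : ∀ i, J + 2 ≤ k i := by
    intro i
    induction i with
    | zero => omega
    | succ i ih => have := hk i; omega
  have hkr : ∀ i, N + r ≤ k i - (J + 2) := by
    intro i
    cases i with
    | zero => omega
    | succ i => have := hk i; have := hkJ i; omega
  set k' : ℕ → ℕ := fun i => k i - (J + 2) with hk'
  have hkk : ∀ i, 2 ^ k i = 2 ^ (J + 2) * 2 ^ k' i := by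
    intro i
    rw [← pow_add]
    congr 1
    have := hkJ i
    simp only [hk']
    omega
  set e := u' + ∑ i ∈ range m, 2 ^ k' i with he
  have ht : u + ∑ i ∈ range m, 2 ^ k i = 2 ^ (J + 1) * (2 * e) := by
    rw [hu', sum_congr rfl fun i _ => hkk i, ← mul_sum, ← mul_add, ← he]
    ring
  have hdu : 2 ^ (2 * (s + 1 + 4) + 1) ∣ u' :=
    Dvd.dvd.mul_right (pow_dvd_pow 2 (by omega)) _
  have hdr : 2 ^ r ∣ e := by
    refine dvd_add (Dvd.dvd.mul_right (pow_dvd_pow 2 (by omega)) _) ?_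
    exact dvd_sum fun i _ => pow_dvd_pow 2 (by have := hkr i; simp only [hk']; omega)
  have hle : 2 ^ (2 * (s + 1) + R + 13) * u' ≤ 2 ^ k' 0 := by
    have h1 : 2 ^ (J + 2) * (2 ^ (2 * (s + 1) + R + 13) * u') ≤ 2 ^ (J + 2) * 2 ^ k' 0 := by
      rw [← hkk]
      refine le_trans ?_ hk1
      rw [hu']
      have h2 : 2 ^ (2 * (s + 1) + R + 13) ≤ 2 ^ (N + r + (J + 2)) :=
        Nat.pow_le_pow_right (by norm_num) (by omega)
      calc 2 ^ (J + 2) * (2 ^ (2 * (s + 1) + R + 13) * u')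
          = 2 ^ (2 * (s + 1) + R + 13) * (2 ^ (J + 2) * u') := by ring
        _ ≤ 2 ^ (N + r + (J + 2)) * (2 ^ (J + 2) * u') := Nat.mul_le_mul_right _ h2
    exact Nat.le_of_mul_le_mul_left h1 (by positivity)
  have hV : Vn (s + 1) b (2 * (u' : ℤ)) := by
    refine Vn_of (n := J + 1) hdu fun i hi y hy => hb i hi y ?_
    rwa [hu']
  have hL := (lev_of (S := s + 1) (R := R) (b := b) (c₀ := (u' : ℤ)) (by positivity)
    (by exact_mod_cast hdu) hV k' (by exact_mod_cast hle)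
    (by have := hkr 0; simp only [hk']; omega)
    (fun i => by have := hk i; have := hkJ i; simp only [hk']; omega) m).1
  have e1 : 2 * (u' : ℤ) + ∑ i ∈ range m, 2 ^ (k' i + 1) = ((2 * e : ℕ) : ℤ) := by
    rw [he]
    push_cast
    rw [mul_add, mul_sum]
    congr 1
    exact sum_congr rfl fun i _ => by rw [pow_succ]; ring
  have e2 : (u' : ℤ) + ∑ i ∈ range m, 2 ^ (k' i) = (e : ℤ) := by
    rw [he]
    push_cast
    rfl
  rw [e1, e2] at hL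
  have hdat : Dat s J r (s + 1) R b m e D := ⟨hJ D, hr D, le_rfl, hdr, hL, hR D⟩
  exact hdat.main ht y hy

end Pool.Agent.H749.GS
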