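import Pool.Agent.H749.GS.Lev

/-!
# Classes of homogeneous cocycles in the two models
-/

set_option autoImplicit false
set_option linter.unusedSectionVars false

namespace Pool.Agent.H749.GS

open Finset MvPolynomial TensorProduct Pool.Agent.W624.Stz

theorem homI {t : ℕ} {x : MvPolynomial (ℕ × ℕ) (ZMod 2)} :
    Pool.Agent.Q171.ND3.St.IsHom t x ↔
      IsWeightedHomogeneous Pool.Agent.H749.GK.St.wt x (t : ℤ) := by
  have h1 : ∀ e : (ℕ × ℕ) →₀ ℕ, Finsupp.weight Pool.Agent.H749.GK.St.wt e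
      = ((Finsupp.weight (fun p : ℕ × ℕ => 2 ^ (p.2 + 1) - 1) e : ℕ) : ℤ) := by
    intro e
    rw [Finsupp.weight_apply, Finsupp.weight_apply, Finsupp.sum, Finsupp.sum]
    push_cast
    refine sum_congr rfl fun v _ => ?_
    rw [nsmul_eq_mul, smul_eq_mul]
    push_cast
    rw [Nat.cast_sub (Nat.one_le_two_pow)]
    push_cast
    rfl
  constructor
  · intro h e he
    rw [h1, h he]
  · intro h e he
    have h2 := h he
    rw [h1] at h2
    exact_mod_cast h2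

/-- a homogeneous cocycle in the graded model -/
def toG {s t : ℕ} (x : Pool.Agent.Q171.ND3.St.Z s) (hx : Pool.Agent.Q171.ND3.St.IsHom t x.1) :
    Pool.Agent.H749.GK.St.Z s (t : ℤ) :=
  ⟨x.1, ⟨x.2.1, homI.mp hx⟩, by
    have := x.2.2
    rwa [d_eq] at this⟩

/-- a cocycle of the graded model -/
def toN {s : ℕ} {t : ℤ} (x : Pool.Agent.H749.GK.St.Z s t) : Pool.Agent.Q171.ND3.St.Z s :=
  ⟨x.1, x.2.1.1, by rw [d_eq]; exact x.2.2⟩

theorem toN_val {s : ℕ} {t : ℤ} (x : Pool.Agent.H749.GK.St.Z s t) : (toN x).1 = x.1 := by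
  rw [toN]

theorem toG_val {s t : ℕ} (x : Pool.Agent.Q171.ND3.St.Z s)
    (hx : Pool.Agent.Q171.ND3.St.IsHom t x.1) : (toG x hx).1 = x.1 := by
  rw [toG]

theorem toN_hom {s t : ℕ} (x : Pool.Agent.H749.GK.St.Z s (t : ℤ)) :
    Pool.Agent.Q171.ND3.St.IsHom t (toN x).1 := by
  have h : IsWeightedHomogeneous Pool.Agent.H749.GK.St.wt x.1 (t : ℤ) := x.2.1.2
  rw [toN_val]
  exact homI.mpr h

theorem toN_B {s t : ℕ} {x : Pool.Agent.H749.GK.St.P}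
    (hx : Pool.Agent.Q171.ND3.St.IsHom t x) (h : x ∈ Pool.Agent.Q171.ND3.St.B s) :
    x ∈ Pool.Agent.H749.GK.St.B s (t : ℤ) := by
  cases s with
  | zero =>
    have h2 : x = 0 := (Submodule.mem_bot _).mp h
    rw [h2]
    exact Submodule.zero_mem _
  | succ s =>
    obtain ⟨y, hy, hd⟩ := Submodule.mem_map.mp h
    refine Submodule.mem_map.mpr ⟨Pool.Agent.Q171.ND3.St.cmp t y,
      ⟨Pool.Agent.Q171.ND3.St.cmp_C hy, homI.mp (Pool.Agent.Q171.ND3.St.cmp_hom t y)⟩, ?_⟩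
    rw [← d_eq, ← Pool.Agent.Q171.ND3.St.cmp_d, hd]
    exact Pool.Agent.Q171.ND3.St.cmp_same hx

theorem toG_B {s : ℕ} {t : ℤ} {x : Pool.Agent.H749.GK.St.P}
    (h : x ∈ Pool.Agent.H749.GK.St.B s t) : x ∈ Pool.Agent.Q171.ND3.St.B s := by
  cases s with
  | zero =>
    have h2 : x = 0 := (Submodule.mem_bot _).mp h
    rw [h2]
    exact Submodule.zero_mem _
  | succ s =>
    obtain ⟨y, hy, hd⟩ := Submodule.mem_map.mp h
    exact Submodule.mem_map.mpr ⟨y, hy.1, by rw [d_eq]; exact hd⟩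

attribute [irreducible] toN toG

open Pool.Agent.Q171.ND3.St (IsHom Sq Sq0 fr sqC Diffs fam sq0 Cocycle IsDeg)

open Pool.Agent.Q171.ND3.St renaming Z → NZ, cl → ncl

theorem ncl_zero {s : ℕ} {x : NZ s} : ncl x = 0 ↔ x.1 ∈ Pool.Agent.Q171.ND3.St.B s :=
  Pool.Agent.Q171.ND3.St.cl_eq_zero

theorem ncl_eq {s : ℕ} {x y : NZ s} (h : x.1 + y.1 ∈ Pool.Agent.Q171.ND3.St.B s) :
    ncl x = ncl y := by
  have h1 : ncl (x + y) = 0 := ncl_zero.mpr h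
  rw [map_add] at h1
  exact add_eq_zero_of h1

theorem ncl_add {s : ℕ} {x y : NZ s} (h : ncl x = ncl y) :
    x.1 + y.1 ∈ Pool.Agent.Q171.ND3.St.B s := by
  have h1 : ncl (x + y) = 0 := by rw [map_add, h]; exact self_add _
  exact ncl_zero.mp h1

theorem gcl_add {s : ℕ} {t : ℤ} {x y : Pool.Agent.H749.GK.St.Z s t}
    (h : Pool.Agent.H749.GK.St.cl x = Pool.Agent.H749.GK.St.cl y) :
    x.1 + y.1 ∈ Pool.Agent.H749.GK.St.B s t := by
  have h1 : Pool.Agent.H749.GK.St.cl (x + y) = 0 := by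
    rw [Pool.Agent.H749.GK.St.cl_add, h]; exact self_add _
  exact Pool.Agent.H749.GK.St.cl_zero.mp h1

theorem fr_val {s : ℕ} (x : NZ s) : (fr x).1 = x.1 ^ 2 := rfl

theorem fr_iter_val {s : ℕ} (n : ℕ) (x : NZ s) : (fr^[n] x).1 = x.1 ^ (2 ^ n) := by
  induction n with
  | zero => rw [Function.iterate_zero, id, pow_zero, pow_one]
  | succ n ih => rw [Function.iterate_succ_apply', fr_val, ih, ← pow_mul, ← pow_succ]

theorem fr_iter_hom {s t : ℕ} {x : NZ s} (hx : IsHom t x.1) (n : ℕ) :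
    IsHom (2 ^ n * t) (fr^[n] x).1 := Pool.Agent.Q171.ND3.St.fr_hom hx n

/-- roots of cocycles, up to coboundaries -/
theorem pull {a c : ℕ} (n : ℕ) (hd : 2 ^ (2 * a + 1) ∣ c) (Y : NZ a)
    (hY : IsHom (2 ^ n * c) Y.1) : ∃ X : NZ a, IsHom c X.1 ∧ ncl Y = ncl (fr^[n] X) := by
  have hd' : (2 : ℤ) ^ (2 * a + 1) ∣ (c : ℤ) := by exact_mod_cast hd
  have e : ((2 ^ n * c : ℕ) : ℤ) = 2 ^ n * (c : ℤ) := by push_cast; ring
  have hY' : Y.1 ∈ Pool.Agent.H749.GK.St.Z a (2 ^ n * (c : ℤ)) := by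
    have h1 := (toG Y hY).2
    rwa [toG_val, e] at h1
  obtain ⟨X, hX⟩ := Pool.Agent.H749.GK.St.sqc_surj n (c : ℤ) hd'
    (Pool.Agent.H749.GK.St.cl ⟨Y.1, hY'⟩)
  have hX' : Pool.Agent.H749.GK.St.cl (Pool.Agent.H749.GK.St.sqZ n (c : ℤ) a X)
      = Pool.Agent.H749.GK.St.cl ⟨Y.1, hY'⟩ := hX
  have h2 : X.1 ^ (2 ^ n) + Y.1 ∈ Pool.Agent.H749.GK.St.B a (2 ^ n * (c : ℤ)) := gcl_add hX'
  have h3 := toG_B h2
  refine ⟨toN X, toN_hom X, ?_⟩
  apply ncl_eq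
  rw [fr_iter_val, toN_val, add_comm]
  exact h3

/-- the powers of a cocycle which is not a coboundary -/
theorem sqB {a : ℕ} {c : ℤ} (hd : (2 : ℤ) ^ (2 * a + 1) ∣ c) (n : ℕ) :
    ∀ (x : Pool.Agent.H749.GK.St.Z a c), x.1 ^ (2 ^ n) ∈ Pool.Agent.H749.GK.St.B a (2 ^ n * c) →
      x.1 ∈ Pool.Agent.H749.GK.St.B a c := by
  induction n with
  | zero =>
    intro x h
    simp only [pow_zero, pow_one, one_mul] at h
    exact h
  | succ n ih =>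
    intro x h
    apply ih
    have hx := (Pool.Agent.H749.GK.St.sqZ n c a x).2
    have hv : (Pool.Agent.H749.GK.St.sqZ n c a x).1 = x.1 ^ (2 ^ n) := rfl
    have h1 := S0_inj (s := a) (t := 2 ^ n * c) (t' := 2 * (2 ^ n * c)) rfl
      (Dvd.dvd.mul_left hd _) (α := Pool.Agent.H749.GK.St.cl (Pool.Agent.H749.GK.St.sqZ n c a x))
      (by
        rw [S0_cl]
        apply Pool.Agent.H749.GK.St.cl_zero.mpr
        change (x.1 ^ (2 ^ n)) ^ 2 ∈ _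
        rw [← pow_mul, ← pow_succ, show 2 * (2 ^ n * c) = 2 ^ (n + 1) * c by ring]
        exact h)
    exact Pool.Agent.H749.GK.St.cl_zero.mp h1

theorem down {a c : ℕ} (n : ℕ) (hd : 2 ^ (2 * a + 1) ∣ c) (X : NZ a)
    (hX : IsHom c X.1) (h : ncl (fr^[n] X) = 0) : ncl X = 0 := by
  have hd' : (2 : ℤ) ^ (2 * a + 1) ∣ (c : ℤ) := by exact_mod_cast hd
  rw [ncl_zero, fr_iter_val] at h
  have h1 := toN_B (t := 2 ^ n * c) (by
    have := fr_iter_hom hX n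
    rwa [fr_iter_val] at this) h
  rw [ncl_zero]
  have h2 := sqB hd' n (toG X hX) (by
    rw [toG_val]
    have e : ((2 ^ n * c : ℕ) : ℤ) = 2 ^ n * (c : ℤ) := by push_cast; ring
    rwa [e] at h1)
  rw [toG_val] at h2
  exact toG_B h2

/-- the operations are well-defined -/
theorem wdq (k : ℕ) {a c : ℕ} {X X' : NZ a} (hX : IsHom c X.1) (hX' : IsHom c X'.1)
    (h : ncl X = ncl X') : ncl (Sq (k + 1) X) = ncl (Sq (k + 1) X') := by
  have h1 := toN_B (t := c) (hX.add hX') (ncl_add h)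
  have h2 : Pool.Agent.H749.GK.St.cl (toG X hX) = Pool.Agent.H749.GK.St.cl (toG X' hX') := by
    apply Pool.Agent.H749.GK.St.cl_eq
    rw [toG_val, toG_val]
    exact h1
  have h3 := congrArg (Sk k a (rfl : 2 * (c : ℤ) = 2 * c)) h2
  rw [Sk_cl, Sk_cl] at h3
  have h4 := gcl_add h3
  rw [qZ_val, qZ_val, toG_val, toG_val] at h4
  exact ncl_eq (toG_B h4)

/-- the use of `Wn` -/
theorem useW {s c : ℕ} (hW : Wn s (c : ℤ)) {X : NZ s} (hX : IsHom c X.1)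
    (h1 : ncl (Sq 1 X) = 0) (h2 : ncl (Sq 2 X) = 0) : ncl X = 0 := by
  have e : ((2 * c : ℕ) : ℤ) = 2 * (c : ℤ) := by push_cast; ring
  have h3 : ∀ k, ncl (Sq (k + 1) X) = 0 →
      Sk k s (rfl : 2 * (c : ℤ) = 2 * c) (Pool.Agent.H749.GK.St.cl (toG X hX)) = 0 := by
    intro k hk
    rw [Sk_cl]
    apply Pool.Agent.H749.GK.St.cl_zero.mpr
    rw [qZ_val, toG_val, ← e]
    exact toN_B (Pool.Agent.Q171.ND3.St.Sq_hom hX) (ncl_zero.mp hk)
  have h4 := Pool.Agent.H749.GK.St.cl_zero.mp (hW _ rfl _ (h3 0 h1) (h3 1 h2))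
  rw [toG_val] at h4
  exact ncl_zero.mpr (toG_B h4)

/-- the use of `Hb` -/
theorem useH {S n s c c₀ : ℕ} {hcc : (c : ℤ) = 2 * (c₀ : ℤ)} (hH : Hb S n c c₀ hcc)
    (hs : s + 1 < n) (hS : s + 1 ≤ S) {X : NZ (s + 1)} (hX : IsHom c X.1)
    (h1 : ncl (Sq 1 X) = 0) : ∃ W : NZ s, IsHom c₀ W.1 ∧ ncl (Sq 1 W) = ncl X := by
  have e : ((2 * c : ℕ) : ℤ) = 2 * (c : ℤ) := by push_cast; ring
  have h3 : Sk 0 (s + 1) (rfl : 2 * (c : ℤ) = 2 * c) (Pool.Agent.H749.GK.St.cl (toG X hX)) = 0 := by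
    rw [Sk_cl]
    apply Pool.Agent.H749.GK.St.cl_zero.mpr
    rw [qZ_val, toG_val, ← e]
    exact toN_B (Pool.Agent.Q171.ND3.St.Sq_hom hX) (ncl_zero.mp h1)
  obtain ⟨z, hz⟩ := hH.2 s hs hS _ rfl _ h3
  obtain ⟨w, rfl⟩ := Pool.Agent.H749.GK.St.cl_surj z
  rw [Sk_cl] at hz
  have h4 := gcl_add hz
  rw [qZ_val, toG_val] at h4
  refine ⟨toN w, toN_hom w, ncl_eq ?_⟩
  have h5 := toG_B h4
  have h6 : (Sq 1 (toN w)).1 = sqC 1 s w.1 := by
    change sqC 1 s (toN w).1 = _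
    rw [toN_val]
  rw [h6]
  exact h5

theorem useV {i u : ℕ} (h : ∀ y : Pool.Agent.Q171.ND3.St.Ext i, IsDeg i u y → y = 0)
    (α : Pool.Agent.H749.GK.St.Ext i (u : ℤ)) : α = 0 := by
  obtain ⟨x, rfl⟩ := Pool.Agent.H749.GK.St.cl_surj α
  have h1 := h (ncl (toN x)) (Pool.Agent.Q171.ND3.St.isDeg_iff.mpr ⟨toN x, toN_hom x, rfl⟩)
  apply Pool.Agent.H749.GK.St.cl_zero.mpr
  have h2 := toN_B (toN_hom x) (ncl_zero.mp h1)
  rwa [toN_val] at h2

end Pool.Agent.H749.GS
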