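import Pool.Agent.H749.GS.Stq

/-!
# Sparse degrees
-/

set_option autoImplicit false
set_option linter.unusedSectionVars false

namespace Pool.Agent.H749.GS

open Finset MvPolynomial TensorProduct Pool.Agent.H749.GK.St Pool.Agent.W624.Stz
  Pool.Agent.H749.GK.KA

/-- sparse degrees `c = 2 c₀` with `m` powers of two -/
inductive Lev (S R b : ℕ) : ℕ → ℤ → ℤ → Prop
  | base (c₀ : ℤ) : 0 ≤ c₀ → (2 : ℤ) ^ (2 * (S + 4) + 1) ∣ c₀ → Vn S b (2 * c₀) →
      Lev S R b 0 (2 * c₀) c₀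
  | step (m : ℕ) (c c₀ : ℤ) (ρ K : ℕ) : Lev S R b m c c₀ → Cx S ρ K c c₀ → R ≤ K →
      Lev S R b (m + 1) (2 ^ (K + 1) + c) (2 ^ K + c₀)

theorem Lev.cc {S R b m : ℕ} {c c₀ : ℤ} (h : Lev S R b m c c₀) : c = 2 * c₀ := by
  cases h with
  | base c₀ _ _ _ => rfl
  | step m c c₀ ρ K _ hx _ => rw [hx.cc]; ring

theorem Lev.nn {S R b m : ℕ} {c c₀ : ℤ} (h : Lev S R b m c c₀) : 0 ≤ c₀ := by
  cases h with
  | base c₀ h _ _ => exact h
  | step m c c₀ ρ K _ hx _ => exact add_nonneg (by positivity) hx.c00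

theorem Lev.dv {S R b m : ℕ} {c c₀ : ℤ} (h : Lev S R b m c c₀) :
    (2 : ℤ) ^ (2 * (S + 4) + 1) ∣ c₀ := by
  cases h with
  | base c₀ _ h _ => exact h
  | step m c c₀ ρ K _ hx _ =>
    exact dvd_add (pow_dvd_pow 2 (by have := hx.hK; omega)) hx.dv

theorem Lev.all {S R b m : ℕ} {c c₀ : ℤ} (h : Lev S R b m c c₀) (hA : Ad S R) :
    Vn S (b + m) c ∧ (∀ hcc : c = 2 * c₀, Hb S (b + 3 * m) c c₀ hcc) ∧
    (1 ≤ m → b + m ≤ S → I1 (b + m) c) ∧
    (2 ≤ m → b + m ≤ S → I2 (b + m) c) ∧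
    (3 ≤ m → b + m + 1 ≤ S → Rn (b + m) c) ∧
    (4 ≤ m → b + m + 1 ≤ S → Qn (b + m) c) ∧
    (1 ≤ m → b + m ≤ S → Wn (b + m) c) ∧
    (3 ≤ m → b + m + 1 ≤ S → Wn (b + m + 1) c) ∧
    (5 ≤ m → b + m + 2 ≤ S → Wn (b + m + 2) c) := by
  induction h with
  | base c₀ h0 hd hV =>
    refine ⟨hV, fun hcc => ⟨fun hb t' h α _ => hV 0 hb (by omega) α,
      fun i hi hiS t' h α _ => ⟨0, ?_⟩⟩, fun h _ => absurd h (by omega),
      fun h _ => absurd h (by omega), fun h _ => absurd h (by omega),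
      fun h _ => absurd h (by omega), fun h _ => absurd h (by omega),
      fun h _ => absurd h (by omega), fun h _ => absurd h (by omega)⟩
    rw [map_zero, hV (i + 1) (by omega) (by omega) α]
  | step m c c₀ ρ K hl hx hR ih =>
    obtain ⟨hV, hH, hI1, hI2, hRn, hQ, _, _, _⟩ := ih
    refine ⟨hx.V_step hV, fun hcc => hx.H_step hx.cc (hH hx.cc) hA hR hcc,
      fun h1 h2 => hx.I1_step hV (by omega),
      fun h1 h2 => hx.I2_step hV (hI1 (by omega) (by omega)) (by omega),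
      fun h1 h2 => hx.R_step hV (hI2 (by omega) (by omega)) (by omega),
      fun h1 h2 => hx.Q_step hV (hI2 (by omega) (by omega)) (hRn (by omega) (by omega)) (by omega),
      fun h1 h2 t' h α h3 _ => hx.I1_step hV (by omega) t' h α h3,
      fun h1 h2 => hx.W2 hV (hI2 (by omega) (by omega)) (by omega),
      fun h1 h2 => hx.W3 hV (hI1 (by omega) (by omega)) (hQ (by omega) (by omega)) (by omega)⟩

/-- below the lines with information on the third differential -/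
theorem Lev.W_all {S R b m : ℕ} {c c₀ : ℤ} (h : Lev S R b m c c₀) (hA : Ad S R) {s : ℕ}
    (hsS : s ≤ S) (hs : (1 ≤ m ∧ s ≤ b + m) ∨ (3 ≤ m ∧ s ≤ b + m + 1) ∨ (5 ≤ m ∧ s ≤ b + m + 2)) :
    Wn s c := by
  obtain ⟨hV, _, _, _, _, _, h1, h2, h3⟩ := h.all hA
  by_cases hlt : s < b + m
  · intro t' h α _ _
    exact hV s hlt hsS α
  · by_cases e0 : s = b + m
    · subst e0
      exact h1 (by omega) hsS
    · by_cases e1 : s = b + m + 1
      · subst e1
        exact h2 (by omega) hsS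
      · obtain rfl : s = b + m + 2 := by omega
        exact h3 (by omega) hsS

/-- the concrete degrees -/
theorem lev_of {S R b : ℕ} {c₀ : ℤ} (h0 : 0 ≤ c₀) (hd : (2 : ℤ) ^ (2 * (S + 4) + 1) ∣ c₀)
    (hV : Vn S b (2 * c₀)) (k : ℕ → ℕ) (hk0 : (2 : ℤ) ^ (2 * S + R + 13) * c₀ ≤ 2 ^ k 0)
    (hk1 : 2 * S + R + 13 ≤ k 0) (hk : ∀ i, k i + (2 * S + R + 14) ≤ k (i + 1)) (m : ℕ) :
    Lev S R b m (2 * c₀ + ∑ i ∈ range m, 2 ^ (k i + 1)) (c₀ + ∑ i ∈ range m, 2 ^ (k i)) ∧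
      (2 : ℤ) ^ (2 * S + R + 13) * (c₀ + ∑ i ∈ range m, 2 ^ (k i)) ≤ 2 ^ (k m) ∧
      2 * S + R + 13 ≤ k m := by
  induction m with
  | zero =>
    simp only [range_zero, sum_empty, add_zero]
    exact ⟨Lev.base c₀ h0 hd hV, hk0, hk1⟩
  | succ m ih =>
    obtain ⟨h1, h2, h3⟩ := ih
    set e := c₀ + ∑ i ∈ range m, 2 ^ (k i) with he
    have he0 : 0 ≤ e := h1.nn
    have hcc := h1.cc
    obtain ⟨r, hr⟩ : ∃ r, k m = (2 * S + R + 13) + r := ⟨k m - (2 * S + R + 13), by omega⟩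
    have hle : e ≤ 2 ^ r := by
      have h4 : (2 : ℤ) ^ (2 * S + R + 13) * e ≤ 2 ^ (2 * S + R + 13) * 2 ^ r := by
        rw [← pow_add, ← hr]
        exact h2
      exact le_of_mul_le_mul_left h4 (by positivity)
    have hx : Cx S (r + 3) (k m) (2 * c₀ + ∑ i ∈ range m, 2 ^ (k i + 1)) e := by
      refine ⟨he0, hcc, ?_, by omega, h1.dv⟩
      rw [hcc, pow_add]
      have : (0 : ℤ) < 2 ^ r := by positivity
      linarith
    refine ⟨?_, ?_, ?_⟩
    · have h5 := Lev.step (R := R) m _ _ (r + 3) (k m) h1 hx (by omega)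
      have e1 : (2 : ℤ) ^ (k m + 1) + (2 * c₀ + ∑ i ∈ range m, 2 ^ (k i + 1))
          = 2 * c₀ + ∑ i ∈ range (m + 1), 2 ^ (k i + 1) := by
        rw [sum_range_succ]; ring
      have e2 : (2 : ℤ) ^ (k m) + e = c₀ + ∑ i ∈ range (m + 1), 2 ^ (k i) := by
        rw [sum_range_succ, he]; ring
      rwa [e1, e2] at h5
    · rw [sum_range_succ, ← add_assoc, ← he]
      have h6 := hk m
      have h7 : e ≤ 2 ^ (k m) := le_trans hle (pow_le_pow_right₀ (by norm_num) (by omega))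
      calc (2 : ℤ) ^ (2 * S + R + 13) * (e + 2 ^ (k m))
          ≤ 2 ^ (2 * S + R + 13) * 2 ^ (k m + 1) := by
            refine mul_le_mul_of_nonneg_left ?_ (by positivity)
            rw [pow_succ]
            linarith
        _ = 2 ^ (2 * S + R + 13 + (k m + 1)) := (pow_add _ _ _).symm
        _ ≤ 2 ^ (k (m + 1)) := pow_le_pow_right₀ (by norm_num) (by omega)
    · have := hk m
      omega

end Pool.Agent.H749.GS
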