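import Pool.Agent.H749.GS.Pd

/-!
# The first two lines in the degrees `2 ^ K`
-/

set_option autoImplicit false
set_option linter.unusedSectionVars false

namespace Pool.Agent.H749.GS

open Finset MvPolynomial Pool.Agent.H749.GK.St Pool.Agent.W624.Stz

theorem dsq (s : ℕ) (z : P) : d s (z ^ 2) = (d s z) ^ 2 := d_pow s 1 z

theorem sq_inj {a b : P} (h : a ^ 2 = b ^ 2) : a = b := by
  have h1 : (a + b) ^ 2 = 0 := by
    have h2 := add_pow0 a b 1
    rw [pow_one] at h2
    rw [h2, h]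
    exact GS.ch2 _
  have h3 : a + b = 0 := by
    rw [pow_eq_zero_iff (by norm_num)] at h1
    exact h1
  have h4 := GS.ch2 b
  linear_combination h3 - h4

theorem Z_root {s : ℕ} {t : ℤ} {z : P} (hz : z ∈ C s t) (h : d s (z ^ 2) = 0) : z ∈ Z s t := by
  refine ⟨hz, LinearMap.mem_ker.mpr ?_⟩
  rw [dsq, pow_eq_zero_iff (by norm_num)] at h
  exact h

theorem zt_C (m : ℕ) : zt m ∈ C 1 (2 ^ m) := by
  have h0 : (X (0, 0) : P) ∈ Sup 1 := X_mem_supported.mpr (show (0 : ℕ) < 1 by omega)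
  constructor
  · exact Subalgebra.pow_mem _ h0 _
  · have h := (isWeightedHomogeneous_X (ZMod 2) wt (0, 0)).pow (2 ^ m)
    have h2 : (2 ^ m : ℕ) • wt (0, 0) = 2 ^ m := by
      simp only [wt, nsmul_eq_mul]
      push_cast
      ring
    rw [h2] at h
    exact h

theorem d1_zt (m : ℕ) : d 1 (zt m) = 0 := by
  have h := d_zt 0 m 1
  have h1 : d 0 (1 : P) = 0 := by
    rw [d_apply, sum_range_succ, sum_range_one, map_one, map_one]
    exact GS.ch2 1
  rw [h1, map_zero, mul_zero, map_one, mul_one, zero_add] at h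
  exact h

theorem zt_Z (m : ℕ) : zt m ∈ Z 1 (2 ^ m) := ⟨zt_C m, LinearMap.mem_ker.mpr (d1_zt m)⟩

/-- the product of a primitive element with a cocycle -/
theorem ztmul_Z {s m : ℕ} {t : ℤ} {x : P} (hx : x ∈ Z s t) :
    zt m * shift 1 x ∈ Z (s + 1) (2 ^ m + t) := by
  refine ⟨?_, LinearMap.mem_ker.mpr ?_⟩
  · have := mul_C (zt_C m) hx.1
    rwa [add_comm 1 s] at this
  · rw [d_zt, LinearMap.mem_ker.mp hx.2, map_zero, mul_zero]

/-- `h_m²` -/
noncomputable def zz2 (m : ℕ) : P := zt m * shift 1 (zt m)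

theorem zz2_Z (m : ℕ) : zz2 m ∈ Z 2 (2 ^ (m + 1)) := by
  have := ztmul_Z (m := m) (zt_Z m)
  have e : (2 : ℤ) ^ m + 2 ^ m = 2 ^ (m + 1) := by ring
  rw [e] at this
  exact this

theorem zz2_sq (m : ℕ) : zz2 m ^ 2 = zz2 (m + 1) := by
  rw [zz2, zz2, mul_pow, ← map_pow, pow_two, zt_sq]

theorem wt_odd {K k : ℕ} (hK : 1 ≤ K) : ¬ (2 : ℤ) ∣ 2 ^ K - wt (0, k) := by
  obtain ⟨n, rfl⟩ : ∃ n, K = n + 1 := ⟨K - 1, by omega⟩
  simp only [wt]
  rw [pow_succ, pow_succ]
  omega

theorem C1_one {f : P} (hf : f ∈ C 1 1) : ∃ r : ZMod 2, f = MvPolynomial.C r * X (0, 0) := by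
  have h1 := pd_C (0, 0) hf
  rw [show (1 : ℤ) - wt (0, 0) = 0 by simp [wt]] at h1
  obtain ⟨r, hr⟩ := C_deg0 h1
  refine ⟨r, ?_⟩
  have hX : (MvPolynomial.C r * X (0, 0) : P) ∈ C 1 1 := by
    rw [← smul_eq_C_mul]
    have h0 : zt 0 = X (0, 0) := by rw [zt, pow_zero, pow_one]
    have := zt_C 0
    rw [h0, pow_zero] at this
    exact Submodule.smul_mem _ _ this
  have h2 : f + MvPolynomial.C r * X (0, 0) = 0 := by
    refine zero_of_pd_C (Submodule.add_mem _ hf hX) (by norm_num) ?_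
    rintro ⟨a, k⟩ ha
    have ha : a < 1 := ha
    obtain rfl : a = 0 := by omega
    rw [map_add, pderiv_C_mul, pd_X]
    cases k with
    | zero =>
      rw [if_pos rfl, mul_one, hr]
      exact GS.ch2 _
    | succ k =>
      rw [if_neg (by simp), mul_zero, add_zero]
      refine C_neg ?_ (pd_C (0, k + 1) hf)
      simp only [wt]
      have : (2 : ℤ) ^ 2 ≤ 2 ^ (k + 1 + 1) := pow_le_pow_right₀ (by norm_num) (by omega)
      linarith
  have h3 := GS.ch2 (MvPolynomial.C r * X (0, 0) : P)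
  linear_combination h2 - h3

/-- the first line -/
theorem Z1_pow (K : ℕ) : ∀ {x : P}, x ∈ Z 1 (2 ^ K) → ∃ r : ZMod 2, x = MvPolynomial.C r * zt K := by
  induction K with
  | zero =>
    intro x hx
    have hx1 := hx.1
    rw [pow_zero] at hx1
    obtain ⟨r, hr⟩ := C1_one hx1
    refine ⟨r, ?_⟩
    rw [hr, zt, pow_zero, pow_one]
  | succ K ih =>
    intro x hx
    have h1 : ∀ v : ℕ × ℕ, v.1 < 1 → pderiv v x = 0 := by
      rintro ⟨a, k⟩ ha
      have ha : a < 1 := ha
      obtain rfl : a = 0 := by omega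
      have h2 := pd_d 1 k x
      rw [LinearMap.mem_ker.mp hx.2, map_zero] at h2
      refine zero_of (pd_C (0, k) hx.1) ?_ h2.symm
      intro h0
      apply wt_odd (K := K + 1) (k := k) (by omega)
      rw [h0]
      exact dvd_zero _
    have hx1 := hx.1
    rw [pow_succ'] at hx1
    obtain ⟨z, hz, hz2⟩ := sq_of_pd_C hx1 h1
    obtain ⟨r, hr⟩ := ih (Z_root hz (by rw [hz2]; exact LinearMap.mem_ker.mp hx.2))
    refine ⟨r, ?_⟩
    have hrr : ∀ r : ZMod 2, r ^ 2 = r := by decide
    rw [← hz2, hr, mul_pow, ← map_pow, hrr, pow_two (zt K), zt_sq]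

/-- derivatives of cocycles of degree two -/
theorem pd_Z2 {t : ℤ} {x : P} (hx : x ∈ Z 2 t) (k : ℕ) :
    pderiv (0, k) x = d 1 (e0 (pderiv (0, k) x)) + shift 1 (e0 (pderiv (0, k) x)) := by
  have h := pd_d 2 k x
  rw [LinearMap.mem_ker.mp hx.2, map_zero] at h
  have h1 := congrArg e0 h
  have h2 : e0 (d 2 (pderiv (0, k) x))
      = d 1 (e0 (pderiv (0, k) x)) + shift 1 (e0 (pderiv (0, k) x)) := e0_d 1 _
  rw [map_zero, map_add, e0_shift, h2] at h1
  have h3 := GS.ch2 (pderiv (0, k) x)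
  linear_combination h1 + h3

/-- polynomials without derivatives in the first slot -/
theorem pd_face1 {f : P} (hf : ∀ n, pderiv (0, n) f = 0) (k : ℕ) :
    pderiv (1, k) (face 1 f) = 0 := by
  obtain ⟨z, hz⟩ := sq_root (fun v : ℕ × ℕ => v.1 = 0) f (by
    rintro ⟨a, n⟩ ha
    have ha : a = 0 := ha
    rw [ha]
    exact hf n)
  have key : ∀ u, pderiv (1, k) (((face 1).comp
      (aeval fun v : ℕ × ℕ => if v.1 = 0 then (X v : P) ^ 2 else X v)) (X u)) = 0 := by
    rintro ⟨a, n⟩
    rw [AlgHom.comp_apply, aeval_X]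
    simp only
    split_ifs with h
    · rw [map_pow]
      exact pd_pow2 (1, k) _ 0
    · rw [face, aeval_X]
      simp only
      rw [if_neg (by omega), if_neg (by omega), pd_X, if_neg (by rw [Prod.mk.injEq]; omega)]
  have h1 := pd_hom0 _ (1, k) key z
  rw [AlgHom.comp_apply, hz] at h1
  exact h1

/-- evaluation of the second slot at the unit -/
noncomputable def e1 : P →ₐ[ZMod 2] P :=
  aeval fun v : ℕ × ℕ => if v.1 = 0 then X v else if v.1 = 1 then 0 else X (v.1 - 1, v.2)

theorem e1_X (a n : ℕ) :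
    e1 (X (a, n)) = if a = 0 then X (a, n) else if a = 1 then 0 else X (a - 1, n) := by
  rw [e1, aeval_X]

theorem e1_xi0 (n : ℕ) : e1 (Pool.Agent.H749.GK.St.ξ 0 n) = Pool.Agent.H749.GK.St.ξ 0 n := by
  cases n with
  | zero => exact map_one _
  | succ n => exact e1_X 0 n

theorem e1_xi1 (n : ℕ) : e1 (Pool.Agent.H749.GK.St.ξ 1 n) = if n = 0 then 1 else 0 := by
  cases n with
  | zero => exact map_one _
  | succ n => exact e1_X 1 n

theorem e1_xi2 (a n : ℕ) :
    e1 (Pool.Agent.H749.GK.St.ξ (a + 2) n) = Pool.Agent.H749.GK.St.ξ (a + 1) n := by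
  cases n with
  | zero => exact map_one _
  | succ n =>
    refine (e1_X (a + 2) n).trans ?_
    rw [if_neg (by omega), if_neg (by omega)]
    rfl

theorem e1_cop0 (n : ℕ) : e1 (coprod 0 n) = Pool.Agent.H749.GK.St.ξ 0 n := by
  rw [coprod, map_sum, sum_eq_single 0]
  · rw [map_mul, map_pow, e1_xi0, e1_xi1, if_pos rfl, mul_one, pow_zero, pow_one, Nat.sub_zero]
  · intro i _ hne
    rw [map_mul, e1_xi1, if_neg hne, mul_zero]
  · intro h
    exact absurd (mem_range.mpr (by omega)) h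

theorem e1_cop1 (n : ℕ) : e1 (coprod 1 n) = Pool.Agent.H749.GK.St.ξ 1 n := by
  rw [coprod, map_sum, sum_eq_single n]
  · rw [map_mul, map_pow, e1_xi1, Nat.sub_self, if_pos rfl, one_pow, one_mul, e1_xi2 0]
  · intro i hi hne
    rw [mem_range] at hi
    rw [map_mul, map_pow, e1_xi1, if_neg (by omega), zero_pow (by positivity), zero_mul]
  · intro h
    exact absurd (mem_range.mpr (by omega)) h

theorem e1_face1 (f : P) : e1 (face 1 f) = f := by
  have : e1.comp (face 1) = AlgHom.id (ZMod 2) P := by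
    apply algHom_ext
    rintro ⟨a, n⟩
    rw [AlgHom.comp_apply, face, aeval_X, if_neg (by simp)]
    cases a with
    | zero => rw [if_pos rfl, e1_cop0]; rfl
    | succ a =>
      rw [if_neg (by simp)]
      refine (e1_X (a + 2) n).trans ?_
      rw [if_neg (by omega), if_neg (by omega)]
      rfl
  exact DFunLike.congr_fun this f

theorem e1_face2 (f : P) : e1 (face 2 f) = f := by
  have : e1.comp (face 2) = AlgHom.id (ZMod 2) P := by
    apply algHom_ext
    rintro ⟨a, n⟩
    rw [AlgHom.comp_apply, face, aeval_X]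
    simp only
    rcases a with _ | _ | a
    · rw [if_pos (by omega), e1_X, if_pos rfl]
      rfl
    · rw [if_neg (by omega), if_pos (by omega), e1_cop1]
      rfl
    · rw [if_neg (by omega), if_neg (by omega)]
      refine (e1_X (a + 3) n).trans ?_
      rw [if_neg (by omega), if_neg (by omega)]
      rfl
  exact DFunLike.congr_fun this f

theorem e1_Sup {f : P} (hf : f ∈ Sup 2) : e1 f ∈ Sup 1 := by
  refine aeval_Sup (s := 2) ?_ hf
  rintro ⟨a, n⟩ ha
  have ha : a < 2 := ha
  simp only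
  split_ifs with h1 h2
  · exact X_mem_supported.mpr (show a < 1 by omega)
  · exact Subalgebra.zero_mem _
  · omega

/-- derivatives in the second slot -/
theorem pd_second {t : ℤ} {x : P} (hx : x ∈ Z 2 t) (h0 : ∀ n, pderiv (0, n) x = 0) (k : ℕ) :
    pderiv (1, k) x = e1 (pderiv (1, k) x) := by
  have h := congrArg (pderiv (1, k)) (LinearMap.mem_ker.mp hx.2)
  rw [d_apply, map_zero, map_sum, sum_range_succ, sum_range_succ, sum_range_succ, sum_range_one,
    face_zero, pd_shift1' 0 k, h0, map_zero, zero_add, pd_face1 h0, zero_add] at h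
  have h2 := pd_face 1 k 0 x
  have h3 := pd_face 1 k 1 x
  have hS := (pd_C (1, k) hx.1).1
  rw [show 1 + 0 + 1 = 2 from rfl] at h2
  rw [show 1 + 1 + 1 = 3 from rfl, face_ge hS (by omega)] at h3
  rw [h2, h3] at h
  have h4 := congrArg e1 h
  rw [map_add, e1_face2, map_zero] at h4
  have h5 := GS.ch2 (e1 (pderiv (1, k) x))
  linear_combination h4 - h5

theorem second_zero {K : ℕ} (hK : 1 ≤ K) {x : P} (hx : x ∈ Z 2 (2 ^ K))
    (h0 : ∀ n, pderiv (0, n) x = 0) (k : ℕ) : pderiv (1, k) x = 0 := by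
  have h1 := pd_second hx h0 k
  have h2 : pderiv (1, k) x ∈ C 1 (2 ^ K - wt (1, k)) := by
    refine ⟨?_, (pd_C (1, k) hx.1).2⟩
    rw [h1]
    exact e1_Sup (pd_C (1, k) hx.1).1
  refine zero_of_pd_C h2 ?_ ?_
  · exact wt_odd (k := k) hK
  · rintro ⟨a, n⟩ ha
    have ha : a < 1 := ha
    obtain rfl : a = 0 := by omega
    rw [pd_comm, h0, map_zero]

/-- killing the derivatives from the top -/
theorem kill {K : ℕ} (hK : 2 ≤ K) (m : ℕ) : ∀ {x : P}, x ∈ Z 2 (2 ^ K) →
    ∃ w ∈ C 1 (2 ^ K), ∀ k, 1 ≤ k → K ≤ k + m → pderiv (0, k) (x + d 1 w) = 0 := by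
  induction m with
  | zero =>
    intro x hx
    refine ⟨0, Submodule.zero_mem _, fun k _ hk => ?_⟩
    rw [map_zero, add_zero]
    refine C_neg ?_ (pd_C (0, k) hx.1)
    simp only [wt]
    have h1 : (2 : ℤ) ^ K ≤ 2 ^ k := pow_le_pow_right₀ (by norm_num) (by omega)
    have h2 : (2 : ℤ) ^ 1 ≤ 2 ^ k := pow_le_pow_right₀ (by norm_num) (by omega)
    rw [pow_succ]
    linarith
  | succ m ih =>
    intro x hx
    obtain ⟨w, hw, hk⟩ := ih hx
    by_cases hm : K ≤ m + 1
    · exact ⟨w, hw, fun k h1 _ => hk k h1 (by omega)⟩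
    · obtain ⟨k, rfl⟩ : ∃ k, K = k + 1 + m + 1 := ⟨K - m - 2, by omega⟩
      set K := k + 1 + m + 1 with hKd
      set x' := x + d 1 w with hx'
      have hx'Z : x' ∈ Z 2 (2 ^ K) :=
        Submodule.add_mem _ hx ⟨d_C hw, LinearMap.mem_ker.mpr (d_d hw.1)⟩
      set g := e0 (pderiv (0, k + 1) x') with hg
      have hgC : g ∈ C 1 (2 ^ K - wt (0, k + 1)) := e0_C (pd_C (0, k + 1) hx'Z.1)
      have hy := pd_Z2 hx'Z (k + 1)
      rw [← hg] at hy
      have hgn : ∀ n, k + 1 ≤ n → pderiv (0, n) g = 0 := by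
        intro n hn
        have h1 : pderiv (0, n) (pderiv (0, k + 1) x') = 0 := by
          rcases Nat.eq_or_lt_of_le hn with h | h
          · rw [← h]; exact pd_sq _ _
          · rw [pd_comm, hk n (by omega) (by omega), map_zero]
        rw [hy, map_add, pd_d, pd_shift1, add_zero] at h1
        refine zero_of (pd_C (0, n) hgC) ?_ h1
        simp only [wt]
        intro h0
        have e1 : (2 : ℤ) ^ K = 4 * 2 ^ (K - 2) := by
          rw [show (4 : ℤ) = 2 ^ 2 by norm_num, ← pow_add]; congr 1; omega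
        have e2 : (2 : ℤ) ^ (k + 1 + 1) = 4 * 2 ^ k := by rw [pow_succ, pow_succ]; ring
        have e3 : (2 : ℤ) ^ (n + 1) = 4 * 2 ^ (n - 1) := by
          rw [show (4 : ℤ) = 2 ^ 2 by norm_num, ← pow_add]; congr 1; omega
        rw [e1, e2, e3] at h0
        omega
      set w' := X (0, k + 1) * g with hw'
      have hw'C : w' ∈ C 1 (2 ^ K) := by
        have h1 : (X (0, k + 1) : P) ∈ C 1 (wt (0, k + 1)) :=
          ⟨X_mem_supported.mpr (show (0 : ℕ) < 1 by omega),
            isWeightedHomogeneous_X (ZMod 2) wt (0, k + 1)⟩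
        have h2 := mulC h1 hgC
        rwa [add_sub_cancel] at h2
      refine ⟨w + w', Submodule.add_mem _ hw hw'C, fun n h1 hn => ?_⟩
      have h2 : x + d 1 (w + w') = x' + d 1 w' := by rw [map_add, hx', add_assoc]
      rw [h2, map_add, pd_d]
      rcases Nat.lt_or_ge (k + 1) n with h3 | h3
      · rw [hk n h1 (by omega), hw', pderiv_mul, hgn n (by omega), pd_X,
          if_neg (by rw [Prod.mk.injEq]; omega), zero_mul, mul_zero, add_zero, map_zero, map_zero,
          add_zero, add_zero]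
      · obtain rfl : n = k + 1 := by omega
        rw [hw', pderiv_mul, hgn _ le_rfl, pd_X, if_pos rfl, one_mul, mul_zero, add_zero, ← hy]
        exact GS.ch2 _

/-- the obstruction vanishes -/
theorem first_zero {K : ℕ} (hK : 2 ≤ K) {x : P} (hx : x ∈ Z 2 (2 ^ K))
    (h0 : ∀ n, 1 ≤ n → pderiv (0, n) x = 0) : pderiv (0, 0) x = 0 := by
  obtain ⟨k, rfl⟩ : ∃ k, K = k + 2 := ⟨K - 2, by omega⟩
  set g := e0 (pderiv (0, 0) x) with hg
  have hgC : g ∈ C 1 (2 ^ (k + 2) - wt (0, 0)) := e0_C (pd_C (0, 0) hx.1)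
  have hy := pd_Z2 hx 0
  rw [← hg] at hy
  have hgd : ∀ n, d 1 (pderiv (0, n) g) + shift 1 (pderiv (0, n) g) = 0 := by
    intro n
    have h1 : pderiv (0, n) (pderiv (0, 0) x) = 0 := by
      cases n with
      | zero => exact pd_sq _ _
      | succ n => rw [pd_comm, h0 _ (by omega), map_zero]
    rw [hy, map_add, pd_d, pd_shift1, add_zero] at h1
    exact h1
  have hgn : ∀ n, n ≠ k + 1 → pderiv (0, n) g = 0 := by
    intro n hn
    refine zero_of (pd_C (0, n) hgC) ?_ (hgd n)
    simp only [wt]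
    intro h1
    apply hn
    have h2 : (2 : ℤ) ^ (n + 1) = 2 ^ (k + 2) := by
      have h3 : (2 : ℤ) ^ (0 + 1) = 2 := by norm_num
      rw [h3] at h1
      linarith
    have h3 : (2 : ℕ) ^ (n + 1) = 2 ^ (k + 2) := by exact_mod_cast h2
    have := Nat.pow_right_injective (le_refl 2) h3
    omega
  obtain ⟨r, hr⟩ := const_of (pd_C (0, k + 1) hgC) (hgd (k + 1))
  have hgr : g = MvPolynomial.C r * X (0, k + 1) := by
    have hX : (MvPolynomial.C r * X (0, k + 1) : P) ∈ C 1 (2 ^ (k + 2) - wt (0, 0)) := by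
      rw [← smul_eq_C_mul]
      refine Submodule.smul_mem _ _ ⟨X_mem_supported.mpr (show (0 : ℕ) < 1 by omega), ?_⟩
      have h1 := isWeightedHomogeneous_X (ZMod 2) wt (0, k + 1)
      have h2 : wt (0, k + 1) = 2 ^ (k + 2) - wt (0, 0) := by
        simp only [wt]
        norm_num
      rw [h2] at h1
      exact h1
    have h2 : g + MvPolynomial.C r * X (0, k + 1) = 0 := by
      refine zero_of_pd_C (Submodule.add_mem _ hgC hX) (wt_odd (by omega)) ?_
      rintro ⟨a, n⟩ ha
      have ha : a < 1 := ha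
      obtain rfl : a = 0 := by omega
      rw [map_add, pderiv_C_mul, pd_X]
      by_cases hn : n = k + 1
      · subst hn
        rw [if_pos rfl, mul_one, hr]
        exact GS.ch2 _
      · rw [if_neg (by rw [Prod.mk.injEq]; omega), mul_zero, add_zero, hgn n hn]
    have h3 := GS.ch2 (MvPolynomial.C r * X (0, k + 1) : P)
    linear_combination h2 - h3
  -- the equation for the derivative with respect to the first variable of the second slot
  set x1 := pderiv (0, 0) x with hx1
  set q := pderiv (1, 0) x with hq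
  have hf1 : pderiv (1, 0) (face 1 x) = face 1 x1 := by
    have h1 : ∀ n, pderiv (0, n) x1 = 0 := by
      intro n
      cases n with
      | zero => exact pd_sq _ _
      | succ n => rw [hx1, pd_comm, h0 _ (by omega), map_zero]
    have h2 : ∀ n, pderiv (0, n) (x + X (0, 0) * x1) = 0 := by
      intro n
      rw [map_add, pderiv_mul, h1, mul_zero, add_zero, pd_X]
      cases n with
      | zero =>
        rw [if_pos rfl, one_mul]
        exact GS.ch2 _
      | succ n => rw [if_neg (by simp), zero_mul, add_zero, h0 _ (by omega)]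
    have h3 : face 1 x = face 1 (x + X (0, 0) * x1) + face 1 (X (0, 0)) * face 1 x1 := by
      rw [← map_mul, ← map_add, add_assoc, GS.ch2, add_zero]
    have h4 : face 1 (X (0, 0)) = (X (0, 0) + X (1, 0) : P) := by
      have := face1_zt 0
      rw [zt, pow_zero, pow_one, shift_X] at this
      exact this
    rw [h3, map_add, pd_face1 h2, pderiv_mul, pd_face1 h1, h4, map_add, pd_X, pd_X,
      if_neg (by simp), if_pos rfl, zero_add, zero_add, mul_zero, add_zero, one_mul]
  have h := congrArg (pderiv (1, 0)) (LinearMap.mem_ker.mp hx.2)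
  have hS := (pd_C (1, 0) hx.1).1
  have h2 := pd_face 1 0 0 x
  have h3 := pd_face 1 0 1 x
  rw [show 1 + 0 + 1 = 2 from rfl, ← hq] at h2
  rw [show 1 + 1 + 1 = 3 from rfl, face_ge hS (by omega), ← hq] at h3
  rw [d_apply, map_zero, map_sum, sum_range_succ, sum_range_succ, sum_range_succ, sum_range_one,
    face_zero, pd_shift1' 0 0, ← hx1, hf1, h2, h3] at h
  have h4 := congrArg e1 h
  have hx1f : x1 = MvPolynomial.C r * (coprod 0 (k + 2) + X (0, k + 1)) := by
    have h7 : face (1 + 1) g = g := face_ge hgC.1 (by norm_num)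
    rw [hy, d_apply, sum_range_succ, sum_range_succ, sum_range_one, face_zero, h7]
    have h5 : face 1 g = MvPolynomial.C r * coprod 0 (k + 2) := by
      rw [hgr, map_mul, algHom_C, face, aeval_X]
      simp only
      rw [if_neg (by omega), if_pos trivial]
      rfl
    have h6 := GS.ch2 (shift 1 g)
    rw [h5]
    nth_rewrite 2 [hgr]
    linear_combination h6
  have he1 : e1 (shift 1 x1) = MvPolynomial.C r * X (1, k + 1) := by
    rw [hx1f, map_mul, map_mul, map_add, map_add, shift_X]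
    have h5 : shift 1 (coprod 0 (k + 2)) = coprod 1 (k + 2) := by
      rw [coprod, coprod, map_sum]
      refine sum_congr rfl fun i _ => ?_
      have hx : ∀ b m, shift 1 (Pool.Agent.H749.GK.St.ξ b m)
          = Pool.Agent.H749.GK.St.ξ (1 + b) m := by
        intro b m
        cases m with
        | zero => exact map_one _
        | succ m => exact shift_X 1 (b, m)
      rw [map_mul, map_pow, hx, hx]
    have h6 : e1 (X (1, k + 1)) = 0 := by rw [e1_X, if_neg (by omega), if_pos rfl]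
    have h7 : e1 (shift 1 (MvPolynomial.C r)) = MvPolynomial.C r := by
      rw [algHom_C]
      exact algHom_C _ _
    rw [h5, e1_cop1, h7]
    change MvPolynomial.C r * (X (1, k + 1) + e1 (X (1, k + 1))) = _
    rw [h6, add_zero]
  rw [map_add, map_add, map_add, map_zero, he1, e1_face1, e1_face2] at h4
  have h5 := congrArg (pderiv (1, 0)) h4
  rw [map_add, map_add, map_add, map_zero, pderiv_C_mul, pd_X, if_neg (by simp), mul_zero,
    zero_add, hq, pd_sq, add_zero, pd_ge (s := 1) le_rfl (e1_Sup hS), add_zero, hx1f,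
    pderiv_C_mul, map_add, pd_X, if_neg (by simp), add_zero, pd_cop1, if_pos (by omega)] at h5
  have h6 : (MvPolynomial.C r : P) = 0 := by
    rcases mul_eq_zero.mp h5 with h6 | h6
    · exact h6
    · exfalso
      have h7 : Pool.Agent.H749.GK.St.ξ 0 (k + 2 - (0 + 1)) = (X (0, k) : P) := rfl
      rw [h7] at h6
      exact X_ne_zero _ (pow_eq_zero_iff (by positivity) |>.mp h6)
  rw [hx1f, h6, zero_mul]

/-- a step on the second line -/
theorem low2 {K : ℕ} {x : P} (hx : x ∈ Z 2 (2 ^ (K + 2))) :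
    ∃ w ∈ C 1 (2 ^ (K + 2)), ∃ z ∈ Z 2 (2 ^ (K + 1)), x + d 1 w = z ^ 2 := by
  obtain ⟨w, hw, hk⟩ := kill (K := K + 2) (by omega) (K + 2) hx
  have hZ : x + d 1 w ∈ Z 2 (2 ^ (K + 2)) :=
    Submodule.add_mem _ hx ⟨d_C hw, LinearMap.mem_ker.mpr (d_d hw.1)⟩
  have h1 : ∀ n, 1 ≤ n → pderiv (0, n) (x + d 1 w) = 0 := fun n hn => hk n hn (by omega)
  have h2 := first_zero (by omega) hZ h1
  have h3 : ∀ n, pderiv (0, n) (x + d 1 w) = 0 := by
    intro n
    cases n with
    | zero => exact h2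
    | succ n => exact h1 _ (by omega)
  have h4 := second_zero (by omega) hZ h3
  have hC := hZ.1
  rw [pow_succ'] at hC
  obtain ⟨z, hz, hz2⟩ := sq_of_pd_C hC (by
    rintro ⟨a, n⟩ ha
    have ha : a < 2 := ha
    rcases a with _ | _ | a
    · exact h3 n
    · exact h4 n
    · omega)
  exact ⟨w, hw, z, Z_root hz (by rw [hz2]; exact LinearMap.mem_ker.mp hZ.2), hz2.symm⟩

theorem C2_one {f : P} (hf : f ∈ C 2 1) :
    ∃ r r' : ZMod 2, f = MvPolynomial.C r * X (0, 0) + MvPolynomial.C r' * X (1, 0) := by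
  have h1 := pd_C (0, 0) hf
  have h1' := pd_C (1, 0) hf
  rw [show (1 : ℤ) - wt (0, 0) = 0 by simp [wt]] at h1
  rw [show (1 : ℤ) - wt (1, 0) = 0 by simp [wt]] at h1'
  obtain ⟨r, hr⟩ := C_deg0 h1
  obtain ⟨r', hr'⟩ := C_deg0 h1'
  refine ⟨r, r', ?_⟩
  have hX : ∀ a < 2, ∀ r : ZMod 2, (MvPolynomial.C r * X (a, 0) : P) ∈ C 2 1 := by
    intro a ha r
    rw [← smul_eq_C_mul]
    refine Submodule.smul_mem _ _ ⟨X_mem_supported.mpr ha, ?_⟩
    have h1 := isWeightedHomogeneous_X (ZMod 2) wt (a, 0)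
    have h2 : wt (a, 0) = 1 := by simp [wt]
    rw [h2] at h1
    exact h1
  have h2 : f + (MvPolynomial.C r * X (0, 0) + MvPolynomial.C r' * X (1, 0)) = 0 := by
    refine zero_of_pd_C (Submodule.add_mem _ hf (Submodule.add_mem _ (hX 0 (by omega) r)
      (hX 1 (by omega) r'))) (by norm_num) ?_
    rintro ⟨a, k⟩ ha
    have ha : a < 2 := ha
    rw [map_add, map_add, pderiv_C_mul, pderiv_C_mul, pd_X, pd_X]
    cases k with
    | zero =>
      rcases a with _ | _ | a
      · rw [if_pos rfl, if_neg (by simp), mul_one, mul_zero, add_zero, hr]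
        exact GS.ch2 _
      · rw [zero_add, if_neg (by simp), if_pos rfl, mul_one, mul_zero, zero_add, hr']
        exact GS.ch2 _
      · omega
    | succ k =>
      rw [if_neg (by simp), if_neg (by simp), mul_zero, mul_zero, add_zero, add_zero]
      refine C_neg ?_ (pd_C (a, k + 1) hf)
      simp only [wt]
      have : (2 : ℤ) ^ 2 ≤ 2 ^ (k + 1 + 1) := pow_le_pow_right₀ (by norm_num) (by omega)
      linarith
  have h3 := GS.ch2 (MvPolynomial.C r * X (0, 0) + MvPolynomial.C r' * X (1, 0) : P)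
  linear_combination h2 - h3

theorem Z2_one {f : P} (hf : f ∈ Z 2 1) : f = 0 := by
  obtain ⟨r, r', h⟩ := C2_one hf.1
  have hd := LinearMap.mem_ker.mp hf.2
  have f0 : face 0 f = MvPolynomial.C r * X (1, 0) + MvPolynomial.C r' * X (2, 0) := by
    rw [h, face_zero, map_add, map_mul, map_mul, algHom_C, algHom_C, shift_X, shift_X]
    rfl
  have c0 : coprod 0 1 = (X (0, 0) + X (1, 0) : P) := by
    rw [coprod, sum_range_succ, sum_range_one]
    simp [Pool.Agent.H749.GK.St.ξ]
  have c1 : coprod 1 1 = (X (1, 0) + X (2, 0) : P) := by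
    rw [coprod, sum_range_succ, sum_range_one]
    simp [Pool.Agent.H749.GK.St.ξ]
  have f1 : face 1 f = MvPolynomial.C r * (X (0, 0) + X (1, 0)) + MvPolynomial.C r' * X (2, 0) := by
    rw [h, map_add, map_mul, map_mul, algHom_C, algHom_C, face, aeval_X, aeval_X]
    simp only
    rw [if_neg (by omega), if_pos trivial, if_neg (by omega), if_neg (by omega), zero_add, c0]
    rfl
  have f2 : face 2 f = MvPolynomial.C r * X (0, 0) + MvPolynomial.C r' * (X (1, 0) + X (2, 0)) := by
    rw [h, map_add, map_mul, map_mul, algHom_C, algHom_C, face, aeval_X, aeval_X]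
    simp only
    rw [if_pos (by omega), if_neg (by omega), if_pos (by first | trivial | omega), zero_add, c1]
    rfl
  have f3 : face 3 f = f := face_ge hf.1.1 (by norm_num)
  rw [d_apply, sum_range_succ, sum_range_succ, sum_range_succ, sum_range_one, f0, f1, f2, f3, h] at hd
  have e1 := congrArg (pderiv (0, 0)) hd
  have e2 := congrArg (pderiv (2, 0)) hd
  simp only [map_add, pderiv_C_mul, pd_X, map_zero, Prod.mk.injEq, and_true, if_true,
    mul_one] at e1 e2
  norm_num at e1 e2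
  have h3 := GS.ch2 (MvPolynomial.C r : P)
  have h4 := GS.ch2 (MvPolynomial.C r' : P)
  have e3 : (MvPolynomial.C r : P) = 0 := by linear_combination e1 - h3
  have e4 : (MvPolynomial.C r' : P) = 0 := by linear_combination e2 - h4
  rw [h, e3, e4, zero_mul, zero_mul, add_zero]

/-- the bottom of the second line -/
theorem Z2_two {x : P} (hx : x ∈ Z 2 2) : ∃ r : ZMod 2, x = MvPolynomial.C r * zz2 0 := by
  set y := pderiv (0, 0) x with hy
  have hgC : e0 y ∈ C 1 1 := by
    have h1 := e0_C (pd_C (0, 0) hx.1)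
    rwa [show (2 : ℤ) - wt (0, 0) = 1 by simp [wt]] at h1
  obtain ⟨r, hr⟩ := C1_one hgC
  have hy2 := pd_Z2 hx 0
  rw [← hy] at hy2
  have hz0 : zt 0 = X (0, 0) := by rw [zt, pow_zero, pow_one]
  have hd : d 1 (e0 y) = 0 := by
    rw [hr, ← smul_eq_C_mul, map_smul, ← hz0, d1_zt, smul_zero]
  have hy3 : y = MvPolynomial.C r * X (1, 0) := by
    rw [hy2, hd, hr, zero_add, map_mul, algHom_C, shift_X]
    rfl
  have hzz : zz2 0 = X (0, 0) * X (1, 0) := by rw [zz2, hz0, shift_X]; rfl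
  have hx' : x + MvPolynomial.C r * zz2 0 ∈ Z 2 2 := by
    refine Submodule.add_mem _ hx ?_
    rw [← smul_eq_C_mul]
    have := zz2_Z 0
    rw [zero_add, pow_one] at this
    exact Submodule.smul_mem _ _ this
  have h0 : ∀ n, pderiv (0, n) (x + MvPolynomial.C r * zz2 0) = 0 := by
    intro n
    cases n with
    | zero =>
      rw [map_add, pderiv_C_mul, hzz, pderiv_mul, pd_X, pd_X, if_pos rfl, if_neg (by simp), ← hy,
        hy3, one_mul, mul_zero, add_zero]
      exact GS.ch2 _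
    | succ n =>
      refine C_neg ?_ (pd_C (0, n + 1) hx'.1)
      simp only [wt]
      have : (2 : ℤ) ^ 2 ≤ 2 ^ (n + 1 + 1) := pow_le_pow_right₀ (by norm_num) (by omega)
      linarith
  have hx'' : x + MvPolynomial.C r * zz2 0 ∈ Z 2 (2 ^ 1) := by rw [pow_one]; exact hx'
  have h4 := second_zero le_rfl hx'' h0
  have hC : x + MvPolynomial.C r * zz2 0 ∈ C 2 (2 * 1) := by rw [mul_one]; exact hx'.1
  obtain ⟨z, hz, hz2⟩ := sq_of_pd_C hC (by
    rintro ⟨a, n⟩ ha
    have ha : a < 2 := ha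
    rcases a with _ | _ | a
    · exact h0 n
    · exact h4 n
    · omega)
  have h5 := Z2_one (Z_root hz (by rw [hz2]; exact LinearMap.mem_ker.mp hx'.2))
  rw [h5] at hz2
  refine ⟨r, ?_⟩
  have h6 := GS.ch2 (MvPolynomial.C r * zz2 0)
  linear_combination -hz2 - h6

theorem B_sq {s : ℕ} {t : ℤ} {x : P} (hx : x ∈ B s t) : x ^ 2 ∈ B s (2 * t) := by
  obtain ⟨v, hv, rfl⟩ := mem_B.mp hx
  cases s with
  | zero =>
    rw [dp, LinearMap.zero_apply]
    rw [zero_pow (by norm_num)]
    exact Submodule.zero_mem _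
  | succ s =>
    change (d s v) ^ 2 ∈ _
    rw [← dsq]
    have h := pow_C 1 hv
    rw [pow_one, pow_one] at h
    exact mem_B_of h rfl

/-- **the second line in the degrees `2 ^ (K + 1)`** -/
theorem Z2_pow (K : ℕ) : ∀ {x : P}, x ∈ Z 2 (2 ^ (K + 1)) →
    ∃ r : ZMod 2, x + MvPolynomial.C r * zz2 K ∈ B 2 (2 ^ (K + 1)) := by
  induction K with
  | zero =>
    intro x hx
    rw [zero_add, pow_one] at hx ⊢
    obtain ⟨r, hr⟩ := Z2_two hx
    refine ⟨r, ?_⟩
    rw [hr, GS.ch2]
    exact Submodule.zero_mem _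
  | succ K ih =>
    intro x hx
    obtain ⟨w, hw, z, hz, h⟩ := low2 hx
    obtain ⟨r, hr⟩ := ih hz
    refine ⟨r, ?_⟩
    have h1 := B_sq hr
    rw [← pow_succ'] at h1
    have h2 : (z + MvPolynomial.C r * zz2 K) ^ 2 = z ^ 2 + MvPolynomial.C r * zz2 (K + 1) := by
      have h3 := add_pow0 z (MvPolynomial.C r * zz2 K) 1
      rw [pow_one] at h3
      have hrr : ∀ r : ZMod 2, r ^ 2 = r := by decide
      rw [h3, mul_pow, ← map_pow, hrr, zz2_sq]
    rw [h2, ← h] at h1
    have h4 := mem_B_of hw rfl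
    have h5 := Submodule.add_mem _ h1 h4
    have h6 := GS.ch2 (d 1 w)
    have h7 : x + d 1 w + MvPolynomial.C r * zz2 (K + 1) + d 1 w
        = x + MvPolynomial.C r * zz2 (K + 1) := by linear_combination h6
    rwa [h7] at h5

/-- `h_m²` is not zero -/
theorem zz2_B (m : ℕ) : zz2 m ∉ B 2 (2 ^ (m + 1)) := by
  induction m with
  | zero =>
    intro h
    rw [zero_add, pow_one] at h
    obtain ⟨y, hy, hd⟩ := Submodule.mem_map.mp h
    have hgC : pderiv (0, 0) y ∈ C 1 1 := by
      have h1 := pd_C (0, 0) hy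
      rwa [show (2 : ℤ) - wt (0, 0) = 1 by simp [wt]] at h1
    obtain ⟨r, hr⟩ := C1_one hgC
    have hz0 : zt 0 = X (0, 0) := by rw [zt, pow_zero, pow_one]
    have h1 := pd_d 1 0 y
    have hzz : zz2 0 = X (0, 0) * X (1, 0) := by rw [zz2, hz0, shift_X]; rfl
    have hd1 : d 1 (pderiv (0, 0) y) = 0 := by
      rw [hr, ← smul_eq_C_mul, map_smul, ← hz0, d1_zt, smul_zero]
    have hs : shift 1 (MvPolynomial.C r * X (0, 0)) = MvPolynomial.C r * X (1, 0) := by
      rw [map_mul, algHom_C, shift_X]; rfl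
    rw [hd, hzz, hd1, hr, zero_add, hs, pderiv_mul, pd_X, pd_X, if_pos rfl,
      if_neg (by simp), one_mul, mul_zero, add_zero] at h1
    have h2 := congrArg (pderiv (1, 0)) h1
    rw [pderiv_C_mul, pd_X, if_pos rfl, mul_one] at h2
    have h4 := pd_sq (0, 0) y
    rw [hr, pderiv_C_mul, pd_X, if_pos rfl, mul_one, ← h2] at h4
    exact one_ne_zero h4
  | succ m ih =>
    intro h
    obtain ⟨y, hy, hd⟩ := Submodule.mem_map.mp h
    apply ih
    have h1 : ∀ v : ℕ × ℕ, v.1 < 1 → pderiv v y = 0 := by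
      rintro ⟨a, k⟩ ha
      have ha : a < 1 := ha
      obtain rfl : a = 0 := by omega
      have h2 := pd_d 1 k y
      have h3 : pderiv (0, k) (zz2 (m + 1)) = 0 := by
        rw [← zz2_sq]
        exact pd_pow2 (0, k) _ 0
      rw [hd, h3] at h2
      refine zero_of (pd_C (0, k) hy) ?_ h2.symm
      intro h0
      apply wt_odd (K := m + 1 + 1) (k := k) (by omega)
      rw [h0]
      exact dvd_zero _
    rw [pow_succ'] at hy
    obtain ⟨z, hz, hz2⟩ := sq_of_pd_C hy h1
    refine mem_B_of hz ?_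
    apply sq_inj
    rw [← dsq, hz2, hd, zz2_sq]

/-- `h_K` is not zero -/
theorem zt_B (K : ℕ) : zt K ∉ B 1 (2 ^ K) := by
  intro h
  obtain ⟨y, hy, hd⟩ := Submodule.mem_map.mp h
  rw [d_zero hy, zt] at hd
  exact X_ne_zero _ (pow_eq_zero_iff (by positivity) |>.mp hd.symm)

end Pool.Agent.H749.GS
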