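import Pool.Agent.H749.GS.TL

/-!
# Decomposition of the classes in the degrees `2^K + c`
-/

set_option autoImplicit false
set_option linter.unusedSectionVars false

namespace Pool.Agent.H749.GS

open Finset MvPolynomial TensorProduct Pool.Agent.H749.GK.St Pool.Agent.W624.Stz
  Pool.Agent.H749.GK.KA
open Pool.Agent.Q171.ND3.St (ev0 ev1 faces sqC mem_ev0 mem_ev1 par)

variable {T c : ℤ}

/-- a family with one entry -/
noncomputable def sgl (a₀ b₀ : ℕ) (τ : Ext a₀ T ⊗[ZMod 2] Ext b₀ c) : FT T c :=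
  Pi.single (M := fun a => ∀ b : ℕ, Ext a T ⊗[ZMod 2] Ext b c) a₀
    (Pi.single (M := fun b => Ext a₀ T ⊗[ZMod 2] Ext b c) b₀ τ)

theorem sgl_same (a₀ b₀ : ℕ) (τ : Ext a₀ T ⊗[ZMod 2] Ext b₀ c) : sgl a₀ b₀ τ a₀ b₀ = τ := by
  rw [sgl, Pi.single_eq_same, Pi.single_eq_same]

theorem sgl_a {a₀ b₀ a : ℕ} (τ : Ext a₀ T ⊗[ZMod 2] Ext b₀ c) (h : a ≠ a₀) (b : ℕ) :
    sgl a₀ b₀ τ a b = 0 := by
  rw [sgl, Pi.single_eq_of_ne h]
  rfl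

theorem sgl_b {a₀ b₀ b : ℕ} (τ : Ext a₀ T ⊗[ZMod 2] Ext b₀ c) (h : b ≠ b₀) (a : ℕ) :
    sgl a₀ b₀ τ a b = 0 := by
  by_cases ha : a = a₀
  · subst ha
    rw [sgl, Pi.single_eq_same, Pi.single_eq_of_ne h]
  · exact sgl_a τ ha b

theorem KK_sgl {s a₀ b₀ : ℕ} (h : a₀ + b₀ = s) (τ : Ext a₀ T ⊗[ZMod 2] Ext b₀ c) :
    KK s (sgl a₀ b₀ τ) = be s a₀ b₀ τ := by
  rw [KK, sum_eq_single (a₀, b₀)]
  · rw [sgl_same]
  · rintro ⟨a, b⟩ _ hne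
    by_cases ha : a = a₀
    · have hb : b ≠ b₀ := fun hb => hne (by rw [ha, hb])
      rw [sgl_b τ hb, map_zero]
    · rw [sgl_a τ ha, map_zero]
  · intro hn
    exact absurd (HasAntidiagonal.mem_antidiagonal.mpr h) hn

theorem KK_zero {s : ℕ} {F : FT T c} (h : ∀ a b, a + b = s → F a b = 0) : KK s F = 0 := by
  rw [KK]
  refine sum_eq_zero fun p hp => ?_
  rw [h _ _ (HasAntidiagonal.mem_antidiagonal.mp hp), map_zero]

theorem be_cup {s a b : ℕ} (h : a + b = s) (α : Ext a T) (β : Ext b c) :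
    be s a b (α ⊗ₜ[ZMod 2] β) = cupE h α β := by
  rw [be, dif_pos h, TensorProduct.lift.tmul]

/-- multiplication by `h_K` -/
noncomputable def mh (K : ℕ) {b s : ℕ} (h : 1 + b = s) (v : Ext b c) : Ext s (2 ^ K + c) :=
  cupE h (hc K) v

/-- multiplication by `h_K²` -/
noncomputable def mg (K : ℕ) {b s : ℕ} (h : 2 + b = s) (u : Ext b c) : Ext s (2 ^ (K + 1) + c) :=
  cupE h (gc K) u

theorem mh_add (K : ℕ) {b s : ℕ} (h : 1 + b = s) (v w : Ext b c) :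
    mh K h (v + w) = mh K h v + mh K h w := map_add _ _ _

theorem mg_add (K : ℕ) {b s : ℕ} (h : 2 + b = s) (v w : Ext b c) :
    mg K h (v + w) = mg K h v + mg K h w := map_add _ _ _

theorem mh_zero (K : ℕ) {b s : ℕ} (h : 1 + b = s) : mh (c := c) K h 0 = 0 := map_zero _

theorem mg_zero (K : ℕ) {b s : ℕ} (h : 2 + b = s) : mg (c := c) K h 0 = 0 := map_zero _

/-- a family without the entries `a ≤ k` -/
def Hi (k : ℕ) (F : FT T c) : Prop := ∀ a b, a ≤ k → F a b = 0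

theorem pow_ne (K : ℕ) : (2 : ℤ) ^ K ≠ 0 := by positivity

/-- components of a class -/
theorem dec1 {ρ K b s : ℕ} (hT : (2 : ℤ) ^ (ρ + 2 * s + 1) ∣ 2 ^ K) (hc0 : 0 ≤ c)
    (hc2 : c < 2 ^ ρ) (hs : 1 + b = s) (α : Ext s (2 ^ K + c)) :
    ∃ (v : Ext b c) (F : FT (2 ^ K) c), Hi 1 F ∧ α = mh K hs v + KK s F := by
  obtain ⟨F, rfl⟩ := KK_surj hT hc0 hc2 α
  obtain ⟨v, hv⟩ := ten_gen (hc_gen K) (F 1 b)
  refine ⟨v, fun a b' => if a ≤ 1 then 0 else F a b', fun a b' ha => if_pos ha, ?_⟩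
  rw [mh, ← be_cup hs, ← hv, ← KK_sgl hs, ← KK_add]
  refine KK_congr fun a b' hab => ?_
  by_cases h0 : a = 0
  · subst h0
    rw [ten_left (E0_zero (pow_ne K)) (F 0 b'), sgl_a _ (by omega)]
    simp
  · by_cases h1 : a = 1
    · subst h1
      obtain rfl : b' = b := by omega
      rw [sgl_same]
      simp
    · rw [sgl_a _ h1, if_neg (by omega), zero_add]

theorem dec2 {ρ K b s : ℕ} (hT : (2 : ℤ) ^ (ρ + 2 * s + 1) ∣ 2 ^ (K + 1)) (hc0 : 0 ≤ c)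
    (hc2 : c < 2 ^ ρ) (hs1 : 1 + (b + 1) = s) (hs2 : 2 + b = s) (α : Ext s (2 ^ (K + 1) + c)) :
    ∃ (v : Ext (b + 1) c) (u : Ext b c) (F : FT (2 ^ (K + 1)) c), Hi 2 F ∧
      α = mh (K + 1) hs1 v + mg K hs2 u + KK s F := by
  obtain ⟨v, F, hF, rfl⟩ := dec1 hT hc0 hc2 hs1 α
  obtain ⟨u, hu⟩ := ten_gen (gc_gen K) (F 2 b)
  refine ⟨v, u, fun a b' => if a ≤ 2 then 0 else F a b', fun a b' ha => if_pos ha, ?_⟩
  rw [add_assoc]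
  congr 1
  rw [mg, ← be_cup hs2, ← hu, ← KK_sgl hs2, ← KK_add]
  refine KK_congr fun a b' hab => ?_
  by_cases h0 : a ≤ 1
  · rw [hF a b' h0, sgl_a _ (by omega), if_pos (by omega), add_zero]
  · by_cases h1 : a = 2
    · subst h1
      obtain rfl : b' = b := by omega
      rw [sgl_same, if_pos le_rfl, add_zero]
    · rw [sgl_a _ h1, if_neg (by omega), zero_add]

/-- the components are unique -/
theorem sep {ρ K b s : ℕ} (hT : (2 : ℤ) ^ (ρ + 2 * s + 1) ∣ 2 ^ (K + 1)) (hc0 : 0 ≤ c)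
    (hc2 : c < 2 ^ ρ) (hs1 : 1 + (b + 1) = s) (hs2 : 2 + b = s) {v : Ext (b + 1) c} {u : Ext b c}
    {F : FT (2 ^ (K + 1)) c} (hF : Hi 2 F)
    (h : mh (K + 1) hs1 v + mg K hs2 u + KK s F = 0) :
    v = 0 ∧ u = 0 ∧ ∀ a b', a + b' = s → F a b' = 0 := by
  rw [mh, mg, ← be_cup hs1, ← be_cup hs2, ← KK_sgl hs1, ← KK_sgl hs2, ← KK_add, ← KK_add] at h
  have h1 := fun a b' (hab : a + b' = s) => KK_inj hT hc0 hc2 h hab
  refine ⟨?_, ?_, fun a b' hab => ?_⟩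
  · have h2 := h1 1 (b + 1) hs1
    rw [sgl_same, sgl_a _ (by omega), hF 1 _ (by omega), add_zero, add_zero] at h2
    exact ten_zero (hc_ne _) h2
  · have h2 := h1 2 b hs2
    rw [sgl_same, sgl_a _ (by omega), hF 2 _ (by omega), zero_add, add_zero] at h2
    exact ten_zero (gc_ne _) h2
  · by_cases ha : a ≤ 2
    · exact hF a b' ha
    · have h2 := h1 a b' hab
      rwa [sgl_a _ (by omega), sgl_a _ (by omega), zero_add, zero_add] at h2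

/-! ### The operations on the classes -/

theorem hc_S0 (K : ℕ) (h : (2 : ℤ) ^ (K + 1) = 2 * 2 ^ K) : S0 1 h (hc K) = hc (K + 1) := by
  rw [hc, S0_cl, hc]
  congr 1
  apply Subtype.ext
  change zt K ^ 2 = _
  rw [pow_two, zt_sq]

theorem gc_S0 (K : ℕ) (h : (2 : ℤ) ^ (K + 1 + 1) = 2 * 2 ^ (K + 1)) :
    S0 2 h (gc K) = gc (K + 1) := by
  rw [gc, S0_cl, gc]
  congr 1
  apply Subtype.ext
  exact zz2_sq K

theorem hc_S1 (K : ℕ) (h : (2 : ℤ) ^ (K + 1) = 2 * 2 ^ K) : Sk 0 1 h (hc K) = gc K := by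
  rw [hc, Sk_cl]
  exact congrArg cl (Subtype.ext (sq1_zt K) : qZ 0 h ⟨zt K, zt_Z K⟩ = ⟨zz2 K, zz2_Z K⟩)

theorem gc_S1 (K : ℕ) (h : (2 : ℤ) ^ (K + 1 + 1) = 2 * 2 ^ (K + 1)) : Sk 0 2 h (gc K) = 0 := by
  rw [gc, Sk_cl]
  apply cl_zero.mpr
  exact sq1_zz2 K

/-- `h_K⁴` -/
noncomputable def fc (K : ℕ) : Ext 4 (2 ^ (K + 2)) := cl ⟨zz2 K * shift 2 (zz2 K), by
  have h : zz2 K * shift 2 (zz2 K) ∈ Z 4 (2 ^ (K + 1) + 2 ^ (K + 1)) :=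
    (cupZ (show 2 + 2 = 4 by rfl) ⟨_, zz2_Z K⟩ ⟨_, zz2_Z K⟩).2
  have e : (2 : ℤ) ^ (K + 1) + 2 ^ (K + 1) = 2 ^ (K + 2) := by ring
  rw [e] at h
  exact h⟩

theorem eqP (K : ℕ) : (2 : ℤ) ^ (K + 1) = 2 * 2 ^ K := by ring

variable {c' : ℤ}

theorem mh_S1 {K b s : ℕ} (h : 1 + b = s) (hb : c' = 2 * c)
    (ht : 2 ^ (K + 1) + c' = 2 * (2 ^ K + c)) (h1 : 1 + (b + 1) = s + 1) (h2 : 2 + b = s + 1)
    (v : Ext b c) :
    Sk 0 s ht (mh K h v) = mh (K + 1) h1 (Sk 0 b hb v) + mg K h2 (S0 b hb v) := by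
  rw [mh, cup_q1 h (eqP K) hb ht, hc_S0, hc_S1]
  exact add_comm _ _

theorem mg_S1 {K b s : ℕ} (h : 2 + b = s) (hb : c' = 2 * c)
    (ht : 2 ^ (K + 1 + 1) + c' = 2 * (2 ^ (K + 1) + c)) (h1 : 2 + (b + 1) = s + 1) (u : Ext b c) :
    Sk 0 s ht (mg K h u) = mg (K + 1) h1 (Sk 0 b hb u) := by
  rw [mg, cup_q1 h (eqP (K + 1)) hb ht, gc_S0, gc_S1, map_zero, LinearMap.zero_apply, zero_add]
  rfl

theorem mh_S2 {K b s : ℕ} (h : 1 + b = s) (hb : c' = 2 * c)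
    (ht : 2 ^ (K + 1) + c' = 2 * (2 ^ K + c)) (h1 : 1 + (b + 1 + 1) = s + 1 + 1)
    (h2 : 2 + (b + 1) = s + 1 + 1) (v : Ext b c) :
    Sk 1 s ht (mh K h v) = mh (K + 1) h1 (Sk 1 b hb v) + mg K h2 (Sk 0 b hb v) := by
  obtain rfl : s = b + 1 := by omega
  obtain ⟨x, rfl⟩ := cl_surj v
  rw [mh, mh, mg, hc, hc, gc, cupE_cl, Sk_cl, Sk_cl, Sk_cl, cupE_cl, cupE_cl, ← cl_add]
  apply cl_eq
  have h3 := cartan_B (k := 1) (m := K) x.2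
  have h4 : 2 * (2 ^ K + c) = 2 ^ (K + 1) + c' := ht.symm
  rw [h4] at h3
  exact h3

theorem mg_S2 {K b s : ℕ} (h : 2 + b = s) (hb : c' = 2 * c)
    (ht : 2 ^ (K + 1 + 1) + c' = 2 * (2 ^ (K + 1) + c)) (h1 : 2 + (b + 1 + 1) = s + 1 + 1)
    (h2 : 4 + b = s + 1 + 1) (u : Ext b c) :
    Sk 1 s ht (mg K h u) = mg (K + 1) h1 (Sk 1 b hb u) + cupE h2 (fc K) (S0 b hb u) := by
  obtain rfl : s = b + 2 := by omega
  obtain ⟨x, rfl⟩ := cl_surj u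
  rw [mg, mg, gc, gc, fc, cupE_cl, Sk_cl, Sk_cl, S0_cl, cupE_cl, cupE_cl, ← cl_add]
  apply cl_eq
  have h3 := q2_zz2 (K := K) x.2
  have h4 : 2 * (2 ^ (K + 1) + c) = 2 ^ (K + 2) + c' := ht.symm
  rw [h4] at h3
  exact h3

end Pool.Agent.H749.GS
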