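import Pool.Agent.H749.GS.Low
import Pool.Graph.R_pool_sql_team_seeded_3997aac3.Q171.ND3.En

/-!
# The operations on `Ext^{s,t}` and the Künneth isomorphism
-/

set_option autoImplicit false
set_option linter.unusedSectionVars false

namespace Pool.Agent.H749.GS

open Finset MvPolynomial TensorProduct Pool.Agent.H749.GK.St Pool.Agent.W624.Stz
  Pool.Agent.H749.GK.KA
open Pool.Agent.Q171.ND3.St (ev0 ev1 faces sqC mem_ev0 mem_ev1 par)

section ind

variable {s s' : ℕ} {t t' : ℤ}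

/-- maps induced by maps of cocycles which are additive up to coboundaries -/
noncomputable def ind (f : Z s t → Z s' t')
    (hadd : ∀ x y, (f (x + y)).1 + ((f x).1 + (f y).1) ∈ B s' t')
    (hB : ∀ x : Z s t, x.1 ∈ B s t → (f x).1 ∈ B s' t') : Ext s t →ₗ[ZMod 2] Ext s' t' :=
  Submodule.liftQ ((B s t).comap (Z s t).subtype)
    (AddMonoidHom.toZModLinearMap 2
      { toFun := fun x => cl (f x)
        map_zero' := cl_zero.mpr (hB 0 (Submodule.zero_mem _))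
        map_add' := fun x y => by
          rw [← cl_add]
          exact cl_eq (hadd x y) })
    (fun x hx => cl_zero.mpr (hB x hx))

theorem ind_cl (f : Z s t → Z s' t')
    (hadd : ∀ x y, (f (x + y)).1 + ((f x).1 + (f y).1) ∈ B s' t')
    (hB : ∀ x : Z s t, x.1 ∈ B s t → (f x).1 ∈ B s' t') (x : Z s t) :
    ind f hadd hB (cl x) = cl (f x) := rfl

end ind

theorem sq_Z {s : ℕ} {t : ℤ} {x : P} (hx : x ∈ Z s t) : x ^ 2 ∈ Z s (2 * t) := by
  have h := pow_C 1 hx.1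
  rw [pow_one, pow_one] at h
  refine ⟨h, LinearMap.mem_ker.mpr ?_⟩
  rw [dsq, LinearMap.mem_ker.mp hx.2]
  ring

/-- the square of a cocycle -/
noncomputable def fZ {s : ℕ} {t t' : ℤ} (h : t' = 2 * t) (x : Z s t) : Z s t' :=
  ⟨x.1 ^ 2, by subst h; exact sq_Z x.2⟩

/-- the operation `Sq^(k+1)` on cocycles -/
noncomputable def qZ (k : ℕ) {s : ℕ} {t t' : ℤ} (h : t' = 2 * t) (x : Z s t) :
    Z (s + k + 1) t' :=
  ⟨sqC (k + 1) s x.1, by subst h; exact sqC_Z (k := k + 1) x.2⟩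

/-- `Sq⁰` -/
noncomputable def S0 (s : ℕ) {t t' : ℤ} (h : t' = 2 * t) : Ext s t →ₗ[ZMod 2] Ext s t' :=
  ind (fZ h) (fun x y => by
    have h1 : (x.1 + y.1) ^ 2 + (x.1 ^ 2 + y.1 ^ 2) = 0 := by
      have := add_pow0 x.1 y.1 1
      rw [pow_one] at this
      rw [this]
      exact GS.ch2 _
    change (x.1 + y.1) ^ 2 + (x.1 ^ 2 + y.1 ^ 2) ∈ _
    rw [h1]
    exact Submodule.zero_mem _) (fun x hx => by subst h; exact B_sq hx)

theorem qZ_val (k : ℕ) {s : ℕ} {t t' : ℤ} (h : t' = 2 * t) (x : Z s t) :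
    (qZ k h x).1 = sqC (k + 1) s x.1 := rfl

theorem qZ_add (k : ℕ) {s : ℕ} {t t' : ℤ} (h : t' = 2 * t) (x y : Z s t) :
    (qZ k h (x + y)).1 + ((qZ k h x).1 + (qZ k h y).1) ∈ B (s + k + 1) t' := by
  subst h
  have h1 := sqC_add_B (k := k) x.2 y.2
  rw [add_assoc (sqC (k + 1) s (x.1 + y.1))] at h1
  rw [qZ_val, qZ_val, qZ_val, Submodule.coe_add]
  exact h1

theorem qZ_B (k : ℕ) {s : ℕ} {t t' : ℤ} (h : t' = 2 * t) (x : Z s t) (hx : x.1 ∈ B s t) :
    (qZ k h x).1 ∈ B (s + k + 1) t' := by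
  subst h
  rw [qZ_val]
  exact sqC_B hx

/-- `Sq^(k+1)` -/
noncomputable def Sk (k s : ℕ) {t t' : ℤ} (h : t' = 2 * t) :
    Ext s t →ₗ[ZMod 2] Ext (s + k + 1) t' := ind (qZ k h) (qZ_add k h) (qZ_B k h)

theorem S0_cl {s : ℕ} {t t' : ℤ} (h : t' = 2 * t) (x : Z s t) : S0 s h (cl x) = cl (fZ h x) := rfl

theorem Sk_cl (k : ℕ) {s : ℕ} {t t' : ℤ} (h : t' = 2 * t) (x : Z s t) :
    Sk k s h (cl x) = cl (qZ k h x) := rfl

theorem sqC_sq (k s : ℕ) (x : P) : sqC k s (x ^ 2) = sqC k s x ^ 2 :=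
  Pool.Agent.Q171.ND3.St.sqC_sq k s x

theorem Sk_S0 (k s : ℕ) {t t' t'' : ℤ} (h : t' = 2 * t) (h' : t'' = 2 * t') (α : Ext s t) :
    Sk k s h' (S0 s h α) = S0 (s + k + 1) h' (Sk k s h α) := by
  obtain ⟨x, rfl⟩ := cl_surj α
  rw [S0_cl, Sk_cl, Sk_cl, S0_cl]
  congr 1
  apply Subtype.ext
  exact sqC_sq (k + 1) s x.1

/-! ### Injectivity and surjectivity of `Sq⁰` -/

theorem one_C0 : (1 : P) ∈ C 0 0 := ⟨Subalgebra.one_mem _, IW.one' wt⟩

theorem pow_Sp (ρ : ℕ) {T : ℤ} {s : ℕ} {x : P} (hx : x ∈ C s T) : x ^ (2 ^ ρ) ∈ Sp ρ T s := by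
  have hV : (1 : P) ∈ V 0 0 := ⟨one_C0, fun h => absurd h (by omega)⟩
  have h1 := TS_Sp ρ T 0 s (fun a b => if h : a = s ∧ b = 0 then
    (⟨x, h.1 ▸ hx⟩ : ↥(C a T)) ⊗ₜ[ZMod 2] (⟨1, h.2 ▸ hV⟩ : ↥(V b 0)) else 0)
  have h2 : TS ρ T 0 s (fun a b => if h : a = s ∧ b = 0 then
    (⟨x, h.1 ▸ hx⟩ : ↥(C a T)) ⊗ₜ[ZMod 2] (⟨1, h.2 ▸ hV⟩ : ↥(V b 0)) else 0) = x ^ (2 ^ ρ) := by
    rw [TS, sum_eq_single (s, 0)]
    · simp only
      rw [dif_pos ⟨trivial, trivial⟩, Th_tmul, map_one, mul_one]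
    · rintro ⟨a, b⟩ hp hne
      have := HasAntidiagonal.mem_antidiagonal.mp hp
      simp only at this ⊢
      rw [dif_neg, map_zero]
      rintro ⟨h1, h2⟩
      exact hne (by rw [h1, h2])
    · intro h
      exact absurd (HasAntidiagonal.mem_antidiagonal.mpr (add_zero s)) h
  rwa [h2] at h1

theorem S0_inj {s : ℕ} {t t' : ℤ} (h : t' = 2 * t) (hd : (2 : ℤ) ^ (2 * s + 1) ∣ t)
    {α : Ext s t} (hα : S0 s h α = 0) : α = 0 := by
  subst h
  obtain ⟨x, rfl⟩ := cl_surj α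
  rw [S0_cl] at hα
  have h0 : x.1 ^ 2 ∈ B s (2 * t) := cl_zero.mp hα
  apply cl_zero.mpr
  cases s with
  | zero =>
    have h1 : x.1 ^ 2 = 0 := (Submodule.mem_bot _).mp h0
    have h2 : x.1 = 0 := by
      rw [pow_eq_zero_iff (by norm_num)] at h1
      exact h1
    rw [h2]
    exact Submodule.zero_mem _
  | succ s =>
    obtain ⟨v, hv, hdv⟩ := Submodule.mem_map.mp h0
    have hv0 : v ∈ C s (2 ^ 1 * t + 0) := by rw [add_zero, pow_one]; exact hv
    have hT : (2 : ℤ) ^ (2 * s + 1) ∣ t := dvd_trans (pow_dvd_pow 2 (by omega)) hd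
    obtain ⟨h1, hh1, hS⟩ := acyc (c := 0) (ρ := 1) hT le_rfl (by positivity) hv0
      (by
        rw [hdv]
        have := pow_Sp 1 x.2.1
        rwa [pow_one] at this)
    obtain ⟨u, hu⟩ := normal 1 t 0 hS (Submodule.add_mem _ hv0 (dp_C hh1))
    have h2 : ∃ y ∈ C s t, TS 1 t 0 s u = y ^ 2 := by
      have h3 : ∀ b a' (w : ↥(C a' t) ⊗[ZMod 2] ↥(V b 0)), a' ≤ s →
          ∃ y ∈ C s t, Th 1 t 0 a' b w = pw 1 y := by
        intro b a' w ha
        induction w using TensorProduct.induction_on with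
        | zero => exact ⟨0, Submodule.zero_mem _, by rw [map_zero, map_zero]⟩
        | add x y hx hy =>
          obtain ⟨x', hx', hx2⟩ := hx
          obtain ⟨y', hy', hy2⟩ := hy
          exact ⟨x' + y', Submodule.add_mem _ hx' hy', by rw [map_add, map_add, hx2, hy2]⟩
        | tmul x z =>
          rw [Th_tmul]
          cases b with
          | zero =>
            obtain ⟨r, hr⟩ := C_deg0 z.2.1
            refine ⟨r • x.1, Submodule.smul_mem _ _ (C_le ha x.2), ?_⟩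
            rw [map_smul, pw_apply, hr, shift, rename_C, mul_comm, ← smul_eq_C_mul]
          | succ b =>
            refine ⟨0, Submodule.zero_mem _, ?_⟩
            rw [V_deg0 z.2, map_zero, mul_zero, map_zero]
      have h4 : TS 1 t 0 s u ∈ (C s t).map (pw 1) := by
        refine Submodule.sum_mem _ fun p hp => ?_
        have := HasAntidiagonal.mem_antidiagonal.mp hp
        obtain ⟨y, hy, hy2⟩ := h3 p.2 p.1 (u p.1 p.2) (by omega)
        exact ⟨y, hy, hy2.symm⟩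
      obtain ⟨y, hy, hy2⟩ := h4
      refine ⟨y, hy, ?_⟩
      rw [← hy2, pw_apply, pow_one]
    obtain ⟨y, hy, hy2⟩ := h2
    rw [hy2] at hu
    refine mem_B_of hy ?_
    apply sq_inj
    rw [← dsq, ← hu, map_add, d_dp hh1, add_zero, hdv]

theorem S0_surj {s : ℕ} {t t' : ℤ} (h : t' = 2 * t) (hd : (2 : ℤ) ^ (2 * s + 1) ∣ t)
    (β : Ext s t') : ∃ α : Ext s t, S0 s h α = β := by
  subst h
  have h1 := sqc_surj 1 t (a := s) hd
  have h2 : ∀ γ : Ext s (2 ^ 1 * t), ∃ x : Z s t, ∃ y : Z s (2 ^ 1 * t), y.1 = x.1 ^ 2 ∧ cl y = γ := by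
    intro γ
    obtain ⟨x, hx⟩ := h1 γ
    exact ⟨x, sqZ 1 t s x, by change x.1 ^ (2 ^ 1) = _; rw [pow_one], hx⟩
  rw [pow_one] at h2
  obtain ⟨x, y, hy, hyβ⟩ := h2 β
  refine ⟨cl x, ?_⟩
  rw [S0_cl, ← hyβ]
  congr 1
  exact Subtype.ext hy.symm

/-! ### The Künneth isomorphism -/

theorem kap_bij {s ρ : ℕ} {T c : ℤ} (hT : (2 : ℤ) ^ (ρ + 2 * s + 1) ∣ T) (hc : 0 ≤ c)
    (hc2 : c < 2 ^ ρ) : Function.Bijective (kap s T c) := by
  obtain ⟨k, rfl⟩ := hT
  have h1 : (2 : ℤ) ^ (ρ + 2 * s + 1) * k = 2 ^ ρ * (2 ^ (2 * s + 1) * k) := by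
    rw [show ρ + 2 * s + 1 = ρ + (2 * s + 1) by omega, pow_add]; ring
  rw [h1]
  exact ⟨kap_inj ρ _ c (Dvd.intro _ rfl) hc hc2, kap_surj ρ _ c (Dvd.intro _ rfl) hc hc2⟩

variable {T c : ℤ}

/-- families of tensors -/
abbrev FT (T c : ℤ) : Type := ∀ a b : ℕ, Ext a T ⊗[ZMod 2] Ext b c

/-- the product of a tensor -/
noncomputable def be (s a b : ℕ) : Ext a T ⊗[ZMod 2] Ext b c →ₗ[ZMod 2] Ext s (T + c) :=
  if h : a + b = s then TensorProduct.lift (cupE h) else 0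

/-- the sum of the products -/
noncomputable def KK (s : ℕ) (F : FT T c) : Ext s (T + c) :=
  ∑ p ∈ antidiagonal s, be s p.1 p.2 (F p.1 p.2)

theorem KK_kap (s : ℕ) (F : FT T c) : KK s F = kap s T c (mkT fun p => F p.1.1 p.1.2) := by
  rw [kap_apply, KK, ← sum_coe_sort (antidiagonal s)]
  refine sum_congr rfl fun p _ => ?_
  have h := HasAntidiagonal.mem_antidiagonal.mp p.2
  rw [be, dif_pos h]
  rfl

theorem KK_inj {s ρ : ℕ} (hT : (2 : ℤ) ^ (ρ + 2 * s + 1) ∣ T) (hc : 0 ≤ c) (hc2 : c < 2 ^ ρ)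
    {F : FT T c} (h : KK s F = 0) {a b : ℕ} (hab : a + b = s) : F a b = 0 := by
  rw [KK_kap] at h
  have h1 := (injective_iff_map_eq_zero _).mp (kap_bij hT hc hc2).1 _ h
  exact congrFun h1 ⟨(a, b), HasAntidiagonal.mem_antidiagonal.mpr hab⟩

theorem KK_surj {s ρ : ℕ} (hT : (2 : ℤ) ^ (ρ + 2 * s + 1) ∣ T) (hc : 0 ≤ c) (hc2 : c < 2 ^ ρ)
    (α : Ext s (T + c)) : ∃ F : FT T c, KK s F = α := by
  obtain ⟨ω, rfl⟩ := (kap_bij hT hc hc2).2 α
  refine ⟨fun a b => if h : (a, b) ∈ antidiagonal s then ω ⟨(a, b), h⟩ else 0, ?_⟩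
  rw [KK_kap]
  congr 1
  funext p
  rw [mkT]
  exact dif_pos p.2

theorem KK_add (s : ℕ) (F G : FT T c) : KK s (fun a b => F a b + G a b) = KK s F + KK s G := by
  rw [KK, KK, KK, ← sum_add_distrib]
  exact sum_congr rfl fun p _ => map_add _ _ _

theorem KK_congr {s : ℕ} {F G : FT T c} (h : ∀ a b, a + b = s → F a b = G a b) :
    KK s F = KK s G := by
  refine sum_congr rfl fun p hp => ?_
  rw [h _ _ (HasAntidiagonal.mem_antidiagonal.mp hp)]

/-! ### `Sq¹` of a product -/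

theorem cup_q1 {a b s : ℕ} {t u t' u' : ℤ} (h : a + b = s) (ht : t' = 2 * t) (hu : u' = 2 * u)
    (htu : t' + u' = 2 * (t + u)) (α : Ext a t) (β : Ext b u) :
    Sk 0 s htu (cupE h α β) = cupE (show a + 1 + b = s + 1 by omega) (Sk 0 a ht α) (S0 b hu β)
      + cupE (show a + (b + 1) = s + 1 by omega) (S0 a ht α) (Sk 0 b hu β) := by
  subst h
  obtain ⟨x, rfl⟩ := cl_surj α
  obtain ⟨y, rfl⟩ := cl_surj β
  rw [cupE_cl, Sk_cl, Sk_cl, Sk_cl, S0_cl, S0_cl, cupE_cl, cupE_cl, ← cl_add]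
  congr 1
  exact Subtype.ext (q1_mul x.2.1.1 (LinearMap.mem_ker.mp x.2.2) (LinearMap.mem_ker.mp y.2.2))

/-- `Sq¹` on tensors -/
noncomputable def DT {T' c' : ℤ} (hT : T' = 2 * T) (hc : c' = 2 * c) (F : FT T c) : FT T' c' :=
  fun a b =>
    (match a with
      | 0 => 0
      | a + 1 => TensorProduct.map (Sk 0 a hT) (S0 b hc) (F a b))
    + (match b with
      | 0 => 0
      | b + 1 => TensorProduct.map (S0 a hT) (Sk 0 b hc) (F a b))

theorem be_q1 {a b s : ℕ} {T' c' : ℤ} (h : a + b = s) (hT : T' = 2 * T) (hc : c' = 2 * c)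
    (hTc : T' + c' = 2 * (T + c)) (τ : Ext a T ⊗[ZMod 2] Ext b c) :
    Sk 0 s hTc (be s a b τ) = be (s + 1) (a + 1) b (TensorProduct.map (Sk 0 a hT) (S0 b hc) τ)
      + be (s + 1) a (b + 1) (TensorProduct.map (S0 a hT) (Sk 0 b hc) τ) := by
  rw [be, dif_pos h, be, dif_pos (show a + 1 + b = s + 1 by omega), be,
    dif_pos (show a + (b + 1) = s + 1 by omega)]
  induction τ using TensorProduct.induction_on with
  | zero => simp only [map_zero, add_zero]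
  | add x y hx hy => rw [map_add, map_add, map_add, map_add, map_add, map_add, hx, hy]; abel
  | tmul x y =>
    rw [TensorProduct.map_tmul, TensorProduct.map_tmul, TensorProduct.lift.tmul,
      TensorProduct.lift.tmul, TensorProduct.lift.tmul]
    exact cup_q1 h hT hc hTc x y

theorem KK_q1 (s : ℕ) {T' c' : ℤ} (hT : T' = 2 * T) (hc : c' = 2 * c)
    (hTc : T' + c' = 2 * (T + c)) (F : FT T c) :
    Sk 0 s hTc (KK s F) = KK (s + 1) (DT hT hc F) := by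
  have h1 : KK (s + 1) (DT hT hc F)
      = (∑ p ∈ antidiagonal s, be (s + 1) (p.1 + 1) p.2
          (TensorProduct.map (Sk 0 p.1 hT) (S0 p.2 hc) (F p.1 p.2)))
        + ∑ p ∈ antidiagonal s, be (s + 1) p.1 (p.2 + 1)
          (TensorProduct.map (S0 p.1 hT) (Sk 0 p.2 hc) (F p.1 p.2)) := by
    have h2 : KK (s + 1) (DT hT hc F)
        = (∑ p ∈ antidiagonal (s + 1), be (s + 1) p.1 p.2
            ((match (motive := ∀ a : ℕ, Ext a T' ⊗[ZMod 2] Ext p.2 c') p.1 with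
              | 0 => 0
              | a + 1 => TensorProduct.map (Sk 0 a hT) (S0 p.2 hc) (F a p.2))))
          + ∑ p ∈ antidiagonal (s + 1), be (s + 1) p.1 p.2
            ((match (motive := ∀ b : ℕ, Ext p.1 T' ⊗[ZMod 2] Ext b c') p.2 with
              | 0 => 0
              | b + 1 => TensorProduct.map (S0 p.1 hT) (Sk 0 b hc) (F p.1 b))) := by
      rw [KK, ← sum_add_distrib]
      refine sum_congr rfl fun p _ => ?_
      rw [← map_add]
      rfl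
    rw [h2, Finset.Nat.sum_antidiagonal_succ, Finset.Nat.sum_antidiagonal_succ']
    simp only [map_zero, zero_add, add_zero]
  rw [h1, KK, map_sum, ← sum_add_distrib]
  refine sum_congr rfl fun p hp => ?_
  exact be_q1 (HasAntidiagonal.mem_antidiagonal.mp hp) hT hc hTc _

end Pool.Agent.H749.GS
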