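import Pool.Agent.H749.GS.Sq1

/-!
# Partial derivatives of cochains
-/

set_option autoImplicit false
set_option linter.unusedSectionVars false

namespace Pool.Agent.H749.GS

open Finset MvPolynomial Pool.Agent.H749.GK.St Pool.Agent.W624.Stz

theorem pd_hom2 (φ : P →ₐ[ZMod 2] P) (v w : ℕ × ℕ)
    (h : ∀ u, pderiv v (φ (X u)) = φ (pderiv w (X u))) (f : P) :
    pderiv v (φ f) = φ (pderiv w f) := by
  induction f using MvPolynomial.induction_on with
  | C a => rw [algHom_C, Derivation.map_algebraMap, pderiv_C, map_zero]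
  | add p q hp hq => rw [map_add, map_add, map_add, hp, hq, map_add]
  | mul_X p u hp => rw [map_mul, pderiv_mul, hp, h, pderiv_mul, map_add, map_mul, map_mul]

theorem pd_hom0 (φ : P →ₐ[ZMod 2] P) (v : ℕ × ℕ) (h : ∀ u, pderiv v (φ (X u)) = 0) (f : P) :
    pderiv v (φ f) = 0 := by
  induction f using MvPolynomial.induction_on with
  | C a => rw [algHom_C, Derivation.map_algebraMap]
  | add p q hp hq => rw [map_add, map_add, hp, hq, add_zero]
  | mul_X p u hp => rw [map_mul, pderiv_mul, hp, h, zero_mul, mul_zero, add_zero]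

theorem pd_sq (v : ℕ × ℕ) (f : P) : pderiv v (pderiv v f) = 0 := by
  ext m
  rw [coeff_pderiv, coeff_pderiv, coeff_zero]
  have : ∀ a b : ZMod 2, a * (b + 1 + 1) * (b + 1) = 0 := by decide
  have h := this (coeff (m + Finsupp.single v 1 + Finsupp.single v 1) f) (m v)
  rw [Finsupp.add_apply, Finsupp.single_eq_same]
  push_cast
  exact h

theorem pd_comm (v w : ℕ × ℕ) (f : P) : pderiv v (pderiv w f) = pderiv w (pderiv v f) := by
  by_cases hvw : v = w
  · rw [hvw]
  · ext m
    rw [coeff_pderiv, coeff_pderiv, coeff_pderiv, coeff_pderiv, Finsupp.add_apply,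
      Finsupp.add_apply, Finsupp.single_eq_of_ne (Ne.symm hvw), Finsupp.single_eq_of_ne hvw,
      add_zero, add_zero, add_assoc, add_assoc, add_comm (Finsupp.single v 1)]
    ring

theorem pd_pow2 (v : ℕ × ℕ) (f : P) (i : ℕ) : pderiv v (f ^ (2 ^ (i + 1))) = 0 := by
  rw [pderiv_pow]
  have : ((2 ^ (i + 1) : ℕ) : P) = 0 := by
    rw [pow_succ, mul_comm, Nat.cast_mul]
    have h2 : ((2 : ℕ) : P) = 0 := CharP.cast_eq_zero P 2
    rw [h2, zero_mul]
  rw [this, zero_mul, zero_mul]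

theorem pd_X (v w : ℕ × ℕ) : pderiv v (X w : P) = if v = w then 1 else 0 := by
  split_ifs with h
  · rw [h, pderiv_X_self]
  · exact pderiv_X_of_ne (Ne.symm h)

theorem pd_xi (v : ℕ × ℕ) (a n : ℕ) :
    pderiv v (Pool.Agent.H749.GK.St.ξ a n) = if v.1 = a ∧ v.2 + 1 = n then 1 else 0 := by
  cases n with
  | zero =>
    rw [if_neg (by omega)]
    exact pderiv_one
  | succ n =>
    change pderiv v (X (a, n)) = _
    rw [pd_X]
    obtain ⟨b, m⟩ := v
    simp only [Prod.mk.injEq, Nat.add_right_cancel_iff]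

theorem pd_xipow (v : ℕ × ℕ) (a n i : ℕ) :
    pderiv v (Pool.Agent.H749.GK.St.ξ a n ^ (2 ^ (i + 1))) = 0 := pd_pow2 _ _ _

/-- derivatives of the coproduct with respect to the variables of the first slot -/
theorem pd_cop0 (v : ℕ × ℕ) (a n : ℕ) (hv : v.1 ≠ a + 1) :
    pderiv v (coprod a (n + 1)) = pderiv v (X (a, n) : P) := by
  rw [coprod, map_sum, sum_range_succ']
  have h1 : ∑ k ∈ range (n + 1), pderiv v (Pool.Agent.H749.GK.St.ξ a (n + 1 - (k + 1)) ^ 2 ^ (k + 1)
      * Pool.Agent.H749.GK.St.ξ (a + 1) (k + 1)) = 0 := by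
    refine sum_eq_zero fun k _ => ?_
    rw [pderiv_mul, pd_xipow, pd_xi, if_neg (fun h => hv h.1), zero_mul, mul_zero, add_zero]
  rw [h1, zero_add, pow_zero, pow_one, Nat.sub_zero]
  change pderiv v (X (a, n) * 1) = _
  rw [mul_one]

/-- derivatives of the coproduct with respect to the variables of the second slot -/
theorem pd_cop1 (a k n : ℕ) :
    pderiv (a + 1, k) (coprod a n)
      = if k + 1 ≤ n then Pool.Agent.H749.GK.St.ξ a (n - (k + 1)) ^ (2 ^ (k + 1)) else 0 := by
  rw [coprod, map_sum]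
  have h1 : ∀ i ∈ range (n + 1), pderiv (a + 1, k) (Pool.Agent.H749.GK.St.ξ a (n - i) ^ 2 ^ i
      * Pool.Agent.H749.GK.St.ξ (a + 1) i)
      = if k + 1 = i then Pool.Agent.H749.GK.St.ξ a (n - i) ^ 2 ^ i else 0 := by
    intro i _
    have h2 : pderiv (a + 1, k) (Pool.Agent.H749.GK.St.ξ a (n - i) ^ 2 ^ i) = 0 := by
      rw [pderiv_pow, pd_xi, if_neg (fun h => absurd h.1 (by simp)), mul_zero]
    rw [pderiv_mul, h2, pd_xi, zero_mul, zero_add]
    by_cases h : k + 1 = i
    · rw [if_pos ⟨rfl, h⟩, if_pos h, mul_one]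
    · rw [if_neg (fun h' => h h'.2), if_neg h, mul_zero]
  rw [sum_congr rfl h1, sum_ite_eq]
  by_cases h : k + 1 ≤ n
  · rw [if_pos (mem_range.mpr (by omega)), if_pos h]
  · rw [if_neg (by rw [mem_range]; omega), if_neg h]

/-- the faces which do not touch the slot `a` -/
theorem pd_face (a k j : ℕ) (f : P) :
    pderiv (a, k) (face (a + j + 1) f) = face (a + j + 1) (pderiv (a, k) f) := by
  apply pd_hom2
  rintro ⟨b, n⟩
  have h0 : face (a + j + 1) (pderiv (a, k) (X (b, n) : P)) = pderiv (a, k) (X (b, n) : P) := by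
    rw [pd_X]
    split_ifs
    · exact map_one _
    · exact map_zero _
  rw [h0, face, aeval_X]
  simp only
  by_cases h1 : b + 1 < a + j + 1
  · rw [if_pos h1]
  · rw [if_neg h1]
    by_cases h2 : b + 1 = a + j + 1
    · rw [if_pos h2]
      exact pd_cop0 (a, k) b n (by simp only; omega)
    · rw [if_neg h2, pd_X, pd_X, if_neg (by simp only [Prod.mk.injEq]; omega),
        if_neg (by simp only [Prod.mk.injEq]; omega)]

theorem pd_shift1 (k : ℕ) (f : P) : pderiv (0, k) (shift 1 f) = 0 := by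
  apply pd_hom0
  rintro ⟨b, n⟩
  rw [shift_X, pd_X, if_neg (by simp only [Prod.mk.injEq]; omega)]

theorem pd_shift1' (a k : ℕ) (f : P) :
    pderiv (a + 1, k) (shift 1 f) = shift 1 (pderiv (a, k) f) := by
  apply pd_hom2
  rintro ⟨b, n⟩
  rw [shift_X, pd_X, pd_X]
  by_cases h : (a, k) = (b, n)
  · rw [if_pos h, if_pos (by rw [Prod.mk.injEq] at h ⊢; omega), map_one]
  · rw [if_neg h, if_neg (by rw [Prod.mk.injEq] at h ⊢; omega), map_zero]

/-- derivatives of the differential with respect to the variables of the first slot -/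
theorem pd_d (s k : ℕ) (f : P) :
    pderiv (0, k) (d s f) = d s (pderiv (0, k) f) + shift 1 (pderiv (0, k) f) := by
  rw [d_apply, d_apply, map_sum, sum_range_succ', sum_range_succ' _ (s + 1), face_zero, face_zero,
    pd_shift1, add_zero, add_assoc, GS.ch2, add_zero]
  refine sum_congr rfl fun j _ => ?_
  have := pd_face 0 k j f
  rwa [zero_add] at this

/-- membership -/
theorem mem_Sup_iff {s : ℕ} {f : P} :
    f ∈ Sup s ↔ ∀ e, coeff e f ≠ 0 → ∀ v : ℕ × ℕ, s ≤ v.1 → e v = 0 := by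
  constructor
  · intro hf e he v hv
    exact supp_Sup hf he hv
  · intro h
    apply mem_supported.mpr
    intro v hv
    obtain ⟨e, he, hev⟩ := (mem_vars_iff_mem_support v).mp hv
    by_contra h1
    have h1 : ¬ v.1 < s := h1
    exact (Finsupp.mem_support_iff.mp hev) (h e (mem_support_iff.mp he) v (by omega))

theorem pd_C {s : ℕ} {t : ℤ} (v : ℕ × ℕ) {f : P} (hf : f ∈ C s t) :
    pderiv v f ∈ C s (t - wt v) := by
  constructor
  · apply mem_Sup_iff.mpr
    intro e he w hw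
    rw [coeff_pderiv] at he
    have h1 := supp_Sup hf.1 (left_ne_zero_of_mul he) hw
    rw [Finsupp.add_apply] at h1
    omega
  · intro e he
    rw [coeff_pderiv] at he
    have h1 : Finsupp.weight wt (e + Finsupp.single v 1) = t := hf.2 (left_ne_zero_of_mul he)
    have h2 : Finsupp.weight wt (Finsupp.single v 1) = wt v := by
      rw [Finsupp.weight_apply, Finsupp.sum_single_index (by simp), one_smul]
    rw [map_add, h2] at h1
    change Finsupp.weight wt e = t - wt v
    linarith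

theorem pd_ge {s : ℕ} {v : ℕ × ℕ} (hv : s ≤ v.1) {f : P} (hf : f ∈ Sup s) : pderiv v f = 0 := by
  ext e
  rw [coeff_pderiv, coeff_zero]
  by_contra h
  have h1 := supp_Sup hf (left_ne_zero_of_mul h) hv
  rw [Finsupp.add_apply, Finsupp.single_eq_same] at h1
  omega

theorem sq_mem_C {s : ℕ} {t : ℤ} {z : P} (h : z ^ 2 ∈ C s (2 * t)) : z ∈ C s t := by
  have : Fact (Nat.Prime 2) := ⟨Nat.prime_two⟩
  have hc : ∀ e, coeff (2 • e) (z ^ 2) = coeff e z := by
    intro e
    rw [← expand_zmod]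
    exact coeff_expand_smul 2 two_ne_zero z e
  constructor
  · apply mem_Sup_iff.mpr
    intro e he v hv
    rw [← hc] at he
    have h1 := supp_Sup h.1 he hv
    rw [Finsupp.smul_apply, smul_eq_mul] at h1
    omega
  · intro e he
    rw [← hc] at he
    have h1 := h.2 he
    rw [map_nsmul, nsmul_eq_mul] at h1
    push_cast at h1
    linarith

theorem sq_odd {s : ℕ} {t : ℤ} {z : P} (h : z ^ 2 ∈ C s t) (ht : ¬ 2 ∣ t) : z = 0 := by
  have : Fact (Nat.Prime 2) := ⟨Nat.prime_two⟩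
  have hc : ∀ e, coeff (2 • e) (z ^ 2) = coeff e z := by
    intro e
    rw [← expand_zmod]
    exact coeff_expand_smul 2 two_ne_zero z e
  ext e
  rw [coeff_zero]
  by_contra he
  rw [← hc] at he
  have h1 := h.2 he
  rw [map_nsmul, nsmul_eq_mul] at h1
  push_cast at h1
  exact ht ⟨_, h1.symm⟩

/-- polynomials without derivatives are squares -/
theorem sq_of_pd {f : P} (h : ∀ v, pderiv v f = 0) : ∃ z : P, z ^ 2 = f := by
  have : Fact (Nat.Prime 2) := ⟨Nat.prime_two⟩
  obtain ⟨z, hz⟩ := sq_root (fun _ : ℕ × ℕ => True) f (fun v _ => h v)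
  refine ⟨z, ?_⟩
  rw [← hz, ← expand_zmod, expand, bind₁]
  congr 1

theorem sq_of_pd_C {s : ℕ} {t : ℤ} {f : P} (hf : f ∈ C s (2 * t))
    (h : ∀ v : ℕ × ℕ, v.1 < s → pderiv v f = 0) : ∃ z ∈ C s t, z ^ 2 = f := by
  obtain ⟨z, hz⟩ := sq_of_pd (f := f) fun v => by
    rcases Nat.lt_or_ge v.1 s with h1 | h1
    · exact h v h1
    · exact pd_ge h1 hf.1
  exact ⟨z, sq_mem_C (by rw [hz]; exact hf), hz⟩

theorem zero_of_pd_C {s : ℕ} {t : ℤ} {f : P} (hf : f ∈ C s t) (ht : ¬ 2 ∣ t)
    (h : ∀ v : ℕ × ℕ, v.1 < s → pderiv v f = 0) : f = 0 := by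
  obtain ⟨z, hz⟩ := sq_of_pd (f := f) fun v => by
    rcases Nat.lt_or_ge v.1 s with h1 | h1
    · exact h v h1
    · exact pd_ge h1 hf.1
  have h0 : z = 0 := sq_odd (s := s) (by rw [hz]; exact hf) ht
  rw [← hz, h0]
  ring

/-- the kernel of the second part of the derivative -/
theorem const_of {h : P} {t : ℤ} (hh : h ∈ C 1 t) (h1 : d 1 h + shift 1 h = 0) :
    ∃ r : ZMod 2, h = MvPolynomial.C r := by
  have h2 := congrArg e0 h1
  rw [map_add, e0_shift, map_zero, e0_d, d_zero (e0_C hh), zero_add] at h2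
  obtain ⟨r, hr⟩ := C0_const (e0_C hh)
  refine ⟨r, ?_⟩
  rw [hr, algHom_C] at h2
  have h3 := GS.ch2 (MvPolynomial.C r : P)
  have h4 : algebraMap (ZMod 2) P r = MvPolynomial.C r := rfl
  rw [h4] at h2
  linear_combination h2 - h3

theorem const_C {s : ℕ} {t : ℤ} {r : ZMod 2} (h : (MvPolynomial.C r : P) ∈ C s t) (ht : t ≠ 0) :
    (MvPolynomial.C r : P) = 0 := by
  by_contra h0
  have hr : coeff 0 (MvPolynomial.C r : P) ≠ 0 := by
    rw [coeff_C, if_pos rfl]
    intro hr
    apply h0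
    rw [hr, map_zero]
  have h1 := h.2 hr
  rw [map_zero] at h1
  exact ht h1.symm

theorem zero_of {h : P} {t : ℤ} (hh : h ∈ C 1 t) (ht : t ≠ 0) (h1 : d 1 h + shift 1 h = 0) :
    h = 0 := by
  obtain ⟨r, rfl⟩ := const_of hh h1
  exact const_C hh ht

end Pool.Agent.H749.GS
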