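import Pool.Agent.H749.GS.Prd

/-!
# The classes `h_{K+1} v + h_K² u`
-/

set_option autoImplicit false
set_option linter.unusedSectionVars false

namespace Pool.Agent.H749.GS

open Finset MvPolynomial TensorProduct Pool.Agent.W624.Stz
open Pool.Agent.Q171.ND3.St (IsHom Sq Sq0 fr sqC Diffs fam sq0 Cocycle IsDeg isDeg_iff star_cl
  Sq_fr Sq0_fr Sq_hom Sq_iter Sq0_iter third fr_hom)
open Pool.Agent.Q171.ND3.St renaming Z → NZ, cl → ncl, Ext → NE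
open Pool.Agent.H749.GK.St renaming Z → GZ, cl → gcl, Ext → GE
open Pool.Agent.H749.GK.St (cl_surj cl_zero cl_eq cl_add cupE cupZ cupE_cl rep cl_rep shift)

/-! ### `h_K⁴ = 0` -/

theorem rel3 (K : ℕ) : zz2 K * shift 2 (zt (K + 2)) + zt (K + 1) * shift 1 (zz2 (K + 1))
    ∈ Pool.Agent.H749.GK.St.B 3 (2 * (2 ^ (K + 1) + 2 ^ K)) := by
  have h := q1_mul (a := 1) (b := 1) (zt_C K).1 (d1_zt K) (d1_zt (K + 1))
  have h1 : sqC 1 2 (zt K * shift 1 (zt (K + 1))) = sqC 1 1 (zt K) * shift 2 (zt (K + 1) ^ 2)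
      + zt K ^ 2 * shift 1 (sqC 1 1 (zt (K + 1))) := h
  have h2 := sqC_B (k := 0) (rel2 K)
  have h3 : sqC (0 + 1) 2 (zt K * shift 1 (zt (K + 1)))
    ∈ Pool.Agent.H749.GK.St.B 3 (2 * (2 ^ (K + 1) + 2 ^ K)) := h2
  rw [show (0 + 1 : ℕ) = 1 from rfl, h1, sq1_zt, sq1_zt, pow_two, pow_two, zt_sq, zt_sq] at h3
  exact h3

theorem ff_B (K : ℕ) : zz2 (K + 1) * shift 2 (zz2 (K + 1))
    ∈ Pool.Agent.H749.GK.St.B 4 (2 ^ (K + 1 + 2)) := by
  have h1 := cupB_left (zt_Z (K + 1)) (rel3 K)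
  have h2 := cupB_right (zz2_Z K) (rel1 (K + 1))
  have e1 : (2 : ℤ) * (2 ^ (K + 1) + 2 ^ K) + 2 ^ (K + 1) = 2 ^ (K + 1 + 2) := by ring
  have e2 : (2 : ℤ) ^ (K + 1) + (2 ^ (K + 1 + 1) + 2 ^ (K + 1)) = 2 ^ (K + 1 + 2) := by ring
  rw [e1] at h1
  rw [e2] at h2
  have h3 := Submodule.add_mem _ h1 h2
  have e3 : (zz2 K * shift 2 (zt (K + 2)) + zt (K + 1) * shift 1 (zz2 (K + 1)))
      * shift 3 (zt (K + 1)) + zz2 K * shift 2 (zt (K + 1 + 1) * shift 1 (zt (K + 1)))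
      = zz2 (K + 1) * shift 2 (zz2 (K + 1)) := by
    rw [map_mul, shift_comp 2 1, zz2, zz2, map_mul, map_mul, shift_comp 1 1, shift_comp 2 1]
    have h4 := GS.ch2 (zt K * shift 1 (zt K) * (shift 2 (zt (K + 1 + 1)) * shift 3 (zt (K + 1))))
    linear_combination h4
  rw [e3] at h3
  exact h3

theorem fc_zero (K : ℕ) : fc (K + 1) = 0 := by
  rw [fc]
  exact cl_zero.mpr (ff_B K)

theorem zt_pow (m n : ℕ) : zt m ^ (2 ^ n) = zt (m + n) := by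
  rw [zt, zt, ← pow_mul, ← pow_add]

theorem zz2_pow (m n : ℕ) : zz2 m ^ (2 ^ n) = zz2 (m + n) := by
  rw [zz2, zz2, mul_pow, ← map_pow, zt_pow]

variable {S ρ K : ℕ} {c c₀ : ℤ}

/-- `Sq¹` of `h_{K+1} v + h_K² u` -/
theorem hg_S1 (hx : Cx S ρ K c c₀) {s q : ℕ} (hs1 : 1 + (s + 1) = q) (hs2 : 2 + s = q)
    (hq : q ≤ S + 2) (h : (2 : ℤ) ^ (K + 1 + 1) + 2 * c = 2 * (2 ^ (K + 1) + c)) {v : GE (s + 1) c}
    {u : GE s c} : Sk 0 q h (mh (K + 1) hs1 v + mg K hs2 u) = 0 ↔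
      Sk 0 (s + 1) rfl v = 0 ∧ S0 (s + 1) rfl v = Sk 0 s rfl u := by
  constructor
  · intro h1
    have e0 : mh (K + 1) hs1 v + mg K hs2 u + KK q (0 : FT (2 ^ (K + 1)) c)
        = mh (K + 1) hs1 v + mg K hs2 u := by
      rw [KK_z]
      exact add_zero _
    have h2 := hx.S1_gen (F := 0) hs1 hs2 hq h (v := v) (u := u) (fun _ _ _ => rfl)
      (by rw [e0]; exact h1)
    exact ⟨h2.1, h2.2.1⟩
  · rintro ⟨h1, h2⟩
    rw [map_add, mh_S1 _ rfl h (show 1 + (s + 1 + 1) = q + 1 by omega)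
      (show 2 + (s + 1) = q + 1 by omega), mg_S1 _ rfl h (show 2 + (s + 1) = q + 1 by omega),
      h1, h2, mh_zero, zero_add]
    exact self_add _

/-- `Sq²` of `h_{K+1} v + h_K² u` -/
theorem hg_S2 (hx : Cx S ρ K c c₀) (hK : 1 ≤ K) {s q : ℕ} (hs1 : 1 + (s + 1) = q) (hs2 : 2 + s = q)
    (hq : q ≤ S + 2) (h : (2 : ℤ) ^ (K + 1 + 1) + 2 * c = 2 * (2 ^ (K + 1) + c)) {v : GE (s + 1) c}
    {u : GE s c} : Sk 1 q h (mh (K + 1) hs1 v + mg K hs2 u) = 0 ↔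
      Sk 1 (s + 1) rfl v = 0 ∧ Sk 0 (s + 1) rfl v = Sk 1 s rfl u := by
  constructor
  · intro h1
    exact hx.S2_low2 hs1 hs2 hq h h1
  · rintro ⟨h1, h2⟩
    rw [map_add, mh_S2 _ rfl h (show 1 + (s + 1 + 1 + 1) = q + 1 + 1 by omega)
      (show 2 + (s + 1 + 1) = q + 1 + 1 by omega),
      mg_S2 _ rfl h (show 2 + (s + 1 + 1) = q + 1 + 1 by omega)
      (show 4 + s = q + 1 + 1 by omega), h1, h2, mh_zero, zero_add]
    obtain ⟨K', rfl⟩ : ∃ K', K = K' + 1 := ⟨K - 1, by omega⟩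
    rw [fc_zero, map_zero, LinearMap.zero_apply, add_zero]
    exact self_add _

/-- the data for the lines `s + 1` -/
structure Dat2 (s J r S e : ℕ) (D : Diffs) : Prop where
  hthird : ∀ (t : ℕ) (x : Cocycle s), IsHom t x.val →
    ∀ j, J ≤ j → D.d₂ (s + 1) (fam (s + 1) j (x.Sq 1).cls) = 0 ∧
      (D.Survives₄ (s + 1) (fam (s + 1) j (x.Sq 1).cls) ↔
        fam (s + 3) J ((x.Sq 1).Sq 2).cls = 0)
  hcrit : ∀ (t : ℕ), 2 ^ r ∣ t → ∀ X : NZ (s + 1),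
    IsHom t X.1 → D.d₂ (s + 1) (Sq0 (s + 1) (ncl X)) = 0 → ncl (Sq 1 X) = 0
  hS : s + 1 ≤ S
  he : 2 ^ r ∣ e
  hde : 2 ^ (2 * (S + 4) + 1) ∣ e

namespace Dat2

variable {s J r S e : ℕ} {D : Diffs} (h : Dat2 s J r S e D)
include h

theorem de {a : ℕ} (ha : a ≤ S + 4) : 2 ^ (2 * a + 1) ∣ e :=
  dvd_trans (pow_dvd_pow 2 (by omega)) h.hde

theorem crit {X : NZ (s + 1)} (hX : IsHom (2 * e) X.1) :
    D.d₂ (s + 1) (ncl (fr^[J + 1] X)) = 0 ↔ ncl (Sq 1 X) = 0 := by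
  constructor
  · intro h2
    rw [Function.iterate_succ_apply', ← Sq0_fr] at h2
    have h3 := h.hcrit (2 ^ J * (2 * e)) (Dvd.dvd.mul_left (Dvd.dvd.mul_left h.he _) _) _
      (fr_hom hX J) h2
    rw [Sq_iter] at h3
    exact down (a := s + 1 + 1) (c := 2 * (2 * e)) J
      (Dvd.dvd.mul_left (Dvd.dvd.mul_left (h.de (by have := h.hS; omega)) _) _) (Sq 1 X)
      (Sq_hom hX) h3
  · intro h2
    rw [Function.iterate_succ_apply', ← Sq0_fr]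
    have h3 := D.lin.bruner₂ (s + 1) (2 ^ J * (2 * e)) (fr^[J] X)
      (by rw [mul_left_comm]; exact even_two_mul _) (fr_hom hX J)
    have h4 := iter_ncl J (Sq 1 X)
    rw [h2, Pool.Agent.Q171.ND3.St.iter_zero] at h4
    rw [Sq_iter, ← h4, map_zero] at h3
    exact h3

theorem surv {X : NZ (s + 1)} {W : NZ s} (hW : ncl (Sq 1 W) = ncl X) (hWe : IsHom e W.1)
    (hX : IsHom (2 * e) X.1) :
    D.Survives₄ (s + 1) (ncl (fr^[J + 1] X)) ↔ ncl (Sq 2 X) = 0 := by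
  have h0 : ncl (fr^[J + 1] X) = fam (s + 1) (J + 1) ((coc W).Sq 1).cls := by
    have h1 : ((coc W).Sq 1).cls = ncl (Sq 1 W) := rfl
    rw [h1, hW]
    exact (fam_ncl _ _).symm
  rw [h0, (h.hthird e (coc W) hWe (J + 1) (by omega)).2]
  have h1 : ((((coc W).Sq 1).Sq 2).cls) = ncl (Sq 2 X) := by
    have h2 : ((((coc W).Sq 1).Sq 2).cls) = ncl (Sq 2 (Sq 1 W)) := rfl
    rw [h2]
    exact wdq 1 (Sq_hom hWe) hX hW
  rw [h1]
  constructor
  · intro h2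
    have h3 := (fam_ncl J (Sq 2 X)).symm.trans h2
    exact down (a := s + 1 + 2) (c := 2 * (2 * e)) J
      (Dvd.dvd.mul_left (Dvd.dvd.mul_left (h.de (by have := h.hS; omega)) _) _) _
      (Sq_hom hX) h3
  · intro h2
    have h3 := fam_ncl J (Sq 2 X)
    have h4 := iter_ncl J (Sq 2 X)
    rw [h2, Pool.Agent.Q171.ND3.St.iter_zero] at h4
    exact h3.trans h4.symm

end Dat2

/-- equality of classes can be checked on powers -/
theorem down2 {a c : ℕ} (n : ℕ) (hd : 2 ^ (2 * a + 1) ∣ c) {X X' : NZ a}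
    (hX : IsHom c X.1) (hX' : IsHom c X'.1) :
    ncl (fr^[n] X) = ncl (fr^[n] X') ↔ ncl X = ncl X' := by
  constructor
  · intro h
    have h1 : ncl (fr^[n] (X + X')) = 0 := by
      rw [← iter_ncl]
      have h2 : (Sq0 a)^[n] (ncl (X + X')) = (Sq0 a)^[n] (ncl X) + (Sq0 a)^[n] (ncl X') := by
        rw [map_add]
        exact iterate_map_add (Sq0 a) n _ _
      rw [h2, iter_ncl, iter_ncl, h]
      exact self_add _
    have h3 := down n hd (X + X') (hX.add hX') h1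
    rw [map_add] at h3
    exact add_eq_zero_of h3
  · intro h
    rw [← iter_ncl, ← iter_ncl, h]

end Pool.Agent.H749.GS
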