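import Pool.Agent.H749.GS.Prb

/-!
# The classes `h_{K+1} v + h_K² u` which survive to `E₄`
-/

set_option autoImplicit false
set_option linter.unusedSectionVars false

namespace Pool.Agent.H749.GS

open Finset MvPolynomial TensorProduct Pool.Agent.W624.Stz
open Pool.Agent.Q171.ND3.St (IsHom Sq Sq0 fr sqC Diffs fam sq0 Cocycle IsDeg isDeg_iff star_cl
  Sq_fr Sq0_fr Sq_hom Sq_iter Sq0_iter third fr_hom)
open Pool.Agent.Q171.ND3.St renaming Z → NZ, cl → ncl, Ext → NE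
open Pool.Agent.H749.GK.St renaming Z → GZ, cl → gcl, Ext → GE
open Pool.Agent.H749.GK.St (cl_surj cl_zero cl_eq cl_add cupE cupZ cupE_cl rep cl_rep shift)

theorem toN_hom' {s t : ℕ} {τ : ℤ} (hτ : τ = (t : ℤ)) (x : GZ s τ) : IsHom t (toN x).1 := by
  subst hτ
  exact toN_hom x

theorem Sk_ncl (k : ℕ) {s t : ℕ} {τ τ' : ℤ} (hτ : τ = (t : ℤ)) (h : τ' = 2 * τ) (x : GZ s τ) :
    Sk k s h (gcl x) = 0 ↔ ncl (Sq (k + 1) (toN x)) = 0 := by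
  subst hτ
  obtain rfl : τ' = ((2 * t : ℕ) : ℤ) := by rw [h, cast2]
  rw [← iN_Sk k x, iN_zero]

theorem S0_Sk_ncl {s t : ℕ} (v : GZ (s + 1) (t : ℤ)) (u : GZ s (t : ℤ)) :
    S0 (s + 1) (rfl : 2 * (t : ℤ) = 2 * t) (gcl v) = Sk 0 s (rfl : 2 * (t : ℤ) = 2 * t) (gcl u) ↔
      ncl (fr (toN v)) = ncl (Sq 1 (toN u)) := by
  rw [S0_cl, Sk_cl]
  have e : (2 * (t : ℤ)) = ((2 * t : ℕ) : ℤ) := (cast2 t).symm
  constructor
  · intro h
    have h1 := toG_B (gcl_add h)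
    apply ncl_eq
    rw [fr_val, toN_val]
    change _ + sqC 1 s (toN u).1 ∈ _
    rw [toN_val]
    exact h1
  · intro h
    apply cl_eq
    have h1 := ncl_add h
    rw [fr_val, toN_val] at h1
    have h2 : v.1 ^ 2 + sqC 1 s (toN u).1 ∈ Pool.Agent.Q171.ND3.St.B (s + 1) := h1
    have h3 : IsHom (2 * t) (v.1 ^ 2 + sqC 1 s (toN u).1) := by
      have h4 := toN_hom v
      rw [toN_val] at h4
      exact (h4.pow 2).add (Sq_hom (k := 1) (toN_hom u))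
    have h5 := toN_B h3 h2
    rw [toN_val] at h5
    have h6 : v.1 ^ 2 + sqC 1 s u.1 ∈ Pool.Agent.H749.GK.St.B (s + 1) (2 * (t : ℤ)) := by
      rw [e]
      exact h5
    exact h6

variable {s J r S ρ K e R : ℕ} {D : Diffs}

/-- the root of `h_{K+1} v + h_K² u` -/
theorem coreB (h : Dat2 (s + 1) J r S (2 ^ K + e) D) (hx : Cx S ρ K (2 * (e : ℤ)) (e : ℤ))
    (hK : 1 ≤ K) (hA : Ad S R) (hR : 2 ^ R ∣ e) {V : NZ (s + 1)} {U : NZ s}
    (hV : IsHom (2 * e) V.1) (hU : IsHom (2 * e) U.1) {X : NZ (s + 1 + 1)}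
    (hX : X.1 = zt (K + 1) * shift 1 V.1 + zz2 K * shift 2 U.1) :
    (D.d₂ (s + 1 + 1) (ncl (fr^[J + 1] X)) = 0 ↔ ncl (fr V) = ncl (Sq 1 U)) ∧
    (D.Survives₄ (s + 1 + 1) (ncl (fr^[J + 1] X)) ↔
      ncl (fr V) = ncl (Sq 1 U) ∧ ncl (Sq 2 U) = 0 ∧ ncl (Sq 2 V) = 0) := by
  have hS := h.hS
  have ec : ((2 * e : ℕ) : ℤ) = 2 * (e : ℤ) := cast2 e
  -- the classes in the graded model
  set v := toG V hV with hv
  set u := toG U hU with hu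
  have nV : toN v = V := Subtype.ext (by rw [toN_val, hv, toG_val])
  have nU : toN u = U := Subtype.ext (by rw [toN_val, hu, toG_val])
  clear_value v u
  have hs1 : 1 + (s + 1) = s + 1 + 1 := by omega
  have hs2 : 2 + s = s + 1 + 1 := by omega
  have key : ∀ (c₁ : ℤ) (hc₁ : c₁ = 2 * (e : ℤ)) (v : GZ (s + 1) c₁) (u : GZ s c₁), toN v = V →
      toN u = U → (D.d₂ (s + 1 + 1) (ncl (fr^[J + 1] X)) = 0 ↔
        S0 (s + 1) rfl (gcl v) = Sk 0 s rfl (gcl u)) ∧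
      (D.Survives₄ (s + 1 + 1) (ncl (fr^[J + 1] X)) ↔
        S0 (s + 1) rfl (gcl v) = Sk 0 s rfl (gcl u) ∧ Sk 1 s rfl (gcl u) = 0 ∧
          Sk 1 (s + 1) rfl (gcl v) = 0) := by
    rintro c₁ rfl v u nV nU
    set x : GZ (s + 1 + 1) (2 ^ (K + 1) + 2 * (e : ℤ)) :=
      cupZ hs1 ⟨zt (K + 1), zt_Z (K + 1)⟩ v + cupZ hs2 ⟨zz2 K, zz2_Z K⟩ u with hxd
    have hxv : x.1 = zt (K + 1) * shift 1 v.1 + zz2 K * shift 2 u.1 := rfl
    have hxcl : gcl x = mh (K + 1) hs1 (gcl v) + mg K hs2 (gcl u) := by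
      rw [hxd, cl_add, mh, mg, hc, gc, cupE_cl, cupE_cl]
    have nX : toN x = X := by
      apply Subtype.ext
      rw [toN_val, hX, hxv, ← nV, ← nU, toN_val, toN_val]
    clear_value x
    have hE : (2 : ℤ) ^ (K + 1) + 2 * (e : ℤ) = ((2 * (2 ^ K + e) : ℕ) : ℤ) := by
      push_cast; ring
    have hXh : IsHom (2 * (2 ^ K + e)) X.1 := by
      rw [← nX]
      exact toN_hom' hE x
    have hht : (2 : ℤ) ^ (K + 1 + 1) + 2 * (2 * (e : ℤ)) = 2 * (2 ^ (K + 1) + 2 * (e : ℤ)) := by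
      ring
    have c1 : ncl (Sq 1 X) = 0 ↔ Sk 0 (s + 1) rfl (gcl v) = 0 ∧
        S0 (s + 1) rfl (gcl v) = Sk 0 s rfl (gcl u) := by
      rw [← nX, ← Sk_ncl 0 hE hht x, hxcl]
      exact hg_S1 hx hs1 hs2 (by omega) hht
    have c2 : ncl (Sq 2 X) = 0 ↔ Sk 1 (s + 1) rfl (gcl v) = 0 ∧
        Sk 0 (s + 1) rfl (gcl v) = Sk 1 s rfl (gcl u) := by
      rw [← nX, ← Sk_ncl 1 hE hht x, hxcl]
      exact hg_S2 hx hK hs1 hs2 (by omega) hht
    -- the Adem relation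
    have ad : S0 (s + 1) (rfl : 2 * (2 * (e : ℤ)) = 2 * (2 * e)) (gcl v)
        = Sk 0 s (rfl : 2 * (2 * (e : ℤ)) = 2 * (2 * e)) (gcl u) →
        Sk 0 (s + 1) (rfl : 2 * (2 * (e : ℤ)) = 2 * (2 * e)) (gcl v) = 0 := by
      intro h1
      have h2 := Sk_S0 0 (s + 1) (rfl : 2 * (2 * (e : ℤ)) = 2 * (2 * e)) rfl (gcl v)
      rw [h1] at h2
      have h3 := hA s _ _ _ (rfl : 2 * (2 * (e : ℤ)) = 2 * (2 * e)) rfl (by omega) (by positivity)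
        (Dvd.dvd.mul_left (castdvd hR) 2) (gcl u)
      rw [h3] at h2
      exact S0_inj rfl (Dvd.dvd.mul_left (hx.dc (s := s + 1 + 1) (by omega)) 2) h2.symm
    have hd2 := h.crit hXh
    have dd : D.d₂ (s + 1 + 1) (ncl (fr^[J + 1] X)) = 0 ↔
        S0 (s + 1) rfl (gcl v) = Sk 0 s rfl (gcl u) := by
      rw [hd2, c1]
      exact ⟨fun h1 => h1.2, fun h1 => ⟨ad h1, h1⟩⟩
    refine ⟨dd, ?_⟩
    -- the preimage under `Sq¹`
    have pre : S0 (s + 1) (rfl : 2 * (2 * (e : ℤ)) = 2 * (2 * e)) (gcl v)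
        = Sk 0 s (rfl : 2 * (2 * (e : ℤ)) = 2 * (2 * e)) (gcl u) →
        ∃ W : NZ (s + 1), IsHom (2 ^ K + e) W.1 ∧ ncl (Sq 1 W) = ncl X := by
      intro h1
      obtain ⟨u₀, hu₀⟩ := S0_surj (rfl : 2 * (e : ℤ) = 2 * e) (hx.dc0 (s := s) (by omega)) (gcl u)
      have h2 : gcl v = Sk 0 s (rfl : 2 * (e : ℤ) = 2 * e) u₀ := by
        apply add_eq_zero_of
        refine hx.S0i (s := s + 1) (by omega) (rfl : 2 * (2 * (e : ℤ)) = 2 * (2 * e)) ?_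
        rw [map_add, h1, ← hu₀, Sk_S0]
        exact self_add _
      have hh0 : (2 : ℤ) ^ (K + 1) + 2 * (e : ℤ) = 2 * (2 ^ K + (e : ℤ)) := by ring
      obtain ⟨w, hw⟩ := cl_surj (mh K (show 1 + s = s + 1 by omega) u₀)
      have h3 : Sk 0 (s + 1) hh0 (gcl w) = gcl x := by
        rw [hw, mh_S1 _ (rfl : 2 * (e : ℤ) = 2 * e) hh0 hs1 hs2, hu₀, ← h2, hxcl]
      have hE0 : (2 : ℤ) ^ K + (e : ℤ) = ((2 ^ K + e : ℕ) : ℤ) := by push_cast; ring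
      refine ⟨toN w, toN_hom' hE0 w, ?_⟩
      rw [Sk_cl] at h3
      have h4 := toG_B (gcl_add h3)
      rw [← nX]
      apply ncl_eq
      rw [toN_val]
      change sqC 1 (s + 1) (toN w).1 + _ ∈ _
      rw [toN_val]
      exact h4
    constructor
    · intro h1
      have h2 := dd.mp h1.1
      obtain ⟨W, hW, hWX⟩ := pre h2
      obtain ⟨h3, h4⟩ := c2.mp ((h.surv hWX hW hXh).mp h1)
      exact ⟨h2, by rw [← h4]; exact ad h2, h3⟩
    · rintro ⟨h2, h3, h4⟩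
      obtain ⟨W, hW, hWX⟩ := pre h2
      refine (h.surv hWX hW hXh).mpr (c2.mpr ⟨h4, ?_⟩)
      rw [h3]
      exact ad h2
  obtain ⟨k1, k2⟩ := key _ ec v u nV nU
  have e1 := S0_Sk_ncl v u
  rw [nV, nU] at e1
  have e2 := Sk_ncl 1 rfl (rfl : 2 * ((2 * e : ℕ) : ℤ) = 2 * ((2 * e : ℕ) : ℤ)) u
  rw [nU] at e2
  have e3 := Sk_ncl 1 rfl (rfl : 2 * ((2 * e : ℕ) : ℤ) = 2 * ((2 * e : ℕ) : ℤ)) v
  rw [nV] at e3
  rw [e1] at k1
  rw [e1, e2, e3] at k2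
  exact ⟨k1, k2⟩

/-- **The classes `h_{K+1} v + h_K² u`.** -/
theorem prodB (s : ℕ) : ∃ L : ℕ, ∀ (K c : ℕ), L ≤ K → 2 ^ L ∣ c → 2 ^ L * c ≤ 2 ^ K →
    ∀ (D : Diffs) (v : Cocycle (s + 1)) (u : Cocycle s), IsHom c v.val → IsHom c u.val →
    ∀ w : Cocycle (s + 2), w.val = X (0, 0) ^ (2 ^ (K + 1)) * shift 1 v.val
      + X (0, 0) ^ (2 ^ K) * X (1, 0) ^ (2 ^ K) * shift 2 u.val →
    (D.d₂ (s + 2) w.cls = 0 ↔ sq0 (s + 1) v.cls = (u.Sq 1).cls) ∧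
    (D.Survives₄ (s + 2) w.cls ↔ sq0 (s + 1) v.cls = (u.Sq 1).cls ∧ (u.Sq 2).cls = 0 ∧
      (v.Sq 2).cls = 0) := by
  obtain ⟨J, hJ⟩ := third (s + 1)
  obtain ⟨r, hr⟩ := d2crit (s + 1)
  obtain ⟨R, hR⟩ := Ad_of (s + 2)
  refine ⟨J + 2 + (r + R + 2 * s + 30), ?_⟩
  rintro K c hLK ⟨c₁, rfl⟩ hcK D v u hv hu w hw
  obtain ⟨K', rfl⟩ : ∃ K', K = K' + (J + 1) := ⟨K - (J + 1), by omega⟩
  set e := 2 ^ (r + R + 2 * s + 30) * c₁ with he
  have ec : 2 ^ (J + 2 + (r + R + 2 * s + 30)) * c₁ = 2 ^ (J + 1) * (2 * e) := by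
    rw [he, pow_add 2 (J + 2) _, pow_succ 2 (J + 1)]; ring
  have de : 2 ^ (r + R + 2 * s + 30) ∣ e := Dvd.intro _ rfl
  clear_value e
  rw [ec] at hv hu hcK
  obtain ⟨V, hV, hvV⟩ := pull (a := s + 1) (c := 2 * e) (J + 1)
    (Dvd.dvd.mul_left (dvd_trans (pow_dvd_pow 2 (by omega)) de) _) v.toZ hv
  obtain ⟨U, hU, huU⟩ := pull (a := s) (c := 2 * e) (J + 1)
    (Dvd.dvd.mul_left (dvd_trans (pow_dvd_pow 2 (by omega)) de) _) u.toZ hu
  -- the size of `e`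
  obtain ⟨q, hq⟩ : ∃ q, K' + (J + 1) = J + 2 + (r + R + 2 * s + 30) + q :=
    ⟨K' + (J + 1) - (J + 2 + (r + R + 2 * s + 30)), by omega⟩
  have hle : 2 ^ (J + 1) * (2 * e) ≤ 2 ^ q := by
    rw [hq, pow_add 2 (J + 2 + (r + R + 2 * s + 30)) q] at hcK
    exact Nat.le_of_mul_le_mul_left hcK (by positivity)
  have hle2 : 2 * e ≤ 2 ^ q := le_trans (Nat.le_mul_of_pos_left _ (by positivity)) hle
  have hx : Cx (s + 2) (q + 2) K' (2 * (e : ℤ)) (e : ℤ) := by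
    refine ⟨by positivity, rfl, ?_, by omega, castdvd (dvd_trans (pow_dvd_pow 2 (by omega)) de)⟩
    have h1 : ((2 * e : ℕ) : ℤ) ≤ 2 ^ q := by exact_mod_cast hle2
    have h2 : (0 : ℤ) < 2 ^ q := by positivity
    rw [cast2] at h1
    rw [pow_add]
    linarith
  have dK : ∀ m, m ≤ r + R + 2 * s + 30 → 2 ^ m ∣ 2 ^ K' + e := fun m hm =>
    dvd_add (pow_dvd_pow 2 (by omega)) (dvd_trans (pow_dvd_pow 2 hm) de)
  have h2 : Dat2 (s + 1) J r (s + 2) (2 ^ K' + e) D :=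
    ⟨hJ D, hr D, by omega, dK r (by omega), dK _ (by omega)⟩
  -- the root of `w`
  have hWm : zt (K' + 1) * shift 1 V.1 + zz2 K' * shift 2 U.1
      ∈ Pool.Agent.H749.GK.St.Z (s + 1 + 1) (2 ^ (K' + 1) + 2 * (e : ℤ)) := by
    have h3 := (cupZ (show 1 + (s + 1) = s + 1 + 1 by omega) ⟨zt (K' + 1), zt_Z (K' + 1)⟩
      (toG V hV)).2
    have h4 := (cupZ (show 2 + s = s + 1 + 1 by omega) ⟨zz2 K', zz2_Z K'⟩ (toG U hU)).2
    have h5 : zt (K' + 1) * shift 1 (toG V hV).1 + zz2 K' * shift 2 (toG U hU).1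
      ∈ Pool.Agent.H749.GK.St.Z (s + 1 + 1) (2 ^ (K' + 1) + ((2 * e : ℕ) : ℤ)) :=
      Submodule.add_mem _ h3 h4
    rw [toG_val, toG_val, cast2] at h5
    exact h5
  have hXv : (toN ⟨_, hWm⟩ : NZ (s + 1 + 1)).1
      = zt (K' + 1) * shift 1 V.1 + zz2 K' * shift 2 U.1 := toN_val _
  obtain ⟨k1, k2⟩ := coreB h2 hx (by omega) (hR D) (dvd_trans (pow_dvd_pow 2 (by omega)) de) hV hU
    hXv
  have hwX : w.cls = ncl (fr^[J + 1] (toN ⟨_, hWm⟩ : NZ (s + 1 + 1))) := by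
    apply ncl_eq
    rw [fr_iter_val, hXv]
    have e1 : w.toZ.1 = zt (K' + (J + 1) + 1) * shift 1 v.val
        + zz2 (K' + (J + 1)) * shift 2 u.val := by
      rw [zz2, zt, zt, map_pow, Pool.Agent.H749.GK.St.shift_X]
      exact hw
    have e2 : (zt (K' + 1) * shift 1 V.1 + zz2 K' * shift 2 U.1) ^ 2 ^ (J + 1)
        = zt (K' + (J + 1) + 1) * shift 1 (V.1 ^ 2 ^ (J + 1))
          + zz2 (K' + (J + 1)) * shift 2 (U.1 ^ 2 ^ (J + 1)) := by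
      rw [add_pow0, mul_pow, mul_pow, zt_pow, zz2_pow, map_pow, map_pow,
        show K' + 1 + (J + 1) = K' + (J + 1) + 1 by omega]
    have e3 := ncl_add hvV
    have e4 := ncl_add huU
    rw [fr_iter_val] at e3 e4
    have f3 := toN_B (t := 2 ^ (J + 1) * (2 * e)) (by
      have h5 := hV.pow (2 ^ (J + 1))
      exact IsWeightedHomogeneous.add hv h5) e3
    have f4 := toN_B (t := 2 ^ (J + 1) * (2 * e)) (by
      have h5 := hU.pow (2 ^ (J + 1))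
      exact IsWeightedHomogeneous.add hu h5) e4
    have g3 := toG_B (cupB_right (zt_Z (K' + (J + 1) + 1)) f3)
    have g4 := toG_B (cupB_right (zz2_Z (K' + (J + 1))) f4)
    rw [show 1 + (s + 1) = s + 2 by omega] at g3
    rw [show 2 + s = s + 2 by omega] at g4
    have g5 := Submodule.add_mem _ g3 g4
    rw [e1, e2]
    refine (congrArg (fun z => z ∈ Pool.Agent.Q171.ND3.St.B (s + 2)) ?_).mp g5
    rw [map_add, map_add]
    change _ * (shift 1 v.val + _) + _ * (shift 2 u.val + _) = _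
    ring
  have t1 : sq0 (s + 1) v.cls = (u.Sq 1).cls ↔ ncl (fr V) = ncl (Sq 1 U) := by
    have a1 : sq0 (s + 1) v.cls = ncl (fr^[J + 1] (fr V)) := by
      have a2 : v.cls = ncl (fr^[J + 1] V) := hvV
      rw [a2]
      refine (Sq0_fr _).trans (congrArg ncl ?_)
      exact (Function.iterate_succ_apply' Pool.Agent.Q171.ND3.St.fr (J + 1) V).symm.trans
        (Function.iterate_succ_apply Pool.Agent.Q171.ND3.St.fr (J + 1) V)
    have a3 : (u.Sq 1).cls = ncl (fr^[J + 1] (Sq 1 U)) := by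
      rw [← Sq_iter]
      exact wdq 0 (X := u.toZ) (X' := Pool.Agent.Q171.ND3.St.fr^[J + 1] U) hu (fr_hom hU (J + 1)) huU
    rw [a1, a3]
    exact down2 (c := 2 * (2 * e)) (J + 1)
      (Dvd.dvd.mul_left (Dvd.dvd.mul_left (dvd_trans (pow_dvd_pow 2 (by omega)) de) _) _)
      (hV.pow 2) (Sq_hom hU)
  have t2 : ∀ {a : ℕ} (y : Cocycle a) (Y : NZ a), IsHom (2 ^ (J + 1) * (2 * e)) y.val →
      IsHom (2 * e) Y.1 → ncl y.toZ = ncl (fr^[J + 1] Y) → a ≤ s + 1 →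
      ((y.Sq 2).cls = 0 ↔ ncl (Sq 2 Y) = 0) := by
    intro a y Y hy hY hyY ha
    have a3 : (y.Sq 2).cls = ncl (fr^[J + 1] (Sq 2 Y)) := by
      rw [← Sq_iter]
      exact wdq 1 (X := y.toZ) (X' := Pool.Agent.Q171.ND3.St.fr^[J + 1] Y) hy (fr_hom hY (J + 1)) hyY
    rw [a3]
    constructor
    · exact down (c := 2 * (2 * e)) (J + 1)
        (Dvd.dvd.mul_left (Dvd.dvd.mul_left (dvd_trans (pow_dvd_pow 2 (by omega)) de) _) _)
        _ (Sq_hom hY)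
    · intro h3
      rw [← iter_ncl, h3]
      exact Pool.Agent.Q171.ND3.St.iter_zero _
  rw [t1, t2 u U hu hU huU (by omega), t2 v V hv hV hvV le_rfl, hwX]
  exact ⟨k1, k2⟩

end Pool.Agent.H749.GS
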