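import Pool.Agent.H749.GS.Fin

/-!
# Products in the Adams spectral sequence
-/

set_option autoImplicit false
set_option linter.unusedSectionVars false

namespace Pool.Agent.H749.GS

open Finset MvPolynomial TensorProduct Pool.Agent.W624.Stz
open Pool.Agent.Q171.ND3.St (IsHom Sq Sq0 fr sqC Diffs fam sq0 Cocycle IsDeg isDeg_iff star_cl
  Sq_fr Sq0_fr Sq_hom Sq_iter Sq0_iter third fr_hom)
open Pool.Agent.Q171.ND3.St renaming Z → NZ, cl → ncl, Ext → NE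
open Pool.Agent.H749.GK.St renaming Z → GZ, cl → gcl, Ext → GE
open Pool.Agent.H749.GK.St (cl_surj cl_zero cl_eq cl_add cupE cupZ cupE_cl rep cl_rep shift)

theorem ten_zero' {M N : Type*} [AddCommGroup M] [Module (ZMod 2) M] [AddCommGroup N]
    [Module (ZMod 2) N] {x : M} {y : N} : x ⊗ₜ[ZMod 2] y = 0 ↔ x = 0 ∨ y = 0 := by
  constructor
  · intro h
    by_cases hx : x = 0
    · exact Or.inl hx
    · exact Or.inr (ten_zero hx h)
  · rintro (h | h)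
    · rw [h, zero_tmul]
    · rw [h, tmul_zero]

/-- the inclusion of the homogeneous classes -/
noncomputable def iN {s t : ℕ} (α : GE s (t : ℤ)) : NE s := ncl (toN (rep α))

theorem iN_cl {s t : ℕ} (x : GZ s (t : ℤ)) : iN (gcl x) = ncl (toN x) := by
  apply ncl_eq
  rw [toN_val, toN_val]
  exact toG_B (gcl_add (cl_rep (gcl x)))

theorem iN_zero {s t : ℕ} {α : GE s (t : ℤ)} : iN α = 0 ↔ α = 0 := by
  obtain ⟨x, rfl⟩ := cl_surj α
  rw [iN_cl, ncl_zero, cl_zero, toN_val]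
  constructor
  · intro h
    have h1 := toN_hom x
    rw [toN_val] at h1
    exact toN_B h1 h
  · exact toG_B

theorem cast2 (t : ℕ) : ((2 * t : ℕ) : ℤ) = 2 * (t : ℤ) := by push_cast; ring

theorem iN_S0 {s t : ℕ} (α : GE s (t : ℤ)) :
    iN (t := 2 * t) (S0 s (cast2 t) α) = Sq0 s (iN α) := by
  obtain ⟨x, rfl⟩ := cl_surj α
  rw [S0_cl, iN_cl, iN_cl, Sq0_fr]
  congr 1
  apply Subtype.ext
  rw [toN_val, fr_val, toN_val]
  rfl

theorem iN_Sk (k : ℕ) {s t : ℕ} (x : GZ s (t : ℤ)) :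
    iN (t := 2 * t) (Sk k s (cast2 t) (gcl x)) = ncl (Sq (k + 1) (toN x)) := by
  rw [Sk_cl, iN_cl]
  congr 1
  apply Subtype.ext
  rw [toN_val, qZ_val]
  change sqC (k + 1) s x.1 = sqC (k + 1) s (toN x).1
  rw [toN_val]

/-- products are well-defined -/
theorem wdcup {a b t u : ℕ} {x x' : NZ a} {y y' : NZ b} (hx : IsHom t x.1) (hx' : IsHom t x'.1)
    (hy : IsHom u y.1) (hy' : IsHom u y'.1) (h1 : ncl x = ncl x') (h2 : ncl y = ncl y') :
    x.1 * shift a y.1 + x'.1 * shift a y'.1 ∈ Pool.Agent.Q171.ND3.St.B (a + b) := by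
  have e1 : gcl (toG x hx) = gcl (toG x' hx') := by
    apply cl_eq
    rw [toG_val, toG_val]
    exact toN_B (hx.add hx') (ncl_add h1)
  have e2 : gcl (toG y hy) = gcl (toG y' hy') := by
    apply cl_eq
    rw [toG_val, toG_val]
    exact toN_B (hy.add hy') (ncl_add h2)
  have e3 := gcl_add (Pool.Agent.H749.GK.St.cup_congr (rfl : a + b = a + b) e1 e2)
  have v1 : (cupZ (rfl : a + b = a + b) (toG x hx) (toG y hy)).1 = x.1 * shift a y.1 := by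
    change (toG x hx).1 * shift a (toG y hy).1 = _
    rw [toG_val, toG_val]
  have v2 : (cupZ (rfl : a + b = a + b) (toG x' hx') (toG y' hy')).1 = x'.1 * shift a y'.1 := by
    change (toG x' hx').1 * shift a (toG y' hy').1 = _
    rw [toG_val, toG_val]
  rw [v1, v2] at e3
  exact toG_B e3

/-- the criterion for `d₂` -/
theorem crit2 (s : ℕ) : ∃ r : ℕ, ∀ (D : Diffs) (t : ℕ), 2 ^ r ∣ t → ∀ (τ τ' : ℤ)
    (_ : τ = (t : ℤ)) (h : τ' = 2 * τ) (x : GZ (s + 1) τ),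
    D.d₂ (s + 1) (Sq0 (s + 1) (ncl (toN x))) = 0 ↔ Sk 0 (s + 1) h (gcl x) = 0 := by
  obtain ⟨r, hr⟩ := d2crit s
  refine ⟨r + 1, fun D t ht τ τ' hτ h x => ?_⟩
  subst hτ
  obtain rfl : τ' = ((2 * t : ℕ) : ℤ) := by rw [h, cast2]
  have h1 : Sk 0 (s + 1) h (gcl x) = 0 ↔ ncl (Sq 1 (toN x)) = 0 := by
    rw [← iN_Sk 0 x, iN_zero]
  rw [h1]
  constructor
  · exact hr D t (dvd_trans (pow_dvd_pow 2 (by omega)) ht) (toN x) (toN_hom x)
  · intro h2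
    have h3 := D.lin.bruner₂ (s + 1) t (toN x) (even_of_dvd ht) (toN_hom x)
    rw [h2, map_zero] at h3
    exact h3

/-- `Sq¹` of a product -/
theorem cup_S1_zero {a b s ρ : ℕ} {T T' c c' : ℤ} (hs : a + b = s) (hT : T = 2 * T')
    (hc : c = 2 * c') (hd : (2 : ℤ) ^ (ρ + 2 * (s + 1) + 1) ∣ T) (h0 : 0 ≤ c) (h1 : c < 2 ^ ρ)
    (ht : T + c = 2 * (T' + c')) (α : GE a T') (β : GE b c') :
    Sk 0 s ht (cupE hs α β) = 0 ↔
      (Sk 0 a hT α = 0 ∨ S0 b hc β = 0) ∧ (S0 a hT α = 0 ∨ Sk 0 b hc β = 0) := by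
  rw [cup_q1 hs hT hc ht, ← be_cup, ← be_cup, ← KK_sgl (show a + 1 + b = s + 1 by omega),
    ← KK_sgl (show a + (b + 1) = s + 1 by omega), ← KK_add]
  constructor
  · intro h
    have h2 := KK_inj hd h0 h1 h (a := a + 1) (b := b) (by omega)
    have h3 := KK_inj hd h0 h1 h (a := a) (b := b + 1) (by omega)
    rw [sgl_same, sgl_a _ (by omega), add_zero] at h2
    rw [sgl_same, sgl_a _ (by omega), zero_add] at h3
    exact ⟨ten_zero'.mp h2, ten_zero'.mp h3⟩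
  · rintro ⟨h2, h3⟩
    rw [ten_zero'.mpr h2, ten_zero'.mpr h3]
    refine KK_zero fun a' b' _ => ?_
    rw [sgl, sgl, Pi.single_zero, Pi.single_zero, Pi.single_zero, Pi.single_zero]
    exact add_zero 0

theorem castdvd {m n : ℕ} (h : 2 ^ m ∣ n) : (2 : ℤ) ^ m ∣ (n : ℤ) := by exact_mod_cast h

theorem castdvd2 {m n : ℕ} (h : 2 ^ m ∣ 2 * n) : (2 : ℤ) ^ m ∣ 2 * (n : ℤ) := by exact_mod_cast h

/-- **`d₂` of products** -/
theorem prodA (s : ℕ) : ∃ L : ℕ, ∀ (a b n T c : ℕ), a + b = s → L ≤ n → 2 ^ L ∣ c →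
    2 ^ L * c ≤ 2 ^ n → 2 ^ n ∣ T → ∀ (D : Diffs) (y : Cocycle (a + 1)) (v : Cocycle (b + 1)),
    IsHom T y.val → IsHom c v.val → ∀ w : Cocycle (a + 1 + (b + 1)),
    w.val = y.val * shift (a + 1) v.val →
    (D.d₂ (a + 1 + (b + 1)) w.cls = 0 ↔
      y.cls = 0 ∨ v.cls = 0 ∨ (D.d₂ (a + 1) y.cls = 0 ∧ D.d₂ (b + 1) v.cls = 0)) := by
  choose r hr using crit2
  set R := ∑ i ∈ range (s + 2), r i with hR
  have hrR : ∀ i ≤ s + 1, r i ≤ R := fun i hi =>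
    Finset.single_le_sum (f := r) (fun _ _ => Nat.zero_le _) (mem_range.mpr (by omega))
  clear_value R
  refine ⟨R + 2 * s + 20, ?_⟩
  rintro a b n T c hab hLn ⟨c₁, rfl⟩ hcn ⟨T₁, rfl⟩ D y v hy hv w hw
  obtain ⟨n', rfl⟩ : ∃ n', n = n' + 1 := ⟨n - 1, by omega⟩
  set c' := 2 ^ (R + 2 * s + 19) * c₁ with hc'
  set T' := 2 ^ n' * T₁ with hT'
  have ec : 2 ^ (R + 2 * s + 20) * c₁ = 2 * c' := by rw [hc', pow_succ]; ring
  have eT : 2 ^ (n' + 1) * T₁ = 2 * T' := by rw [hT', pow_succ]; ring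
  rw [ec] at hv hcn
  rw [eT] at hy
  have dc : 2 ^ (R + 2 * s + 19) ∣ c' := Dvd.intro _ rfl
  have dT : 2 ^ (R + 2 * s + 19) ∣ T' := Dvd.dvd.mul_right (pow_dvd_pow 2 (by omega)) _
  clear_value c' T'
  obtain ⟨Y, hY, hyY⟩ := pull (a := a + 1) (c := T') 1
    (dvd_trans (pow_dvd_pow 2 (by omega)) dT) y.toZ (by rw [pow_one]; exact hy)
  obtain ⟨V, hV, hvV⟩ := pull (a := b + 1) (c := c') 1
    (dvd_trans (pow_dvd_pow 2 (by omega)) dc) v.toZ (by rw [pow_one]; exact hv)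
  rw [Function.iterate_one] at hyY hvV
  -- the root of the product
  set W : GZ (a + 1 + (b + 1)) ((T' : ℤ) + (c' : ℤ)) :=
    cupZ (rfl : a + 1 + (b + 1) = a + 1 + (b + 1)) (toG Y hY) (toG V hV) with hWd
  have hWv : W.1 = Y.1 * shift (a + 1) V.1 := by
    change (toG Y hY).1 * shift (a + 1) (toG V hV).1 = _
    rw [toG_val, toG_val]
  have hwW : w.cls = Sq0 _ (ncl (toN W)) := by
    rw [Sq0_fr]
    apply ncl_eq
    rw [fr_val, toN_val, hWv]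
    have h1 := wdcup (x := y.toZ) (x' := fr Y) (y := v.toZ) (y' := fr V) hy (hY.pow 2) hv
      (hV.pow 2) hyY hvV
    rw [fr_val, fr_val] at h1
    have e1 : (Y.1 * shift (a + 1) V.1) ^ 2 = Y.1 ^ 2 * shift (a + 1) (V.1 ^ 2) := by
      rw [mul_pow, map_pow]
    rw [e1]
    have e2 : w.toZ.1 = y.toZ.1 * shift (a + 1) v.toZ.1 := hw
    rw [e2]
    exact h1
  have hht : (2 * (T' : ℤ)) + (2 * (c' : ℤ)) = 2 * ((T' : ℤ) + (c' : ℤ)) := by ring
  have hrW := hr (a + 1 + b) D (T' + c')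
    (dvd_add (dvd_trans (pow_dvd_pow 2 (by have := hrR (a + 1 + b) (by omega); omega)) dT)
      (dvd_trans (pow_dvd_pow 2 (by have := hrR (a + 1 + b) (by omega); omega)) dc))
    ((T' : ℤ) + (c' : ℤ)) _ (by push_cast; ring) hht W
  have hcy := hr a D T' (dvd_trans (pow_dvd_pow 2 (by have := hrR a (by omega); omega)) dT)
    (T' : ℤ) _ rfl (rfl : 2 * (T' : ℤ) = 2 * T') (toG Y hY)
  have hcv := hr b D c' (dvd_trans (pow_dvd_pow 2 (by have := hrR b (by omega); omega)) dc)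
    (c' : ℤ) _ rfl (rfl : 2 * (c' : ℤ) = 2 * c') (toG V hV)
  have nY : toN (toG Y hY) = Y := Subtype.ext (by rw [toN_val, toG_val])
  have nV : toN (toG V hV) = V := Subtype.ext (by rw [toN_val, toG_val])
  rw [nY] at hcy
  rw [nV] at hcv
  have ey : y.cls = Sq0 _ (ncl Y) := hyY.trans (Sq0_fr Y).symm
  have ev : v.cls = Sq0 _ (ncl V) := hvV.trans (Sq0_fr V).symm
  have zy : y.cls = 0 ↔ S0 (a + 1) (rfl : 2 * (T' : ℤ) = 2 * T') (gcl (toG Y hY)) = 0 := by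
    have h1 := iN_S0 (gcl (toG Y hY))
    rw [iN_cl, nY] at h1
    rw [ey, ← h1, iN_zero]
  have zv : v.cls = 0 ↔ S0 (b + 1) (rfl : 2 * (c' : ℤ) = 2 * c') (gcl (toG V hV)) = 0 := by
    have h1 := iN_S0 (gcl (toG V hV))
    rw [iN_cl, nV] at h1
    rw [ev, ← h1, iN_zero]
  have iy : S0 (a + 1) (rfl : 2 * (T' : ℤ) = 2 * T') (gcl (toG Y hY)) = 0 →
      Sk 0 (a + 1) (rfl : 2 * (T' : ℤ) = 2 * T') (gcl (toG Y hY)) = 0 := by
    intro h
    have dT2 : (2 : ℤ) ^ (2 * (a + 1) + 1) ∣ (T' : ℤ) :=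
      castdvd (dvd_trans (pow_dvd_pow 2 (show 2 * (a + 1) + 1 ≤ R + 2 * s + 19 by omega)) dT)
    rw [S0_inj rfl dT2 h, map_zero]
  have iv : S0 (b + 1) (rfl : 2 * (c' : ℤ) = 2 * c') (gcl (toG V hV)) = 0 →
      Sk 0 (b + 1) (rfl : 2 * (c' : ℤ) = 2 * c') (gcl (toG V hV)) = 0 := by
    intro h
    have dc2 : (2 : ℤ) ^ (2 * (b + 1) + 1) ∣ (c' : ℤ) :=
      castdvd (dvd_trans (pow_dvd_pow 2 (show 2 * (b + 1) + 1 ≤ R + 2 * s + 19 by omega)) dc)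
    rw [S0_inj rfl dc2 h, map_zero]
  -- the size of `c`
  obtain ⟨q, hq⟩ : ∃ q, n' + 1 = (R + 2 * s + 20) + q := ⟨n' + 1 - (R + 2 * s + 20), by omega⟩
  have hcq : 2 * c' ≤ 2 ^ q := by
    rw [hq, pow_add 2 (R + 2 * s + 20) q] at hcn
    exact Nat.le_of_mul_le_mul_left hcn (by positivity)
  have hcq2 : (2 : ℤ) * (c' : ℤ) < 2 ^ (q + 1) := by
    have h1 : ((2 * c' : ℕ) : ℤ) ≤ 2 ^ q := by exact_mod_cast hcq
    have h2 : (0 : ℤ) < 2 ^ q := by positivity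
    push_cast at h1
    rw [pow_succ]
    linarith
  have hdT : (2 : ℤ) ^ (q + 1 + 2 * (a + 1 + (b + 1) + 1) + 1) ∣ 2 * (T' : ℤ) := by
    have h1 : 2 ^ (q + 1 + 2 * (a + 1 + (b + 1) + 1) + 1) ∣ 2 * T' := by
      rw [← eT, hq]
      exact Dvd.dvd.mul_right (pow_dvd_pow 2 (by omega)) _
    exact castdvd2 h1
  have hfin := cup_S1_zero (ρ := q + 1) (rfl : a + 1 + (b + 1) = a + 1 + (b + 1))
    (rfl : 2 * (T' : ℤ) = 2 * T') (rfl : 2 * (c' : ℤ) = 2 * c') hdT (by positivity) hcq2 hht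
    (gcl (toG Y hY)) (gcl (toG V hV))
  rw [cupE_cl] at hfin
  rw [hwW, zy, zv, ey, ev, hcy, hcv]
  refine (hrW.trans hfin).trans ?_
  constructor
  · rintro ⟨h1, h2⟩
    rcases h1 with h1 | h1
    · rcases h2 with h2 | h2
      · exact Or.inl h2
      · exact Or.inr (Or.inr ⟨h1, h2⟩)
    · exact Or.inr (Or.inl h1)
  · rintro (h1 | h1 | ⟨h1, h2⟩)
    · exact ⟨Or.inl (iy h1), Or.inl h1⟩
    · exact ⟨Or.inr h1, Or.inr (iv h1)⟩
    · exact ⟨Or.inl h1, Or.inr h2⟩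

end Pool.Agent.H749.GS
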