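import Pool.Agent.H749.GS.Ops

/-!
# Products with `h_K` and `h_K²`, and the operations on them
-/

set_option autoImplicit false
set_option linter.unusedSectionVars false

namespace Pool.Agent.H749.GS

open Finset MvPolynomial TensorProduct Pool.Agent.H749.GK.St Pool.Agent.W624.Stz
  Pool.Agent.H749.GK.KA
open Pool.Agent.Q171.ND3.St (ev0 ev1 faces sqC mem_ev0 mem_ev1 par)

/-! ### Cochain level -/

theorem cupB_left {a b : ℕ} {t u : ℤ} {x y : P} (hy : y ∈ Z b u) (hx : x ∈ B a t) :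
    x * shift a y ∈ B (a + b) (t + u) := by
  have hxZ : x ∈ Z a t := by
    obtain ⟨v, hv, rfl⟩ := mem_B.mp hx
    exact ⟨dp_C hv, LinearMap.mem_ker.mpr (d_dp hv)⟩
  exact cup_left rfl (x := ⟨x, hxZ⟩) ⟨y, hy⟩ hx

theorem cupB_right {a b : ℕ} {t u : ℤ} {x y : P} (hx : x ∈ Z a t) (hy : y ∈ B b u) :
    x * shift a y ∈ B (a + b) (t + u) := by
  have hyZ : y ∈ Z b u := by
    obtain ⟨v, hv, rfl⟩ := mem_B.mp hy
    exact ⟨dp_C hv, LinearMap.mem_ker.mpr (d_dp hv)⟩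
  exact cup_right rfl ⟨x, hx⟩ (y := ⟨y, hyZ⟩) hy

theorem cop2 : coprod 0 2 = (X (0, 1) + X (0, 0) ^ 2 * X (1, 0) + X (1, 1) : P) := by
  rw [coprod, sum_range_succ, sum_range_succ, sum_range_one]
  simp [Pool.Agent.H749.GK.St.ξ]

/-- `h_{K+1} h_K = 0` -/
theorem rel1 (K : ℕ) : zt (K + 1) * shift 1 (zt K) ∈ B 2 (2 ^ (K + 1) + 2 ^ K) := by
  have hC : (X (0, 1) ^ 2 ^ K : P) ∈ C 1 (2 ^ (K + 1) + 2 ^ K) := by
    have h0 : (X (0, 1) : P) ∈ C 1 3 := by
      refine ⟨X_mem_supported.mpr (show (0 : ℕ) < 1 by omega), ?_⟩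
      have h := isWeightedHomogeneous_X (ZMod 2) wt (0, 1)
      have h2 : wt (0, 1) = 3 := by simp [wt]
      rw [h2] at h
      exact h
    have h1 := pow_C K h0
    rwa [show (2 : ℤ) ^ K * 3 = 2 ^ (K + 1) + 2 ^ K by ring] at h1
  refine mem_B_of hC ?_
  rw [d_pow]
  have h1 : d 1 (X (0, 1)) = (zt 1 * shift 1 (zt 0) : P) := by
    rw [d_apply, sum_range_succ, sum_range_succ, sum_range_one, face_zero, shift_X]
    have h2 : face 1 (X (0, 1)) = coprod 0 2 := by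
      rw [face, aeval_X]
      simp only
      rw [if_neg (by omega), if_pos trivial]
    have h3 : face 2 (X (0, 1)) = (X (0, 1) : P) := by
      rw [face, aeval_X]
      simp only
      rw [if_pos (by omega)]
    rw [h2, h3, cop2, zt, zt, pow_zero, pow_one, pow_one, shift_X]
    simp only [Nat.add_zero]
    have h4 := GS.ch2 (X (0, 1) : P)
    have h5 := GS.ch2 (X (1, 1) : P)
    linear_combination h4 + h5
  rw [h1, mul_pow, ← map_pow, zt, zt, zt, zt, ← pow_mul, ← pow_mul, ← pow_add, ← pow_add,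
    zero_add, add_comm 1 K]

/-- `h_K h_{K+1} = 0` -/
theorem rel2 (K : ℕ) : zt K * shift 1 (zt (K + 1)) ∈ B 2 (2 ^ (K + 1) + 2 ^ K) := by
  have hC : ((X (0, 0) ^ 3) ^ 2 ^ K : P) ∈ C 1 (2 ^ (K + 1) + 2 ^ K) := by
    have h0 : (X (0, 0) ^ 3 : P) ∈ C 1 3 := by
      have h9 : (X (0, 0) : P) ∈ Sup 1 := X_mem_supported.mpr (show (0 : ℕ) < 1 by omega)
      refine ⟨Subalgebra.pow_mem _ h9 _, ?_⟩
      have h := (isWeightedHomogeneous_X (ZMod 2) wt (0, 0)).pow 3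
      have h2 : 3 • wt (0, 0) = 3 := by simp [wt]
      rw [h2] at h
      exact h
    have h1 := pow_C K h0
    rwa [show (2 : ℤ) ^ K * 3 = 2 ^ (K + 1) + 2 ^ K by ring] at h1
  have h3 : d 1 ((X (0, 0) ^ 3) ^ 2 ^ K : P) = zt K * shift 1 (zt (K + 1))
      + zt (K + 1) * shift 1 (zt K) := by
    rw [d_pow]
    have h1 : d 1 (X (0, 0) ^ 3 : P) = zt 0 * shift 1 (zt 1) + zt 1 * shift 1 (zt 0) := by
      have hf1 : face 1 (X (0, 0)) = (X (0, 0) + X (1, 0) : P) := by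
        have := face1_zt 0
        rw [zt, pow_zero, pow_one, shift_X] at this
        exact this
      have hf2 : face 2 (X (0, 0)) = (X (0, 0) : P) := by
        have := face2_zt 0 0
        rwa [zt, pow_zero, pow_one] at this
      rw [d_apply, sum_range_succ, sum_range_succ, sum_range_one, face_zero, map_pow, map_pow,
        map_pow, hf1, hf2, shift_X, zt, zt, pow_zero, pow_one, pow_one, map_pow, shift_X]
      simp only [Nat.add_zero]
      have h4 := GS.ch2 (X (0, 0) ^ 3 : P)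
      have h5 := GS.ch2 (X (1, 0) ^ 3 : P)
      have h6 := GS.ch2 (X (0, 0) * X (1, 0) ^ 2 + X (0, 0) ^ 2 * X (1, 0) : P)
      linear_combination h4 + h5 + h6
    rw [h1, add_pow0, mul_pow, mul_pow, ← map_pow, ← map_pow, zt, zt, zt, zt, ← pow_mul, ← pow_mul,
      ← pow_add, ← pow_add, zero_add, add_comm 1 K]
  have h4 := mem_B_of hC h3
  have h5 := Submodule.add_mem _ h4 (rel1 K)
  have h6 := GS.ch2 (zt (K + 1) * shift 1 (zt K))
  rwa [add_assoc, h6, add_zero] at h5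

theorem shift2 (y : P) : shift 1 (shift 1 y) = shift 2 y := shift_shift 1 y

theorem shift_comp (a b : ℕ) (f : P) : shift a (shift b f) = shift (a + b) f := by
  have : (shift a).comp (shift b) = shift (a + b) := by
    apply algHom_ext
    rintro ⟨c, n⟩
    rw [AlgHom.comp_apply, shift_X, shift_X, shift_X]
    simp only
    rw [add_assoc]
  exact DFunLike.congr_fun this f

theorem zz2_mul (m : ℕ) (y : P) : zz2 m * shift 2 y = zt m * shift 1 (zt m * shift 1 y) := by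
  rw [zz2, map_mul, shift2, mul_assoc]

theorem sq1_zt (m : ℕ) : sqC 1 1 (zt m) = zz2 m := by
  rw [sq1_eq, E2_succ, E2_succ, E2_succ, PS_zero, PS_succ, PS_zero, PS_succ, PS_succ, PS_zero]
  have h : E2 0 (fun j => face j (zt m)) = 0 := by simp [E2]
  have e1 : Even (0 + 1) ↔ False := by decide
  have e2 : Even (0 + 2) ↔ True := by decide
  have e3 : Even (1 + 2) ↔ False := by decide
  simp only [h, e1, e2, e3, if_true, if_false, face_zero, zero_add, add_zero, mul_zero]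
  rw [face2_zt 0, zz2]

/-- `Sq^(k+1)` of `h_m x` -/
theorem cartan_B {k s m : ℕ} {t : ℤ} {x : P} (hx : x ∈ Z s t) :
    sqC (k + 1) (s + 1) (zt m * shift 1 x) + (zt (m + 1) * shift 1 (sqC (k + 1) s x)
      + zz2 m * shift 2 (sqC k s x)) ∈ B (s + k + 2) (2 * (2 ^ m + t)) := by
  have h := cartan k s m x (LinearMap.mem_ker.mp hx.2)
  have hw := (ztmul_Z (m := m) hx).1
  have hC : cup 1 (k + 1) k (s + k + 2) (zt m * shift 1 x) (shift 1 (zt m * shift 1 x))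
      + cup 1 (k + 1) (k + 1) (s + k + 2) (zt m * shift 1 x) (zt m * shift 1 x)
      ∈ C (s + k + 1 + 1) (2 * (2 ^ m + t)) := by
    rw [two_mul]
    refine Submodule.add_mem _ ?_ ?_
    · have h1 := shift_C (a := 1) hw
      exact cup_C hw h1 (by omega) (by omega)
    · exact cup_C hw hw (by omega) (by omega)
  refine mem_B_of (e0_C hC) ?_
  rw [zz2_mul, h]
  have h1 := GS.ch2 (zt (m + 1) * shift 1 (sqC (k + 1) s x) + zt m * shift 1 (zt m * shift 1
    (sqC k s x)))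
  linear_combination -h1

/-- `g h_{K+1} = 0` -/
theorem gh_B (K : ℕ) : zz2 K * shift 2 (zt (K + 1)) ∈ B 3 (2 ^ (K + 2)) := by
  rw [zz2_mul]
  have h2 := cupB_right (zt_Z K) (rel2 K)
  rwa [show (2 : ℤ) ^ K + (2 ^ (K + 1) + 2 ^ K) = 2 ^ (K + 2) by ring] at h2

/-- `h_{K+1} g = 0` -/
theorem hg_B (K : ℕ) : zt (K + 1) * shift 1 (zz2 K) ∈ B 3 (2 ^ (K + 2)) := by
  have h2 := cupB_left (zt_Z K) (rel1 K)
  have h3 : zt (K + 1) * shift 1 (zt K) * shift 2 (zt K) = zt (K + 1) * shift 1 (zz2 K) := by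
    rw [zz2, map_mul, shift2, mul_assoc]
  rw [h3] at h2
  rwa [show (2 : ℤ) ^ (K + 1) + 2 ^ K + 2 ^ K = 2 ^ (K + 2) by ring] at h2

/-- the class of `g = h_K²` satisfies `Sq¹ g = 0` -/
theorem sq1_zz2 (K : ℕ) : sqC 1 2 (zz2 K) ∈ B 3 (2 ^ (K + 2)) := by
  have h := q1_mul (a := 1) (b := 1) (zt_C K).1 (d1_zt K) (d1_zt K)
  have h1 : sqC 1 2 (zz2 K) = zz2 K * shift 2 (zt (K + 1)) + zt (K + 1) * shift 1 (zz2 K) := by
    have h2 : sqC 1 2 (zz2 K) = sqC 1 1 (zt K) * shift 2 (zt K ^ 2)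
      + zt K ^ 2 * shift 1 (sqC 1 1 (zt K)) := h
    rw [h2, sq1_zt, pow_two, zt_sq]
  rw [h1]
  exact Submodule.add_mem _ (gh_B K) (hg_B K)

/-- `Sq¹ (g u) = Sq⁰ g Sq¹ u` -/
theorem q1_zz2 {K s : ℕ} {t : ℤ} {u : P} (hu : u ∈ Z s t) :
    sqC 1 (s + 2) (zz2 K * shift 2 u) + zz2 (K + 1) * shift 2 (sqC 1 s u)
      ∈ B (s + 3) (2 * (2 ^ (K + 1) + t)) := by
  have hg := zz2_Z K
  have h := q1_mul (a := 2) (b := s) hg.1.1 (LinearMap.mem_ker.mp hg.2)
    (LinearMap.mem_ker.mp hu.2)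
  rw [show s + 2 = 2 + s by omega, h, zz2_sq, add_assoc, GS.ch2, add_zero]
  have h1 := cupB_left (sq_Z hu) (sq1_zz2 K)
  rw [show (2 : ℤ) ^ (K + 2) + 2 * t = 2 * (2 ^ (K + 1) + t) by ring,
    show 3 + s = s + 3 by omega] at h1
  exact h1

/-- `Sq² (g u) = Sq⁰ g Sq² u + g² Sq⁰ u` -/
theorem q2_zz2 {K s : ℕ} {t : ℤ} {u : P} (hu : u ∈ Z s t) :
    sqC 2 (s + 2) (zz2 K * shift 2 u) + (zz2 (K + 1) * shift 2 (sqC 2 s u)
      + (zz2 K * shift 2 (zz2 K)) * shift 4 (u ^ 2)) ∈ B (s + 4) (2 * (2 ^ (K + 1) + t)) := by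
  set x := zt K * shift 1 u with hx
  have hxZ : x ∈ Z (s + 1) (2 ^ K + t) := ztmul_Z hu
  have hzx : zz2 K * shift 2 u = zt K * shift 1 x := zz2_mul K u
  have c1 := cartan_B (k := 1) (m := K) hxZ
  have c2 := cartan_B (k := 1) (m := K) hu
  have c3 := cartan_B (k := 0) (m := K) hu
  have hq0 : sqC 0 s u = u ^ 2 := by
    rw [sqC_cup, cup, SU]
    have h1 : ((range (s + 0 + 1)).powerset.filter fun W => (ev0 W).card = 0 ∧ (ev1 W).card = 0)
        = {∅} := by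
      ext W
      rw [mem_filter, mem_powerset, mem_singleton]
      constructor
      · rintro ⟨_, h2, h3⟩
        rw [card_eq_zero] at h2 h3
        rw [← Pool.Agent.Q171.ND3.St.ev0_union W, h2, h3, union_empty]
      · rintro rfl
        refine ⟨empty_subset _, ?_, ?_⟩
        · rfl
        · rfl
    rw [h1, sum_singleton, pow_two]
    have h2 : ev0 ∅ = ∅ := rfl
    have h3 : ev1 ∅ = ∅ := rfl
    rw [h2, h3, fA_empty]
  rw [hq0] at c3
  have eT : (2 : ℤ) * (2 ^ K + (2 ^ K + t)) = 2 * (2 ^ (K + 1) + t) := by ring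
  -- multiply `c2` by `h_{K+1}` and `c3` by `g`
  have m2 := cupB_right (zt_Z (K + 1)) c2
  have m3 := cupB_right (zz2_Z K) c3
  have z2 : zt (K + 1) * shift 1 (sqC 2 (s + 1) x + (zt (K + 1) * shift 1 (sqC 2 s u)
      + zz2 K * shift 2 (sqC 1 s u))) = zt (K + 1) * shift 1 (sqC 2 (s + 1) x)
      + zz2 (K + 1) * shift 2 (sqC 2 s u)
      + (zt (K + 1) * shift 1 (zz2 K)) * shift 3 (sqC 1 s u) := by
    rw [map_add, map_add, map_mul, map_mul, shift_comp 1 2, zz2_mul, map_mul, shift2]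
    ring
  have z3 : zz2 K * shift 2 (sqC 1 (s + 1) x + (zt (K + 1) * shift 1 (sqC 1 s u)
      + zz2 K * shift 2 (u ^ 2))) = zz2 K * shift 2 (sqC 1 (s + 1) x)
      + (zz2 K * shift 2 (zt (K + 1))) * shift 3 (sqC 1 s u)
      + (zz2 K * shift 2 (zz2 K)) * shift 4 (u ^ 2) := by
    rw [map_add, map_add, map_mul, map_mul, shift_comp 2 1, shift_comp 2 2]
    ring
  have hq1 : sqC 1 s u ∈ Z (s + 1) (2 * t) := sqC_Z (k := 1) hu
  have r2 := cupB_left hq1 (hg_B K)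
  have r3 := cupB_left hq1 (gh_B K)
  rw [z2] at m2
  rw [z3] at m3
  rw [show 1 + (s + 1 + 2) = s + 4 by omega, show (2 : ℤ) ^ (K + 1) + 2 * (2 ^ K + t)
    = 2 * (2 ^ (K + 1) + t) by ring] at m2
  rw [show 2 + (s + 0 + 2) = s + 4 by omega, show (2 : ℤ) ^ (K + 1) + 2 * (2 ^ K + t)
    = 2 * (2 ^ (K + 1) + t) by ring] at m3
  rw [show 3 + (s + 1) = s + 4 by omega, show (2 : ℤ) ^ (K + 2) + 2 * t
    = 2 * (2 ^ (K + 1) + t) by ring] at r2 r3
  rw [eT, ← hzx] at c1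
  have h := Submodule.add_mem _ (Submodule.add_mem _ (Submodule.add_mem _ c1 m2) m3)
    (Submodule.add_mem _ r2 r3)
  have e1 := GS.ch2 (zt (K + 1) * shift 1 (sqC 2 (s + 1) x))
  have e2 := GS.ch2 (zz2 K * shift 2 (sqC 1 (s + 1) x))
  have e3 := GS.ch2 ((zz2 K * shift 2 (zt (K + 1))) * shift 3 (sqC 1 s u))
  have e4 := GS.ch2 ((zt (K + 1) * shift 1 (zz2 K)) * shift 3 (sqC 1 s u))
  refine (congrArg (fun w => w ∈ B (s + 4) (2 * (2 ^ (K + 1) + t))) ?_).mp h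
  linear_combination e1 + e2 + e3 + e4

end Pool.Agent.H749.GS
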