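import Pool.Agent.H749.GS.Car

/-!
# `Sq¹` of a product
-/

set_option autoImplicit false
set_option linter.unusedSectionVars false

namespace Pool.Agent.H749.GS

open Finset MvPolynomial Pool.Agent.H749.GK.St Pool.Agent.W624.Stz
open Pool.Agent.Q171.ND3.St (ev0 ev1 faces sqC mem_ev0 mem_ev1 par)

section ring

variable {R : Type*} [CommRing R]

/-- the sum over the indices of one parity -/
def PS (n ε : ℕ) (X : ℕ → R) : R := ∑ i ∈ range n with Even (i + ε), X i

/-- the sum over the pairs of the same parity -/
def E2 (n : ℕ) (X : ℕ → R) : R := ∑ j ∈ range n, X j * PS j j X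

theorem PS_succ (n ε : ℕ) (X : ℕ → R) :
    PS (n + 1) ε X = PS n ε X + if Even (n + ε) then X n else 0 := by
  rw [PS, PS, sum_filter, sum_filter, sum_range_succ]

theorem E2_succ (n : ℕ) (X : ℕ → R) : E2 (n + 1) X = E2 n X + X n * PS n n X := by
  rw [E2, E2, sum_range_succ]

theorem PS_zero (ε : ℕ) (X : ℕ → R) : PS 0 ε X = 0 := by simp [PS]

theorem PS_par (n ε : ℕ) (X : ℕ → R) : PS n ε X + PS n (ε + 1) X = ∑ i ∈ range n, X i := by
  induction n with
  | zero => simp [PS]
  | succ n ih =>
    rw [PS_succ, PS_succ, sum_range_succ, ← ih]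
    by_cases h : Even (n + ε)
    · have h1 : ¬ Even (n + (ε + 1)) := by rw [← add_assoc, Nat.even_add_one]; exact not_not.mpr h
      rw [if_pos h, if_neg h1]
      ring
    · have h1 : Even (n + (ε + 1)) := by rw [← add_assoc, Nat.even_add_one]; exact h
      rw [if_neg h, if_pos h1]
      ring

theorem PS_two (n ε : ℕ) (X : ℕ → R) : PS n (ε + 2) X = PS n ε X := by
  unfold PS
  congr 1
  ext i
  simp only [mem_filter, and_congr_right_iff]
  intro _
  rw [← add_assoc, Nat.even_add]
  simp

theorem PS_congr (n ε : ℕ) {X X' : ℕ → R} (h : ∀ i < n, X i = X' i) : PS n ε X = PS n ε X' := by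
  unfold PS
  refine sum_congr rfl fun i hi => ?_
  rw [mem_filter, mem_range] at hi
  exact h i hi.1

theorem E2_congr (n : ℕ) {X X' : ℕ → R} (h : ∀ i < n, X i = X' i) : E2 n X = E2 n X' := by
  unfold E2
  refine sum_congr rfl fun i hi => ?_
  rw [mem_range] at hi
  rw [h i hi, PS_congr i i fun j hj => h j (by omega)]

/-- the faces of a product -/
def FY (a : ℕ) (Y V : ℕ → R) (j : ℕ) : R := if j ≤ a then Y j * V 0 else Y (a + 1) * V (j - a)

theorem PS_mulr (n ε : ℕ) (X : ℕ → R) (c : R) : PS n ε (fun i => X i * c) = PS n ε X * c := by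
  rw [PS, PS, sum_mul]

theorem E2_mulr (n : ℕ) (X : ℕ → R) (c : R) : E2 n (fun i => X i * c) = E2 n X * c ^ 2 := by
  rw [E2, E2, sum_mul]
  refine sum_congr rfl fun i _ => ?_
  rw [PS_mulr]
  ring

variable (h2 : ∀ a : R, a + a = 0)
include h2

theorem E2_prod (a : ℕ) (Y V : ℕ → R) (m : ℕ) :
    (∀ ε, PS (a + 1 + m) ε (FY a Y V) = PS (a + 1) ε Y * V 0
      + Y (a + 1) * (PS (m + 1) (ε + a) V + if Even (ε + a) then V 0 else 0)) ∧
    E2 (a + 1 + m) (FY a Y V) = E2 (a + 1) Y * V 0 ^ 2 + Y (a + 1) ^ 2 * E2 (m + 1) V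
      + Y (a + 1) ^ 2 * V 0 * (PS (m + 1) 0 V + V 0)
      + Y (a + 1) * V 0 * ((PS (m + 1) 0 V + V 0) * PS (a + 1) a Y
        + PS (m + 1) 1 V * PS (a + 1) (a + 1) Y) := by
  have hlow : ∀ i < a + 1, FY a Y V i = Y i * V 0 := fun i hi => if_pos (by omega)
  induction m with
  | zero =>
    constructor
    · intro ε
      rw [add_zero, PS_congr _ _ hlow, PS_mulr, PS_succ 0 (ε + a) V, PS_zero, zero_add, zero_add,
        h2, mul_zero, add_zero]
    · have e1 : PS (0 + 1) 0 V = V 0 := by
        rw [PS_succ, PS_zero, zero_add]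
        simp
      have e2 : PS (0 + 1) 1 V = 0 := by
        rw [PS_succ, PS_zero, zero_add]
        simp
      have e3 : E2 (0 + 1) V = 0 := by
        rw [E2_succ, PS_zero, mul_zero, add_zero]
        simp [E2]
      rw [add_zero, E2_congr _ hlow, E2_mulr, e1, e2, e3, h2]
      ring
  | succ m ih =>
    obtain ⟨ih1, ih2⟩ := ih
    have hF : FY a Y V (a + 1 + m) = Y (a + 1) * V (m + 1) := by
      rw [FY, if_neg (by omega), show a + 1 + m - a = m + 1 by omega]
    constructor
    · intro ε
      rw [← add_assoc, PS_succ, ih1, PS_succ (m + 1), hF]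
      have h : Even (a + 1 + m + ε) ↔ Even (m + 1 + (ε + a)) := by
        rw [show a + 1 + m + ε = m + 1 + (ε + a) by ring]
      by_cases hc : Even (m + 1 + (ε + a))
      · rw [if_pos hc, if_pos (h.mpr hc)]
        ring
      · rw [if_neg hc, if_neg (fun e => hc (h.mp e))]
        ring
    · rw [← add_assoc, E2_succ, ih2, ih1, hF, E2_succ (m + 1) V, PS_succ (m + 1) 0,
        PS_succ (m + 1) 1]
      have hpar : ∀ n ε, PS n (ε + 2) Y = PS n ε Y := fun n ε => PS_two n ε Y
      rcases Nat.even_or_odd m with hm | hm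
      · -- `m` even
        obtain ⟨k, rfl⟩ := hm
        have e1 : PS (k + k + 1) (a + 1 + (k + k) + a) V = PS (k + k + 1) (k + k + 1) V := by
          have : ∀ i, PS (k + k + 1) (k + k + 1 + 2 * i) V = PS (k + k + 1) (k + k + 1) V := by
            intro i
            induction i with
            | zero => rfl
            | succ i ih => rw [mul_add, ← add_assoc, mul_one, PS_two, ih]
          rw [← this a]
          congr 1
          ring
        have e2 : PS (a + 1) (a + 1 + (k + k)) Y = PS (a + 1) (a + 1) Y := by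
          have : ∀ i, PS (a + 1) (a + 1 + 2 * i) Y = PS (a + 1) (a + 1) Y := by
            intro i
            induction i with
            | zero => rfl
            | succ i ih => rw [mul_add, ← add_assoc, mul_one, PS_two, ih]
          rw [← this k]
          congr 1
          ring
        have c1 : ¬ Even (a + 1 + (k + k) + a) := by
          rw [Nat.not_even_iff_odd]
          exact ⟨a + k, by ring⟩
        have c2 : ¬ Even (k + k + 1 + 0) := by
          rw [Nat.not_even_iff_odd]
          exact ⟨k, by ring⟩
        have c3 : Even (k + k + 1 + 1) := ⟨k + 1, by ring⟩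
        rw [e1, e2, if_neg c1, if_neg c2, if_pos c3]
        ring
      · obtain ⟨k, rfl⟩ := hm
        have e1 : PS (2 * k + 1 + 1) (a + 1 + (2 * k + 1) + a) V
            = PS (2 * k + 1 + 1) (2 * k + 1 + 1) V := by
          have : ∀ i, PS (2 * k + 1 + 1) (2 * k + 1 + 1 + 2 * i) V
              = PS (2 * k + 1 + 1) (2 * k + 1 + 1) V := by
            intro i
            induction i with
            | zero => rfl
            | succ i ih => rw [mul_add, ← add_assoc, mul_one, PS_two, ih]
          rw [← this a]
          congr 1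
          ring
        have e0 : PS (2 * k + 1 + 1) (2 * k + 1 + 1) V = PS (2 * k + 1 + 1) 0 V := by
          have : ∀ i, PS (2 * k + 1 + 1) (0 + 2 * i) V = PS (2 * k + 1 + 1) 0 V := by
            intro i
            induction i with
            | zero => rfl
            | succ i ih => rw [mul_add, ← add_assoc, mul_one, PS_two, ih]
          rw [← this (k + 1)]
          congr 1
          ring
        have e2 : PS (a + 1) (a + 1 + (2 * k + 1)) Y = PS (a + 1) a Y := by
          have : ∀ i, PS (a + 1) (a + 2 * i) Y = PS (a + 1) a Y := by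
            intro i
            induction i with
            | zero => rfl
            | succ i ih => rw [mul_add, ← add_assoc, mul_one, PS_two, ih]
          rw [← this (k + 1)]
          congr 1
          ring
        have c1 : Even (a + 1 + (2 * k + 1) + a) := ⟨a + k + 1, by ring⟩
        have c2 : Even (2 * k + 1 + 1 + 0) := ⟨k + 1, by ring⟩
        have c3 : ¬ Even (2 * k + 1 + 1 + 1) := by
          rw [Nat.not_even_iff_odd]
          exact ⟨k + 1, by ring⟩
        rw [e1, e2, if_pos c1, if_pos c2, if_neg c3]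
        ring

/-- the formula for the products of two closed families -/
theorem E2_main (a b : ℕ) (Y V : ℕ → R) (hY : ∑ i ∈ range (a + 2), Y i = 0)
    (hV : ∑ i ∈ range (b + 2), V i = 0) :
    E2 (a + b + 2) (FY a Y V) = E2 (a + 2) Y * V 0 ^ 2 + Y (a + 1) ^ 2 * E2 (b + 2) V := by
  have h1 := (E2_prod h2 a Y V (b + 1)).2
  rw [show a + 1 + (b + 1) = a + b + 2 by ring, show b + 1 + 1 = b + 2 by ring] at h1
  have h3 := PS_par (b + 2) 0 V
  rw [hV, zero_add] at h3
  have h4 := PS_par (a + 1) a Y
  have h5 : ∑ i ∈ range (a + 1), Y i + Y (a + 1) = 0 := by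
    rw [← sum_range_succ]; exact hY
  rw [h1, E2_succ (a + 1) Y]
  have h6 : PS (b + 2) 1 V = - PS (b + 2) 0 V := by linear_combination h3
  have h7 : PS (a + 1) a Y = - PS (a + 1) (a + 1) Y - Y (a + 1) := by
    linear_combination h4 + h5
  rw [h6, h7]
  have c1 := h2 (Y (a + 1) ^ 2 * V 0 * (PS (b + 2) 0 V + V 0))
  have c2 := h2 (Y (a + 1) * V 0 * PS (b + 2) 0 V * PS (a + 1) (a + 1) Y)
  have c3 := h2 (Y (a + 1) * V 0 ^ 2 * PS (a + 1) (a + 1) Y)
  have c4 := h2 (Y (a + 1) ^ 2 * V 0 ^ 2)
  linear_combination -c2 - c3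

end ring

/-- the sets which occur in `Sq¹` -/
theorem pair_ev {i j : ℕ} (hij : i < j) :
    ((ev0 {i, j}).card = 1 ∧ (ev1 {i, j}).card = 1 ↔ Even (i + j)) ∧
    (Even (i + j) → ∀ f : Finset ℕ → P, f (ev0 {i, j}) * f (ev1 {i, j}) = f {i} * f {j}) := by
  have p1 : par {i, j} i = i := by
    rw [par]
    have : ({i, j} : Finset ℕ).filter (· < i) = ∅ := by
      ext u
      simp only [mem_filter, mem_insert, mem_singleton, notMem_empty, iff_false, not_and, not_lt]
      rintro (rfl | rfl) <;> omega
    rw [this]
    rfl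
  have p2 : par {i, j} j = j + 1 := by
    rw [par]
    have : ({i, j} : Finset ℕ).filter (· < j) = {i} := by
      ext u
      simp only [mem_filter, mem_insert, mem_singleton]
      constructor
      · rintro ⟨rfl | rfl, h⟩
        · rfl
        · omega
      · rintro rfl
        exact ⟨Or.inl rfl, hij⟩
    rw [this, card_singleton]
  have hne : i ≠ j := by omega
  rcases Nat.even_or_odd i with hi | hi <;> rcases Nat.even_or_odd j with hj | hj
  · have e0 : ev0 {i, j} = {i} := by
      ext u
      simp only [mem_ev0, mem_insert, mem_singleton]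
      constructor
      · rintro ⟨rfl | rfl, h⟩
        · rfl
        · rw [p2, Nat.even_add_one] at h
          exact absurd hj h
      · rintro rfl
        exact ⟨Or.inl rfl, by rw [p1]; exact hi⟩
    have e1 : ev1 {i, j} = {j} := by
      ext u
      simp only [mem_ev1, mem_insert, mem_singleton]
      constructor
      · rintro ⟨rfl | rfl, h⟩
        · rw [p1] at h
          exact absurd hi h
        · rfl
      · rintro rfl
        exact ⟨Or.inr rfl, by rw [p2, Nat.even_add_one]; exact not_not.mpr hj⟩
    rw [e0, e1]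
    exact ⟨⟨fun _ => hi.add hj, fun _ => ⟨card_singleton _, card_singleton _⟩⟩, fun _ f => rfl⟩
  · have e0 : ev1 {i, j} = ∅ := by
      ext u
      rw [mem_ev1, mem_insert, mem_singleton]
      simp only [notMem_empty, iff_false, not_and, not_not]
      rintro (rfl | rfl)
      · rw [p1]; exact hi
      · rw [p2]; exact hj.add_one
    have h1 : ¬ Even (i + j) := by
      rw [Nat.not_even_iff_odd]
      exact hi.add_odd hj
    refine ⟨⟨fun h => ?_, fun h => absurd h h1⟩, fun h => absurd h h1⟩
    rw [e0, card_empty] at h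
    omega
  · have e0 : ev0 {i, j} = ∅ := by
      ext u
      rw [mem_ev0, mem_insert, mem_singleton]
      simp only [notMem_empty, iff_false, not_and]
      rintro (rfl | rfl)
      · rw [p1]; exact Nat.not_even_iff_odd.mpr hi
      · rw [p2, Nat.even_add_one]; exact not_not.mpr hj
    have h1 : ¬ Even (i + j) := by
      rw [Nat.not_even_iff_odd]
      exact hi.add_even hj
    refine ⟨⟨fun h => ?_, fun h => absurd h h1⟩, fun h => absurd h h1⟩
    rw [e0, card_empty] at h
    omega
  · have e0 : ev0 {i, j} = {j} := by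
      ext u
      simp only [mem_ev0, mem_insert, mem_singleton]
      constructor
      · rintro ⟨rfl | rfl, h⟩
        · rw [p1] at h
          exact absurd h (Nat.not_even_iff_odd.mpr hi)
        · rfl
      · rintro rfl
        exact ⟨Or.inr rfl, by rw [p2]; exact hj.add_one⟩
    have e1 : ev1 {i, j} = {i} := by
      ext u
      simp only [mem_ev1, mem_insert, mem_singleton]
      constructor
      · rintro ⟨rfl | rfl, h⟩
        · rfl
        · rw [p2] at h
          exact absurd hj.add_one h
      · rintro rfl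
        exact ⟨Or.inl rfl, by rw [p1]; exact Nat.not_even_iff_odd.mpr hi⟩
    rw [e0, e1]
    exact ⟨⟨fun _ => hi.add_odd hj, fun _ => ⟨card_singleton _, card_singleton _⟩⟩,
      fun _ f => mul_comm _ _⟩

theorem faces_single (j : ℕ) (x : P) : faces {j} x = face j x := by
  have h4 : faces {j} x = face j (faces ∅ x) := by
    rw [← faces_insert' (by simp)]
    rfl
  rw [h4]
  congr 1
  rw [faces]
  simp

/-- `Sq¹` as the sum over pairs -/
theorem sq1_eq (s : ℕ) (x : P) : sqC 1 s x = E2 (s + 2) (fun j => face j x) := by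
  unfold sqC E2 PS
  simp only [mul_sum]
  rw [sum_sigma']
  symm
  refine sum_bij (fun p _ => {p.2, p.1}) ?_ ?_ ?_ ?_
  · rintro ⟨j, i⟩ h
    simp only [mem_sigma, mem_range, mem_filter] at h
    obtain ⟨hj, hi, he⟩ := h
    rw [mem_filter, mem_powerset]
    refine ⟨?_, (pair_ev hi).1.mpr he⟩
    intro u hu
    simp only [mem_insert, mem_singleton] at hu
    rw [mem_range]
    omega
  · rintro ⟨j, i⟩ h ⟨j', i'⟩ h' e
    simp only [mem_sigma, mem_range, mem_filter] at h h'
    have e1 : ∀ u, (u = i ∨ u = j) ↔ (u = i' ∨ u = j') := by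
      intro u
      have := Finset.ext_iff.mp e u
      simpa only [mem_insert, mem_singleton] using this
    have h1 := (e1 i).mp (Or.inl rfl)
    have h2 := (e1 j).mp (Or.inr rfl)
    have h3 := (e1 i').mpr (Or.inl rfl)
    have h4 := (e1 j').mpr (Or.inr rfl)
    have h5 : i = i' := by omega
    have h6 : j = j' := by omega
    subst h5 h6
    rfl
  · intro U hU
    rw [mem_filter, mem_powerset] at hU
    obtain ⟨hU, h0, h1⟩ := hU
    have hc : U.card = 2 := by
      have h3 := card_union_of_disjoint (Pool.Agent.Q171.ND3.St.ev0_disj U)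
      rw [Pool.Agent.Q171.ND3.St.ev0_union, h0, h1] at h3
      exact h3
    obtain ⟨a, b, hab, rfl⟩ := card_eq_two.mp hc
    rcases Nat.lt_or_gt_of_ne hab with h | h
    · refine ⟨⟨b, a⟩, ?_, rfl⟩
      simp only [mem_sigma, mem_range, mem_filter]
      exact ⟨mem_range.mp (hU (by simp)), h, (pair_ev h).1.mp ⟨h0, h1⟩⟩
    · refine ⟨⟨a, b⟩, ?_, ?_⟩
      · simp only [mem_sigma, mem_range, mem_filter]
        rw [pair_comm] at h0 h1
        exact ⟨mem_range.mp (hU (by simp)), h, (pair_ev h).1.mp ⟨h0, h1⟩⟩
      · exact pair_comm _ _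
  · rintro ⟨j, i⟩ h
    simp only [mem_sigma, mem_range, mem_filter] at h
    obtain ⟨hj, hi, he⟩ := h
    have := (pair_ev hi).2 he (fun A => faces A x)
    simp only at this ⊢
    rw [this, faces_single, faces_single, mul_comm]

/-- the faces of a shift -/
theorem face_shift (a j : ℕ) (f : P) :
    face j (shift a f) = if j ≤ a then shift a (face 0 f) else shift a (face (j - a) f) := by
  by_cases h : j ≤ a
  · rw [if_pos h]
    have : (face j).comp (shift a) = (shift a).comp (face 0) := by
      apply algHom_ext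
      rintro ⟨b, n⟩
      rw [AlgHom.comp_apply, AlgHom.comp_apply, shift_X, face, face, aeval_X, aeval_X]
      simp only
      rw [if_neg (by omega), if_neg (by omega), if_neg (by omega), if_neg (by omega), shift_X]
      simp only
      rw [show a + (b + 1) = a + b + 1 by omega]
    exact DFunLike.congr_fun this f
  · rw [if_neg h]
    obtain ⟨i, rfl⟩ : ∃ i, j = a + (i + 1) := ⟨j - a - 1, by omega⟩
    rw [Nat.add_sub_cancel_left]
    have hx : ∀ b m, shift a (Pool.Agent.H749.GK.St.ξ b m)
        = Pool.Agent.H749.GK.St.ξ (a + b) m := by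
      intro b m
      cases m with
      | zero => exact map_one _
      | succ m => exact shift_X a (b, m)
    have : (face (a + (i + 1))).comp (shift a) = (shift a).comp (face (i + 1)) := by
      apply algHom_ext
      rintro ⟨b, n⟩
      rw [AlgHom.comp_apply, AlgHom.comp_apply, shift_X, face, face, aeval_X, aeval_X]
      simp only
      by_cases h1 : b + 1 < i + 1
      · rw [if_pos (by omega), if_pos h1, shift_X]
      · rw [if_neg (by omega), if_neg h1]
        by_cases h2 : b + 1 = i + 1
        · rw [if_pos (by omega), if_pos h2, coprod, coprod, map_sum]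
          refine sum_congr rfl fun l _ => ?_
          rw [map_mul, map_pow, hx, hx, show a + (b + 1) = a + b + 1 by omega]
        · rw [if_neg (by omega), if_neg h2, shift_X]
          simp only
          rw [show a + (b + 1) = a + b + 1 by omega]
    exact DFunLike.congr_fun this f

theorem face_ge {s j : ℕ} {x : P} (hx : x ∈ Sup s) (hj : s < j) : face j x = x := by
  have h1 : Sup s ≤ AlgHom.equalizer (face j) (AlgHom.id (ZMod 2) P) := by
    rw [Sup, supported]
    refine Algebra.adjoin_le ?_
    rintro _ ⟨p, hp, rfl⟩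
    have hp' : p.1 < s := hp
    change face j (X p) = X p
    rw [face, aeval_X, if_pos (by omega)]
  exact h1 hx

/-- **`Sq¹` of a product.** -/
theorem q1_mul {a b : ℕ} {x y : P} (hx : x ∈ Sup a) (hdx : d a x = 0) (hdy : d b y = 0) :
    sqC 1 (a + b) (x * shift a y)
      = sqC 1 a x * shift (a + 1) (y ^ 2) + x ^ 2 * shift a (sqC 1 b y) := by
  have hF : ∀ j < a + b + 2, face j (x * shift a y)
      = FY a (fun j => face j x) (fun j => shift a (face j y)) j := by
    intro j _
    rw [map_mul, face_shift, FY]
    by_cases h : j ≤ a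
    · rw [if_pos h, if_pos h]
    · rw [if_neg h, if_neg h, face_ge hx (by omega), face_ge hx (by omega)]
  have hY : ∑ i ∈ range (a + 2), face i x = 0 := by rw [← d_apply]; exact hdx
  have hV : ∑ i ∈ range (b + 2), shift a (face i y) = 0 := by
    rw [← map_sum, ← d_apply, hdy, map_zero]
  rw [sq1_eq, sq1_eq, sq1_eq, E2_congr _ hF, E2_main GS.ch2 a b _ _ hY hV, face_ge hx (by omega)]
  congr 1
  · congr 1
    beta_reduce
    rw [face_zero, shift_shift, map_pow]
  · congr 1
    rw [E2, E2, map_sum]
    refine sum_congr rfl fun j _ => ?_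
    rw [PS, PS, map_mul, map_sum]

end Pool.Agent.H749.GS
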