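import Pool.Agent.H749.GS.Lv

/-!
# The inductive steps
-/

set_option autoImplicit false
set_option linter.unusedSectionVars false

namespace Pool.Agent.H749.GS

open Finset MvPolynomial TensorProduct Pool.Agent.H749.GK.St Pool.Agent.W624.Stz
  Pool.Agent.H749.GK.KA
open Pool.Agent.Q171.ND3.St (ev0 ev1 faces sqC mem_ev0 mem_ev1 par)

/-- conditions on `T = 2^(K+1)` and `c = 2 c₀` -/
structure Cx (S ρ K : ℕ) (c c₀ : ℤ) : Prop where
  c00 : 0 ≤ c₀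
  cc : c = 2 * c₀
  cr : 2 * c < 2 ^ ρ
  hK : ρ + 2 * (S + 4) + 1 ≤ K
  dv : (2 : ℤ) ^ (2 * (S + 4) + 1) ∣ c₀

/-- the lines below `n` vanish -/
def Vn (S n : ℕ) (c : ℤ) : Prop := ∀ i, i < n → i ≤ S → ∀ α : Ext i c, α = 0
/-- `Sq¹` is injective on the line `n` -/
def I1 (n : ℕ) (c : ℤ) : Prop := ∀ (t' : ℤ) (h : t' = 2 * c) (α : Ext n c), Sk 0 n h α = 0 → α = 0
/-- `Sq²` is injective on the line `n` -/
def I2 (n : ℕ) (c : ℤ) : Prop := ∀ (t' : ℤ) (h : t' = 2 * c) (α : Ext n c), Sk 1 n h α = 0 → α = 0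
/-- a condition on the lines `n`, `n + 1` -/
def Rn (n : ℕ) (c : ℤ) : Prop := ∀ (t' : ℤ) (h : t' = 2 * c) (u : Ext (n + 1) c) (w : Ext n c),
  Sk 1 (n + 1) h u = 0 → Sk 0 (n + 1) h u = Sk 1 n h w → u = 0
/-- `Sq²` is injective on the line `n + 1` -/
def Qn (n : ℕ) (c : ℤ) : Prop :=
  ∀ (t' : ℤ) (h : t' = 2 * c) (u : Ext (n + 1) c), Sk 1 (n + 1) h u = 0 → u = 0
/-- no class on the line `s` is killed by `Sq¹` and `Sq²` -/
def Wn (s : ℕ) (c : ℤ) : Prop := ∀ (t' : ℤ) (h : t' = 2 * c) (α : Ext s c),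
  Sk 0 s h α = 0 → Sk 1 s h α = 0 → α = 0

variable {S ρ K : ℕ} {c c₀ : ℤ}

theorem KK_z {T c : ℤ} (s : ℕ) : KK s (0 : FT T c) = 0 := KK_zero fun _ _ _ => rfl

theorem add_eq_zero_of {M : Type*} [AddCommGroup M] [Module (ZMod 2) M] {a b : M}
    (h : a + b = 0) : a = b := by
  have h1 : b + b = 0 := by
    rw [← two_smul (ZMod 2) b, show (2 : ZMod 2) = 0 from rfl, zero_smul]
  calc a = a + (b + b) := by rw [h1, add_zero]
    _ = (a + b) + b := by abel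
    _ = b := by rw [h, zero_add]

theorem self_add {M : Type*} [AddCommGroup M] [Module (ZMod 2) M] (b : M) : b + b = 0 := by
  rw [← two_smul (ZMod 2) b, show (2 : ZMod 2) = 0 from rfl, zero_smul]

namespace Cx

variable (hx : Cx S ρ K c c₀)
include hx

theorem c0 : 0 ≤ c := by have := hx.c00; have := hx.cc; omega

theorem cr1 : c < 2 ^ ρ := by have := hx.c0; have := hx.cr; omega

theorem dT {s : ℕ} (hs : s ≤ S + 4) : (2 : ℤ) ^ (ρ + 2 * s + 1) ∣ 2 ^ (K + 1) :=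
  pow_dvd_pow 2 (by have := hx.hK; omega)

theorem dT' {s : ℕ} (hs : s ≤ S + 4) : (2 : ℤ) ^ (ρ + 2 * s + 1) ∣ 2 ^ (K + 1 + 1) :=
  pow_dvd_pow 2 (by have := hx.hK; omega)

theorem dc {s : ℕ} (hs : s ≤ S + 4) : (2 : ℤ) ^ (2 * s + 1) ∣ c := by
  rw [hx.cc]
  exact Dvd.dvd.mul_left (dvd_trans (pow_dvd_pow 2 (by omega)) hx.dv) 2

theorem dc0 {s : ℕ} (hs : s ≤ S + 4) : (2 : ℤ) ^ (2 * s + 1) ∣ c₀ :=
  dvd_trans (pow_dvd_pow 2 (by omega)) hx.dv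

theorem eT {t' : ℤ} (h : t' = 2 * (2 ^ (K + 1) + c)) : t' = 2 ^ (K + 1 + 1) + 2 * c := by
  rw [h]; ring

/-- the separation of components in the degree `T + c` -/
theorem sepT {b s : ℕ} (hs : s ≤ S + 4) (hs1 : 1 + (b + 1) = s) (hs2 : 2 + b = s)
    {v : Ext (b + 1) c} {u : Ext b c} {F : FT (2 ^ (K + 1)) c} (hF : Hi 2 F)
    (h : mh (K + 1) hs1 v + mg K hs2 u + KK s F = 0) :
    v = 0 ∧ u = 0 ∧ ∀ a b', a + b' = s → F a b' = 0 :=
  sep (hx.dT hs) hx.c0 hx.cr1 hs1 hs2 hF h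

/-- the separation of components in the degree `2 T + 2 c` -/
theorem sepD {b s : ℕ} (hs : s ≤ S + 4) (hs1 : 1 + (b + 1) = s) (hs2 : 2 + b = s)
    {v : Ext (b + 1) (2 * c)} {u : Ext b (2 * c)} {F : FT (2 ^ (K + 1 + 1)) (2 * c)} (hF : Hi 2 F)
    (h : mh (K + 1 + 1) hs1 v + mg (K + 1) hs2 u + KK s F = 0) :
    v = 0 ∧ u = 0 ∧ ∀ a b', a + b' = s → F a b' = 0 :=
  sep (hx.dT' hs) (by have := hx.c0; omega) hx.cr hs1 hs2 hF h

theorem V_step {n : ℕ} (hV : Vn S n c) : Vn S (n + 1) (2 ^ (K + 1) + c) := by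
  intro i hi hiS α
  obtain ⟨F, rfl⟩ := KK_surj (hx.dT (s := i) (by omega)) hx.c0 hx.cr1 α
  refine KK_zero fun a b hab => ?_
  rcases Nat.eq_zero_or_pos a with h0 | h0
  · subst h0
    exact ten_left (E0_zero (pow_ne _)) _
  · exact ten_right (hV b (by omega) (by omega)) _

/-- classes on the lowest line -/
theorem low1 {n s : ℕ} (hV : Vn S n c) (hs : 1 + n = s) (hn : s ≤ S + 1)
    (α : Ext s (2 ^ (K + 1) + c)) : ∃ v : Ext n c, α = mh (K + 1) hs v := by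
  obtain ⟨v, F, hF, rfl⟩ := dec1 (hx.dT (by omega)) hx.c0 hx.cr1 hs α
  refine ⟨v, ?_⟩
  rw [KK_zero, add_zero]
  intro a b hab
  by_cases ha : a ≤ 1
  · exact hF a b ha
  · exact ten_right (hV b (by omega) (by omega)) _

/-- classes on the second line -/
theorem low2 {n s : ℕ} (hV : Vn S n c) (hs1 : 1 + (n + 1) = s) (hs2 : 2 + n = s)
    (hn : s ≤ S + 1) (α : Ext s (2 ^ (K + 1) + c)) :
    ∃ (v : Ext (n + 1) c) (u : Ext n c), α = mh (K + 1) hs1 v + mg K hs2 u := by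
  obtain ⟨v, u, F, hF, rfl⟩ := dec2 (hx.dT (by omega)) hx.c0 hx.cr1 hs1 hs2 α
  refine ⟨v, u, ?_⟩
  rw [KK_zero, add_zero]
  intro a b hab
  by_cases ha : a ≤ 2
  · exact hF a b ha
  · exact ten_right (hV b (by omega) (by omega)) _

theorem S0i {s : ℕ} (hs : s ≤ S + 4) {t' : ℤ} (h : t' = 2 * c) {α : Ext s c}
    (hα : S0 s h α = 0) : α = 0 := S0_inj h (hx.dc hs) hα

theorem I1_step {n : ℕ} (hV : Vn S n c) (hn : n + 1 ≤ S) : I1 (n + 1) (2 ^ (K + 1) + c) := by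
  intro t' h α hα
  obtain rfl := hx.eT h
  obtain ⟨v, rfl⟩ := hx.low1 hV (show 1 + n = n + 1 by omega) (by omega) α
  rw [mh_S1 _ rfl h (show 1 + (n + 1) = n + 1 + 1 by omega) (show 2 + n = n + 1 + 1 by omega)] at hα
  have h1 := hx.sepD (s := n + 1 + 1) (F := 0) (by omega) _ _ (fun _ _ _ => rfl)
    (by rw [hα, zero_add]; exact KK_zero fun _ _ _ => rfl)
  rw [hx.S0i (by omega) rfl h1.2.1, mh_zero]

theorem I2_step {n : ℕ} (hV : Vn S n c) (hI : I1 n c) (hn : n + 1 ≤ S) :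
    I2 (n + 1) (2 ^ (K + 1) + c) := by
  intro t' h α hα
  obtain rfl := hx.eT h
  obtain ⟨v, rfl⟩ := hx.low1 hV (show 1 + n = n + 1 by omega) (by omega) α
  rw [mh_S2 _ rfl h (show 1 + (n + 1 + 1) = n + 1 + 1 + 1 by omega)
    (show 2 + (n + 1) = n + 1 + 1 + 1 by omega)] at hα
  have h1 := hx.sepD (s := n + 1 + 1 + 1) (F := 0) (by omega) _ _ (fun _ _ _ => rfl)
    (by rw [hα, zero_add]; exact KK_zero fun _ _ _ => rfl)
  rw [hI _ rfl v h1.2.1, mh_zero]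

theorem R_step {n : ℕ} (hV : Vn S n c) (hI : I2 n c) (hn : n + 2 ≤ S) :
    Rn (n + 1) (2 ^ (K + 1) + c) := by
  intro t' h α β h2 h12
  obtain rfl := hx.eT h
  obtain ⟨v, u, rfl⟩ := hx.low2 hV (show 1 + (n + 1) = n + 1 + 1 by omega)
    (show 2 + n = n + 1 + 1 by omega) (by omega) α
  obtain ⟨w, rfl⟩ := hx.low1 hV (show 1 + n = n + 1 by omega) (by omega) β
  have e1 : (2 : ℤ) ^ (K + 1 + 1) + 2 * c = 2 * (2 ^ (K + 1) + c) := h
  rw [map_add, mh_S2 _ rfl h (show 1 + (n + 1 + 1 + 1) = n + 1 + 1 + 1 + 1 by omega)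
    (show 2 + (n + 1 + 1) = n + 1 + 1 + 1 + 1 by omega),
    mg_S2 _ rfl h (show 2 + (n + 1 + 1) = n + 1 + 1 + 1 + 1 by omega)
    (show 4 + n = n + 1 + 1 + 1 + 1 by omega), ← be_cup, ← KK_sgl (by omega)] at h2
  rw [map_add, mh_S1 _ rfl h (show 1 + (n + 1 + 1) = n + 1 + 1 + 1 by omega)
    (show 2 + (n + 1) = n + 1 + 1 + 1 by omega),
    mg_S1 _ rfl h (show 2 + (n + 1) = n + 1 + 1 + 1 by omega),
    mh_S2 _ rfl h (show 1 + (n + 1 + 1) = n + 1 + 1 + 1 by omega)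
    (show 2 + (n + 1) = n + 1 + 1 + 1 by omega)] at h12
  have h3 := hx.sepD (s := n + 1 + 1 + 1 + 1) (b := n + 1 + 1) (by omega) (by omega) (by omega)
    (F := sgl 4 n (fc (K) ⊗ₜ[ZMod 2] S0 n rfl u)) (fun a b ha => sgl_a _ (by omega) b)
    (v := Sk 1 (n + 1) rfl v) (u := Sk 0 (n + 1) rfl v + Sk 1 n rfl u)
    (by rw [← h2, mg_add]; abel)
  have h4 := hx.sepD (s := n + 1 + 1 + 1) (b := n + 1) (by omega) (by omega) (by omega) (F := 0) (fun _ _ _ => rfl)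
    (v := Sk 0 (n + 1) rfl v + Sk 1 n rfl w)
    (u := S0 (n + 1) rfl v + Sk 0 n rfl u + Sk 0 n rfl w)
    (by
      have e2 := congrArg (fun z => z + (mh (K + 1 + 1)
        (show 1 + (n + 1 + 1) = n + 1 + 1 + 1 by omega) (Sk 1 n rfl w) + mg (K + 1)
        (show 2 + (n + 1) = n + 1 + 1 + 1 by omega) (Sk 0 n rfl w))) h12
      simp only [self_add] at e2
      rw [KK_z, add_zero, mh_add, mg_add, mg_add, ← e2]
      abel)
  have h5 : Sk 1 n rfl (u + w) = 0 := by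
    rw [map_add, ← add_eq_zero_of h3.2.1, h4.1]
  have h6 : u = w := add_eq_zero_of (hI _ rfl _ h5)
  have h7 : v = 0 := by
    refine hx.S0i (by omega) rfl ?_
    have h8 := h4.2.1
    rw [h6, add_assoc, self_add, add_zero] at h8
    exact h8
  have h8 : u = 0 := by
    refine hI _ rfl _ ?_
    rw [← add_eq_zero_of h3.2.1, h7, map_zero]
  rw [h7, h8, mh_zero, mg_zero, add_zero]

/-- the `Sq²` of a class on the second line -/
theorem S2_low2 {n s : ℕ} (hs1 : 1 + (n + 1) = s) (hs2 : 2 + n = s) (hn : s ≤ S + 2)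
    (h : (2 : ℤ) ^ (K + 1 + 1) + 2 * c = 2 * (2 ^ (K + 1) + c))
    {v : Ext (n + 1) c} {u : Ext n c}
    (h2 : Sk 1 s h (mh (K + 1) hs1 v + mg K hs2 u) = 0) :
    Sk 1 (n + 1) rfl v = 0 ∧ Sk 0 (n + 1) rfl v = Sk 1 n rfl u := by
  obtain rfl : s = n + 1 + 1 := by omega
  rw [map_add, mh_S2 _ rfl h (show 1 + (n + 1 + 1 + 1) = n + 1 + 1 + 1 + 1 by omega)
    (show 2 + (n + 1 + 1) = n + 1 + 1 + 1 + 1 by omega),
    mg_S2 _ rfl h (show 2 + (n + 1 + 1) = n + 1 + 1 + 1 + 1 by omega)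
    (show 4 + n = n + 1 + 1 + 1 + 1 by omega), ← be_cup, ← KK_sgl (by omega)] at h2
  have h3 := hx.sepD (s := n + 1 + 1 + 1 + 1) (b := n + 1 + 1) (by omega) (by omega) (by omega)
    (F := sgl 4 n (fc (K) ⊗ₜ[ZMod 2] S0 n rfl u)) (fun a b ha => sgl_a _ (by omega) b)
    (v := Sk 1 (n + 1) rfl v) (u := Sk 0 (n + 1) rfl v + Sk 1 n rfl u)
    (by rw [← h2, mg_add]; abel)
  exact ⟨h3.1, add_eq_zero_of h3.2.1⟩

theorem Q_step {n : ℕ} (hV : Vn S n c) (hI : I2 n c) (hR : Rn n c) (hn : n + 2 ≤ S) :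
    Qn (n + 1) (2 ^ (K + 1) + c) := by
  intro t' h α h2
  obtain rfl := hx.eT h
  obtain ⟨v, u, rfl⟩ := hx.low2 hV (show 1 + (n + 1) = n + 1 + 1 by omega)
    (show 2 + n = n + 1 + 1 by omega) (by omega) α
  obtain ⟨h3, h4⟩ := hx.S2_low2 _ _ (by omega) h h2
  have h5 := hR _ rfl v u h3 h4
  have h6 : u = 0 := by
    refine hI _ rfl _ ?_
    rw [← h4, h5, map_zero]
  rw [h5, h6, mh_zero, mg_zero, add_zero]

theorem W2 {n : ℕ} (hV : Vn S n c) (hI : I2 n c) (hn : n + 2 ≤ S) :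
    Wn (n + 2) (2 ^ (K + 1) + c) := by
  intro t' h α h1 h2
  obtain rfl := hx.eT h
  obtain ⟨v, u, rfl⟩ := hx.low2 hV (show 1 + (n + 1) = n + 2 by omega)
    (show 2 + n = n + 2 by omega) (by omega) α
  obtain ⟨h3, h4⟩ := hx.S2_low2 _ _ (by omega) h h2
  rw [map_add, mh_S1 _ rfl h (show 1 + (n + 1 + 1) = n + 2 + 1 by omega)
    (show 2 + (n + 1) = n + 2 + 1 by omega),
    mg_S1 _ rfl h (show 2 + (n + 1) = n + 2 + 1 by omega)] at h1
  have h5 := hx.sepD (s := n + 2 + 1) (b := n + 1) (by omega) (by omega) (by omega) (F := 0) (fun _ _ _ => rfl)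
    (v := Sk 0 (n + 1) rfl v) (u := S0 (n + 1) rfl v + Sk 0 n rfl u)
    (by rw [KK_z, add_zero, mg_add, ← h1]; abel)
  have h6 : u = 0 := by
    refine hI _ rfl _ ?_
    rw [← h4, h5.1]
  have h7 : v = 0 := by
    refine hx.S0i (by omega) rfl ?_
    have h8 := h5.2.1
    rwa [h6, map_zero, add_zero] at h8
  rw [h7, h6, mh_zero, mg_zero, add_zero]

end Cx

end Pool.Agent.H749.GS
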