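import Pool.Agent.H749.GS.Stp

/-!
# The inductive steps: the third line, and the cohomology of `Sq¹`
-/

set_option autoImplicit false
set_option linter.unusedSectionVars false

namespace Pool.Agent.H749.GS

open Finset MvPolynomial TensorProduct Pool.Agent.H749.GK.St Pool.Agent.W624.Stz
  Pool.Agent.H749.GK.KA
open Pool.Agent.Q171.ND3.St (ev0 ev1 faces sqC mem_ev0 mem_ev1 par)

/-- in low degrees the classes killed by `Sq¹` are in the image of `Sq¹` -/
def Hb (S n : ℕ) (c c₀ : ℤ) (hcc : c = 2 * c₀) : Prop :=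
  (0 < n → ∀ (t' : ℤ) (h : t' = 2 * c) (α : Ext 0 c), Sk 0 0 h α = 0 → α = 0) ∧
  ∀ i, i + 1 < n → i + 1 ≤ S → ∀ (t' : ℤ) (h : t' = 2 * c) (α : Ext (i + 1) c),
    Sk 0 (i + 1) h α = 0 → ∃ z : Ext i c₀, Sk 0 i hcc z = α

/-- the Adem relation `Sq¹ Sq¹ = 0` -/
def Ad (S R : ℕ) : Prop := ∀ (a : ℕ) (t t' t'' : ℤ) (h : t' = 2 * t) (h' : t'' = 2 * t'), a ≤ S →
  0 ≤ t → (2 : ℤ) ^ R ∣ t → ∀ x : Ext a t, Sk 0 (a + 1) h' (Sk 0 a h x) = 0

section DT

variable {T c T' c' : ℤ} (hT : T' = 2 * T) (hc : c' = 2 * c)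

theorem DT_add (F G : FT T c) (a b : ℕ) :
    DT hT hc (F + G) a b = DT hT hc F a b + DT hT hc G a b := by
  have h1 : ∀ a b, (F + G) a b = F a b + G a b := fun _ _ => rfl
  cases a with
  | zero =>
    cases b with
    | zero => simp only [DT, add_zero]
    | succ b => simp only [DT, zero_add, h1, map_add]
  | succ a =>
    cases b with
    | zero => simp only [DT, add_zero, h1, map_add]
    | succ b => simp only [DT, h1, map_add]; abel

theorem DT_zero {F : FT T c} {a b : ℕ} (h1 : ∀ a', a' + 1 = a → F a' b = 0)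
    (h2 : ∀ b', b' + 1 = b → F a b' = 0) : DT hT hc F a b = 0 := by
  cases a with
  | zero =>
    cases b with
    | zero => simp only [DT, add_zero]
    | succ b => simp only [DT, zero_add, h2 b rfl, map_zero]
  | succ a =>
    cases b with
    | zero => simp only [DT, add_zero, h1 a rfl, map_zero]
    | succ b => simp only [DT, h1 a rfl, h2 b rfl, map_zero, add_zero]

theorem DT_right {F : FT T c} {a b : ℕ} (h1 : ∀ a', a' + 1 = a → F a' (b + 1) = 0) :
    DT hT hc F a (b + 1) = TensorProduct.map (S0 a hT) (Sk 0 b hc) (F a b) := by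
  cases a with
  | zero => simp only [DT, zero_add]
  | succ a => simp only [DT, h1 a rfl, map_zero, zero_add]

theorem DT_sgl {a₁ b₁ : ℕ} (τ : Ext a₁ T ⊗[ZMod 2] Ext b₁ c) (a b : ℕ) :
    DT hT hc (sgl a₁ b₁ τ) a b
      = sgl (a₁ + 1) b₁ (TensorProduct.map (Sk 0 a₁ hT) (S0 b₁ hc) τ) a b
        + sgl a₁ (b₁ + 1) (TensorProduct.map (S0 a₁ hT) (Sk 0 b₁ hc) τ) a b := by
  unfold DT
  congr 1
  · cases a with
    | zero => rw [sgl_a _ (by omega)]
    | succ a =>
      change TensorProduct.map (Sk 0 a hT) (S0 b hc) (sgl a₁ b₁ τ a b) = _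
      by_cases ha : a = a₁
      · subst ha
        by_cases hb : b = b₁
        · subst hb
          rw [sgl_same, sgl_same]
        · rw [sgl_b _ hb, sgl_b _ hb, map_zero]
      · rw [sgl_a _ ha, sgl_a _ (by omega), map_zero]
  · cases b with
    | zero => rw [sgl_b _ (by omega)]
    | succ b =>
      change TensorProduct.map (S0 a hT) (Sk 0 b hc) (sgl a₁ b₁ τ a b) = _
      by_cases hb : b = b₁
      · subst hb
        by_cases ha : a = a₁
        · subst ha
          rw [sgl_same, sgl_same]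
        · rw [sgl_a _ ha, sgl_a _ ha, map_zero]
      · rw [sgl_b _ hb, sgl_b _ (by omega), map_zero]

end DT

section rel

variable {T T' T'' c c' c'' : ℤ} (hT : T' = 2 * T) (hT' : T'' = 2 * T') (hc : c' = 2 * c)
  (hc' : c'' = 2 * c')

theorem ten_comm (a b : ℕ) (y : Ext a T ⊗[ZMod 2] Ext b c) :
    TensorProduct.map (Sk 0 a hT') (S0 (b + 1) hc') (TensorProduct.map (S0 a hT) (Sk 0 b hc) y)
      = TensorProduct.map (S0 (a + 1) hT') (Sk 0 b hc')
        (TensorProduct.map (Sk 0 a hT) (S0 b hc) y) := by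
  induction y using TensorProduct.induction_on with
  | zero => simp only [map_zero]
  | add x y hx hy => simp only [map_add, hx, hy]
  | tmul x y =>
    rw [map_tmul, map_tmul, map_tmul, map_tmul, Sk_S0 0 a hT hT' x, Sk_S0 0 b hc hc' y]

theorem ten_adem (a b : ℕ) (hA : ∀ x : Ext a T, Sk 0 (a + 1) hT' (Sk 0 a hT x) = 0)
    (y : Ext a T ⊗[ZMod 2] Ext b c) :
    TensorProduct.map (Sk 0 (a + 1) hT') (S0 b hc') (TensorProduct.map (Sk 0 a hT) (S0 b hc) y)
      = 0 := by
  induction y using TensorProduct.induction_on with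
  | zero => simp only [map_zero]
  | add x y hx hy => simp only [map_add, hx, hy, add_zero]
  | tmul x y => rw [map_tmul, map_tmul, hA x, zero_tmul]

end rel

variable {S ρ K : ℕ} {c c₀ : ℤ}

namespace Cx

variable (hx : Cx S ρ K c c₀)
include hx

theorem KKiT {s : ℕ} (hs : s ≤ S + 4) {F : FT (2 ^ (K + 1)) c} (h : KK s F = 0) {a b : ℕ}
    (hab : a + b = s) : F a b = 0 := KK_inj (hx.dT hs) hx.c0 hx.cr1 h hab

theorem KKiD {s : ℕ} (hs : s ≤ S + 4) {F : FT (2 ^ (K + 1 + 1)) (2 * c)} (h : KK s F = 0) {a b : ℕ}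
    (hab : a + b = s) : F a b = 0 :=
  KK_inj (hx.dT' hs) (by have := hx.c0; omega) hx.cr h hab

theorem S0T {a : ℕ} (ha : a ≤ S + 4) (h : (2 : ℤ) ^ (K + 1 + 1) = 2 * 2 ^ (K + 1)) :
    Function.Injective (S0 a h) := by
  rw [injective_iff_map_eq_zero]
  intro α hα
  exact S0_inj h (pow_dvd_pow 2 (by have := hx.hK; omega)) hα

/-- the `Sq¹` of a general class -/
theorem S1_gen {j s : ℕ} (hs1 : 1 + (j + 1) = s) (hs2 : 2 + j = s) (hs : s ≤ S + 2)
    (h : (2 : ℤ) ^ (K + 1 + 1) + 2 * c = 2 * (2 ^ (K + 1) + c)) {v : Ext (j + 1) c} {u : Ext j c}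
    {F : FT (2 ^ (K + 1)) c} (hF : Hi 2 F)
    (h1 : Sk 0 s h (mh (K + 1) hs1 v + mg K hs2 u + KK s F) = 0) :
    Sk 0 (j + 1) rfl v = 0 ∧ S0 (j + 1) rfl v = Sk 0 j rfl u ∧
      ∀ a b, a + b = s + 1 → DT (eqP (K + 1)) (rfl : 2 * c = 2 * c) F a b = 0 := by
  rw [map_add, map_add, mh_S1 _ rfl h (show 1 + (j + 1 + 1) = s + 1 by omega)
    (show 2 + (j + 1) = s + 1 by omega), mg_S1 _ rfl h (show 2 + (j + 1) = s + 1 by omega),
    KK_q1 s (eqP (K + 1)) (rfl : 2 * c = 2 * c) h] at h1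
  have hF2 : Hi 2 (DT (eqP (K + 1)) (rfl : 2 * c = 2 * c) F) := by
    intro a b ha
    exact DT_zero _ _ (fun a' ha' => hF _ _ (by omega)) (fun b' _ => hF _ _ ha)
  have h5 := hx.sepD (s := s + 1) (b := j + 1) (by omega) (by omega) (by omega) hF2
    (v := Sk 0 (j + 1) rfl v) (u := S0 (j + 1) rfl v + Sk 0 j rfl u)
    (by rw [← h1, mg_add]; abel)
  exact ⟨h5.1, add_eq_zero_of h5.2.1, h5.2.2⟩

theorem W3 {n : ℕ} (hV : Vn S n c) (hI : I1 n c) (hQ : Qn n c) (hn : n + 3 ≤ S) :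
    Wn (n + 3) (2 ^ (K + 1) + c) := by
  intro t' h α h1 h2
  obtain rfl := hx.eT h
  obtain ⟨v, u, F, hF, rfl⟩ := dec2 (hx.dT (by omega)) hx.c0 hx.cr1
    (show 1 + (n + 1 + 1) = n + 3 by omega) (show 2 + (n + 1) = n + 3 by omega) α
  obtain ⟨h3, h4, h5⟩ := hx.S1_gen _ _ (by omega) h hF h1
  have h6 : F 3 n = 0 := by
    have h7 := h5 3 (n + 1) (by omega)
    rw [DT_right _ _ (fun a' ha' => hF _ _ (by omega))] at h7
    exact ten_inj (hx.S0T (by omega) _) (fun y hy => hI _ rfl y hy) h7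
  have h7 : KK (n + 3) F = 0 := by
    refine KK_zero fun a b hab => ?_
    by_cases ha : a ≤ 2
    · exact hF a b ha
    · by_cases ha3 : a = 3
      · subst ha3
        obtain rfl : b = n := by omega
        exact h6
      · exact ten_right (hV b (by omega) (by omega)) _
  rw [h7, add_zero] at h2 ⊢
  obtain ⟨h8, h9⟩ := hx.S2_low2 (n := n + 1) _ _ (by omega) h h2
  have h10 : u = 0 := hQ _ rfl _ (by rw [← h9, h3])
  have h11 : v = 0 := by
    refine hx.S0i (by omega) rfl ?_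
    rw [h4, h10, map_zero]
  rw [h11, h10, mh_zero, mg_zero, add_zero]

theorem exG {n R : ℕ} (hcc : c = 2 * c₀) (hH : Hb S n c c₀ hcc) (hA : Ad S R) (hR : R ≤ K)
    (h0 : (2 : ℤ) ^ (K + 1) + c = 2 * (2 ^ K + c₀)) (k : ℕ) : ∀ (a₀ s : ℕ), a₀ + k = s + 2 →
    3 ≤ a₀ → s + 1 ≤ n + 2 → s + 1 ≤ S → ∀ F : FT (2 ^ (K + 1)) c,
    (∀ a b, a + b = s + 1 → a < a₀ → F a b = 0) →
    (∀ a b, a + b = s + 2 → DT (eqP (K + 1)) (rfl : 2 * c = 2 * c) F a b = 0) →
    ∃ z : Ext s (2 ^ K + c₀), Sk 0 s h0 z = KK (s + 1) F := by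
  induction k with
  | zero =>
    intro a₀ s h1 _ _ _ F hF _
    refine ⟨0, ?_⟩
    rw [map_zero]
    exact (KK_zero fun a b hab => hF a b hab (by omega)).symm
  | succ k ih =>
    intro a₀ s h1 h2 h3 h4 F hF hD
    cases k with
    | zero =>
      refine ⟨0, ?_⟩
      rw [map_zero]
      refine (KK_zero fun a b hab => ?_).symm
      by_cases ha : a < a₀
      · exact hF a b hab ha
      · obtain rfl : a = s + 1 := by omega
        obtain rfl : b = 0 := by omega
        have h5 := hD (s + 1) 1 rfl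
        rw [DT_right _ _ (fun a' ha' => hF a' 1 (by omega) (by omega))] at h5
        exact ten_inj (hx.S0T (by omega) _) (fun y hy => hH.1 (by omega) _ rfl y hy) h5
    | succ k =>
      set τ := F a₀ (k + 1) with hτ
      have h5 := hD a₀ (k + 1 + 1) (by omega)
      rw [DT_right _ _ (fun a' ha' => hF a' _ (by omega) (by omega)), ← hτ] at h5
      obtain ⟨σ, hσ⟩ := ten_exact (hx.S0T (by omega) _) (f := Sk 0 k hcc)
        (fun y hy => hH.2 k (by omega) (by omega) _ rfl y hy) h5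
      have h6 : Function.Surjective (TensorProduct.map (S0 a₀ (eqP K))
          (LinearMap.id : Ext k c₀ →ₗ[ZMod 2] Ext k c₀)) := by
        apply TensorProduct.map_surjective
        · exact fun β => S0_surj _ (pow_dvd_pow 2 (by have := hx.hK; omega)) β
        · exact Function.surjective_id
      obtain ⟨y, hy⟩ := h6 σ
      have h7 : TensorProduct.map (S0 a₀ (eqP K)) (Sk 0 k hcc) y = τ := by
        rw [← hσ, ← hy, ← LinearMap.comp_apply, ← TensorProduct.map_comp, LinearMap.id_comp,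
          LinearMap.comp_id]
      set ω := TensorProduct.map (Sk 0 a₀ (eqP K)) (S0 k hcc) y with hω
      have hz : Sk 0 s h0 (be s a₀ k y) = be (s + 1) (a₀ + 1) k ω
          + be (s + 1) a₀ (k + 1) τ := by
        rw [be_q1 (by omega) (eqP K) hcc h0, h7]
      -- the relations
      have r1 : TensorProduct.map (Sk 0 a₀ (eqP (K + 1))) (S0 (k + 1) (rfl : 2 * c = 2 * c)) τ
          = TensorProduct.map (S0 (a₀ + 1) (eqP (K + 1))) (Sk 0 k (rfl : 2 * c = 2 * c)) ω := by
        rw [← h7]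
        exact ten_comm (eqP K) (eqP (K + 1)) hcc (rfl : 2 * c = 2 * c) a₀ k y
      have r2 : TensorProduct.map (Sk 0 (a₀ + 1) (eqP (K + 1))) (S0 k (rfl : 2 * c = 2 * c)) ω
          = 0 := by
        refine ten_adem (eqP K) (eqP (K + 1)) hcc (rfl : 2 * c = 2 * c) a₀ k (fun x => ?_) y
        exact hA a₀ (2 ^ K) (2 ^ (K + 1)) (2 ^ (K + 1 + 1)) (eqP K) (eqP (K + 1)) (by omega)
          (by positivity) (pow_dvd_pow 2 hR) x
      have hF2 : ∀ a b, a + b = s + 2 → DT (eqP (K + 1)) (rfl : 2 * c = 2 * c)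
          (F + (sgl a₀ (k + 1) τ + sgl (a₀ + 1) k ω)) a b = 0 := by
        intro a b hab
        rw [DT_add, DT_add, DT_sgl, DT_sgl, hD a b hab, zero_add, h5, r1, r2]
        have z1 : sgl (T := 2 ^ (K + 1 + 1)) (c := 2 * c) a₀ (k + 1 + 1) 0 a b = 0 := by
          rw [sgl, Pi.single_zero, Pi.single_zero]; rfl
        have z2 : sgl (T := 2 ^ (K + 1 + 1)) (c := 2 * c) (a₀ + 1 + 1) k 0 a b = 0 := by
          rw [sgl, Pi.single_zero, Pi.single_zero]; rfl
        rw [z1, z2, add_zero, zero_add]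
        exact self_add _
      obtain ⟨z', hz'⟩ := ih (a₀ + 1) s (by omega) (by omega) h3 h4 _ (fun a b hab ha => by
        change F a b + (sgl a₀ (k + 1) τ a b + sgl (a₀ + 1) k ω a b) = 0
        rw [sgl_a ω (by omega), add_zero]
        by_cases ha2 : a < a₀
        · rw [hF a b hab ha2, sgl_a τ (by omega), add_zero]
        · obtain rfl : a = a₀ := by omega
          obtain rfl : b = k + 1 := by omega
          rw [sgl_same, ← hτ]
          exact self_add _) hF2
      refine ⟨z' + be s a₀ k y, ?_⟩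
      rw [map_add, hz', hz]
      have h8 : KK (s + 1) (F + (sgl a₀ (k + 1) τ + sgl (a₀ + 1) k ω)) = KK (s + 1) F
          + (be (s + 1) a₀ (k + 1) τ + be (s + 1) (a₀ + 1) k ω) := by
        rw [← KK_sgl (show a₀ + (k + 1) = s + 1 by omega), ← KK_sgl (show a₀ + 1 + k = s + 1 by omega),
          ← KK_add, ← KK_add]
        rfl
      rw [h8]
      have h9 : ∀ A B C : Ext (s + 1) (2 ^ (K + 1) + c), A + (B + C) + (C + B) = A := by
        intro A B C
        rw [add_assoc, add_comm C B, self_add, add_zero]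
      exact h9 _ _ _

theorem H_step {n R : ℕ} (hcc : c = 2 * c₀) (hH : Hb S n c c₀ hcc) (hA : Ad S R) (hR : R ≤ K)
    (h0 : (2 : ℤ) ^ (K + 1) + c = 2 * (2 ^ K + c₀)) :
    Hb S (n + 3) (2 ^ (K + 1) + c) (2 ^ K + c₀) h0 := by
  refine ⟨fun _ t' h α _ => ?_, fun i hi hiS t' h α h1 => ?_⟩
  · refine E0_zero ?_ α
    have h1 := hx.c0
    have h2 : (0 : ℤ) < 2 ^ (K + 1) := by positivity
    omega
  · obtain rfl := hx.eT h
    cases i with
    | zero =>
      obtain ⟨v, F, hF, rfl⟩ := dec1 (hx.dT (s := 0 + 1) (by omega)) hx.c0 hx.cr1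
        (show 1 + 0 = 0 + 1 by rfl) α
      have e0 : KK (0 + 1) F = 0 := KK_zero (fun a b hab => hF a b (by omega))
      have e1 : mh (K + 1) (show 1 + 0 = 0 + 1 by rfl) v + KK (0 + 1) F
          = mh (K + 1) (show 1 + 0 = 0 + 1 by rfl) v := by
        rw [e0]
        exact add_zero _
      rw [e1] at h1 ⊢
      rw [mh_S1 _ rfl h (show 1 + (0 + 1) = 0 + 1 + 1 by omega)
        (show 2 + 0 = 0 + 1 + 1 by omega)] at h1
      have h2 := hx.sepD (s := 0 + 1 + 1) (F := 0) (by omega) _ _ (fun _ _ _ => rfl)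
        (by rw [h1]; exact (zero_add _).trans (KK_z _))
      refine ⟨0, ?_⟩
      rw [map_zero, hx.S0i (by omega) rfl h2.2.1, mh_zero]
    | succ j =>
      obtain ⟨v, u, F, hF, rfl⟩ := dec2 (hx.dT (s := j + 1 + 1) (by omega)) hx.c0 hx.cr1
        (show 1 + (j + 1) = j + 1 + 1 by omega) (show 2 + j = j + 1 + 1 by omega) α
      obtain ⟨h3, h4, h5⟩ := hx.S1_gen _ _ (by omega) h hF h1
      obtain ⟨u₀, rfl⟩ := S0_surj hcc (hx.dc0 (by omega)) u
      have h6 : v = Sk 0 j hcc u₀ := by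
        apply add_eq_zero_of
        refine hx.S0i (s := j + 1) (by omega) rfl ?_
        rw [map_add, h4, Sk_S0]
        exact self_add _
      obtain ⟨z, hz⟩ := hx.exG hcc hH hA hR h0 j 3 (j + 1) (by omega) le_rfl (by omega) hiS F
        (fun a b _ ha => hF a b (by omega)) h5
      refine ⟨mh K (show 1 + j = j + 1 by omega) u₀ + z, ?_⟩
      rw [map_add, hz, mh_S1 _ hcc h0 (show 1 + (j + 1) = j + 1 + 1 by omega)
        (show 2 + j = j + 1 + 1 by omega), ← h6]

end Cx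

end Pool.Agent.H749.GS
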