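import Pool.Agent.H749.GS.Rel

/-!
# Tensor products with one-dimensional spaces, and the classes `h_K` and `h_K²`
-/

set_option autoImplicit false
set_option linter.unusedSectionVars false

namespace Pool.Agent.H749.GS

open Finset MvPolynomial TensorProduct Pool.Agent.H749.GK.St Pool.Agent.W624.Stz
  Pool.Agent.H749.GK.KA
open Pool.Agent.Q171.ND3.St (ev0 ev1 faces sqC mem_ev0 mem_ev1 par)

section ten

variable {M N M' N' : Type*} [AddCommGroup M] [Module (ZMod 2) M] [AddCommGroup N]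
  [Module (ZMod 2) N] [AddCommGroup M'] [Module (ZMod 2) M'] [AddCommGroup N']
  [Module (ZMod 2) N']

theorem ten_gen {e : M} (he : ∀ x : M, ∃ r : ZMod 2, x = r • e) (τ : M ⊗[ZMod 2] N) :
    ∃ v : N, τ = e ⊗ₜ v := by
  induction τ using TensorProduct.induction_on with
  | zero => exact ⟨0, by rw [tmul_zero]⟩
  | add x y hx hy =>
    obtain ⟨v, rfl⟩ := hx
    obtain ⟨w, rfl⟩ := hy
    exact ⟨v + w, by rw [tmul_add]⟩
  | tmul x y =>
    obtain ⟨r, rfl⟩ := he x
    exact ⟨r • y, by rw [smul_tmul]⟩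

theorem ten_zero {e : M} (he : e ≠ 0) {v : N} (h : e ⊗ₜ[ZMod 2] v = 0) : v = 0 := by
  obtain ⟨f, hf⟩ : ∃ f : M →ₗ[ZMod 2] ZMod 2, f e ≠ 0 := by
    by_contra hn
    push Not at hn
    exact he ((Module.forall_dual_apply_eq_zero_iff (ZMod 2) e).mp hn)
  have h1 := congrArg (fun z => TensorProduct.lid (ZMod 2) N (TensorProduct.map f LinearMap.id z)) h
  simp only [map_tmul, lid_tmul, LinearMap.id_apply, map_zero] at h1
  rcases smul_eq_zero.mp h1 with h2 | h2
  · exact absurd h2 hf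
  · exact h2

theorem ten_left (h : ∀ x : M, x = 0) (τ : M ⊗[ZMod 2] N) : τ = 0 := by
  induction τ using TensorProduct.induction_on with
  | zero => rfl
  | add x y hx hy => rw [hx, hy, add_zero]
  | tmul x y => rw [h x, zero_tmul]

theorem ten_right (h : ∀ y : N, y = 0) (τ : M ⊗[ZMod 2] N) : τ = 0 := by
  induction τ using TensorProduct.induction_on with
  | zero => rfl
  | add x y hx hy => rw [hx, hy, add_zero]
  | tmul x y => rw [h y, tmul_zero]

/-- exactness after tensoring with an injective map -/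
theorem ten_exact {L : Type*} [AddCommGroup L] [Module (ZMod 2) L] {i : M →ₗ[ZMod 2] M'}
    (hi : Function.Injective i) {f : L →ₗ[ZMod 2] N} {g : N →ₗ[ZMod 2] N'}
    (hfg : ∀ y, g y = 0 → ∃ x, f x = y) {τ : M ⊗[ZMod 2] N} (h : TensorProduct.map i g τ = 0) :
    ∃ σ : M ⊗[ZMod 2] L, TensorProduct.map LinearMap.id f σ = τ := by
  have h1 : LinearMap.lTensor M g τ = 0 := by
    have h2 : TensorProduct.map i g τ = LinearMap.rTensor N' i (LinearMap.lTensor M g τ) := by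
      rw [LinearMap.rTensor, LinearMap.lTensor, ← LinearMap.comp_apply, ← TensorProduct.map_comp,
        LinearMap.id_comp, LinearMap.comp_id]
    rw [h2] at h
    exact (injective_iff_map_eq_zero _).mp (Module.Flat.rTensor_preserves_injective_linearMap i hi)
      _ h
  -- the kernel of `g` is in the range of `f`
  have h3 : Function.Exact (LinearMap.ker g).subtype g := by
    intro y
    constructor
    · intro hy
      exact ⟨⟨y, hy⟩, rfl⟩
    · rintro ⟨x, rfl⟩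
      exact x.2
  obtain ⟨ω, hω⟩ := (Module.Flat.lTensor_exact M h3 τ).mp h1
  have h4 : LinearMap.ker g ≤ LinearMap.range f := fun y hy => hfg y hy
  have h5 : ∀ ω : M ⊗[ZMod 2] ↥(LinearMap.ker g), ∃ σ : M ⊗[ZMod 2] L,
      TensorProduct.map LinearMap.id f σ = LinearMap.lTensor M (LinearMap.ker g).subtype ω := by
    intro ω
    induction ω using TensorProduct.induction_on with
    | zero => exact ⟨0, by rw [map_zero, map_zero]⟩
    | add x y hx hy =>
      obtain ⟨v, hv⟩ := hx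
      obtain ⟨w, hw⟩ := hy
      exact ⟨v + w, by rw [map_add, map_add, hv, hw]⟩
    | tmul x y =>
      obtain ⟨z, hz⟩ := h4 y.2
      exact ⟨x ⊗ₜ z, by rw [map_tmul, LinearMap.lTensor_tmul, hz]; rfl⟩
  obtain ⟨σ, hσ⟩ := h5 ω
  exact ⟨σ, by rw [hσ, hω]⟩

theorem ten_inj {i : M →ₗ[ZMod 2] M'} (hi : Function.Injective i) {g : N →ₗ[ZMod 2] N'}
    (hg : ∀ y, g y = 0 → y = 0) {τ : M ⊗[ZMod 2] N} (h : TensorProduct.map i g τ = 0) : τ = 0 := by
  obtain ⟨σ, hσ⟩ := ten_exact (L := M) hi (f := (0 : M →ₗ[ZMod 2] N))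
    (fun y hy => ⟨0, by rw [map_zero, hg y hy]⟩) h
  have h1 : ∀ σ : M ⊗[ZMod 2] M, TensorProduct.map LinearMap.id (0 : M →ₗ[ZMod 2] N) σ = 0 := by
    intro σ
    induction σ using TensorProduct.induction_on with
    | zero => rw [map_zero]
    | add x y hx hy => rw [map_add, hx, hy, add_zero]
    | tmul x y => rw [map_tmul, LinearMap.zero_apply, tmul_zero]
  rw [← hσ, h1]

end ten

/-! ### The classes -/

/-- `h_K` -/
noncomputable def hc (K : ℕ) : Ext 1 (2 ^ K) := cl ⟨zt K, zt_Z K⟩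

/-- `h_K²` -/
noncomputable def gc (K : ℕ) : Ext 2 (2 ^ (K + 1)) := cl ⟨zz2 K, zz2_Z K⟩

theorem hc_ne (K : ℕ) : hc K ≠ 0 := fun h => zt_B K (cl_zero.mp h)

theorem gc_ne (K : ℕ) : gc K ≠ 0 := fun h => zz2_B K (cl_zero.mp h)

theorem smul_C (r : ZMod 2) (x : P) : r • x = MvPolynomial.C r * x := smul_eq_C_mul x r

theorem hc_gen (K : ℕ) (α : Ext 1 (2 ^ K)) : ∃ r : ZMod 2, α = r • hc K := by
  obtain ⟨x, rfl⟩ := cl_surj α
  obtain ⟨r, hr⟩ := Z1_pow K x.2
  refine ⟨r, ?_⟩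
  have h1 : x = r • (⟨zt K, zt_Z K⟩ : Z 1 (2 ^ K)) := Subtype.ext (by
    rw [Submodule.coe_smul, hr, smul_C])
  rw [h1]
  rfl

theorem gc_gen (K : ℕ) (α : Ext 2 (2 ^ (K + 1))) : ∃ r : ZMod 2, α = r • gc K := by
  obtain ⟨x, rfl⟩ := cl_surj α
  obtain ⟨r, hr⟩ := Z2_pow K x.2
  refine ⟨r, ?_⟩
  have h1 : cl x = cl (r • (⟨zz2 K, zz2_Z K⟩ : Z 2 (2 ^ (K + 1)))) := by
    apply cl_eq
    rw [Submodule.coe_smul, smul_C]
    exact hr
  rw [h1]
  rfl

theorem C0_zero {T : ℤ} (hT : T ≠ 0) {f : P} (hf : f ∈ C 0 T) : f = 0 := by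
  by_contra h
  obtain ⟨e, he⟩ := ne_zero_iff.mp h
  have h1 : Finsupp.weight wt e = T := hf.2 he
  have h2 : e = 0 := by
    ext v
    by_contra h3
    have h4 : v ∈ vars f := mem_vars _ |>.mpr ⟨e, mem_support_iff.mpr he,
      Finsupp.mem_support_iff.mpr h3⟩
    have h5 := mem_supported.mp hf.1 h4
    exact absurd h5 (by simp)
  rw [h2, map_zero] at h1
  exact hT h1.symm

theorem E0_zero {T : ℤ} (hT : T ≠ 0) (α : Ext 0 T) : α = 0 := by
  obtain ⟨x, rfl⟩ := cl_surj α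
  apply cl_zero.mpr
  rw [C0_zero hT x.2.1]
  exact Submodule.zero_mem _

end Pool.Agent.H749.GS
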