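import Pool.Agent.H749.GS.Fin

/-!
# The uniform doomsday conjecture in sparse degrees
-/

set_option autoImplicit false
set_option linter.unusedSectionVars false

namespace Pool.Agent.H749.GS

open Finset MvPolynomial
open Pool.Agent.Q171.ND3.St (IsHom Sq Sq0 fr sqC Diffs fam sq0 Cocycle IsDeg isDeg_iff star_cl
  Sq_fr Sq0_fr Sq_hom Sq_iter Sq0_iter third fr_hom hmul h)
open Pool.Agent.Q171.ND3.St renaming Z → NZ, cl → ncl, Ext → NE

/-- `h₀` is injective in highly divisible degrees -/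
theorem h0_inj (s : ℕ) : ∃ r : ℕ, ∀ N : ℕ, 2 ^ r ∣ N → ∀ v : NZ (s + 2), IsHom (2 * N) v.1 →
    h 0 (s + 2) (ncl v) = 0 → ncl v = 0 := by
  obtain ⟨r, hr⟩ := star_cl s
  refine ⟨r, fun N hN v hv h0 => ?_⟩
  refine (hr N hN 0 v (isWeightedHomogeneous_zero _ _ _) hv ?_).2
  rw [map_zero, map_zero, map_zero, h0, map_zero]

/-- **The uniform doomsday conjecture in sparse degrees.** -/
theorem uniform (s : ℕ) : ∃ L : ℕ, ∀ (c b m : ℕ) (l : ℕ → ℕ),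
    (∀ j, L ≤ j → ∀ i < b, ∀ y : NE i, IsDeg i (2 ^ j * c) y → y = 0) →
    2 ^ L * c ≤ 2 ^ l 0 → (∀ i, l i + L ≤ l (i + 1)) →
    ((1 ≤ m ∧ s + 1 ≤ b + m) ∨ (3 ≤ m ∧ s + 1 ≤ b + m + 1) ∨ (5 ≤ m ∧ s + 1 ≤ b + m + 2)) →
    ∀ (D : Diffs) (a : Cocycle (s + 1)), IsHom (c + ∑ i ∈ range m, 2 ^ l i) a.val →
    (∀ j, fam (s + 1) j a.cls ≠ 0) →
    (∀ j, L ≤ j → D.d₂ (s + 1) (fam (s + 1) (j + 1) a.cls)
        = hmul 0 (s + 2) (fam (s + 2) j (a.Sq 1).cls) ∧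
      hmul 0 (s + 2) (fam (s + 2) j (a.Sq 1).cls) ≠ 0) ∨
    (∀ j, L ≤ j → D.d₂ (s + 1) (fam (s + 1) (j + 1) a.cls) = 0 ∧
      (∃ w, D.d₃ (s + 1) (fam (s + 1) (j + 1) a.cls)
        = hmul 1 (s + 3) (fam (s + 3) j (a.Sq 2).cls) + D.d₂ (s + 2) w) ∧
      ¬ ∃ w, D.d₃ (s + 1) (fam (s + 1) (j + 1) a.cls) = D.d₂ (s + 2) w) := by
  obtain ⟨L₀, hL₀⟩ := sparse s
  obtain ⟨r, hr⟩ := h0_inj s
  refine ⟨L₀ + r + 2 * s + 20, fun c b m l hb hc hl hm D a ha hnt => ?_⟩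
  set L := L₀ + r + 2 * s + 20 with hL
  set t := c + ∑ i ∈ range m, 2 ^ l i with ht
  set A := a.toZ with hA
  have hAt : IsHom t A.1 := ha
  have hcls : ∀ j, fam (s + 1) j a.cls = ncl (Pool.Agent.Q171.ND3.St.fr^[j] A) := fun j =>
    fam_ncl j A
  have hS1 : ∀ j, fam (s + 2) j (a.Sq 1).cls = ncl (Pool.Agent.Q171.ND3.St.fr^[j] (Sq 1 A)) :=
    fun j => fam_ncl j (Sq 1 A)
  have hS2 : ∀ j, fam (s + 3) j (a.Sq 2).cls = ncl (Pool.Agent.Q171.ND3.St.fr^[j] (Sq 2 A)) :=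
    fun j => fam_ncl j (Sq 2 A)
  -- `d₂`
  have hd2 : ∀ j, 1 ≤ j → D.d₂ (s + 1) (fam (s + 1) (j + 1) a.cls)
      = hmul 0 (s + 2) (fam (s + 2) j (a.Sq 1).cls) := by
    intro j hj
    obtain ⟨j', rfl⟩ : ∃ j', j = j' + 1 := ⟨j - 1, by omega⟩
    have h1 := D.lin.bruner₂ (s + 1) (2 ^ (j' + 1) * t) (Pool.Agent.Q171.ND3.St.fr^[j' + 1] A)
      (by rw [pow_succ', mul_assoc]; exact even_two_mul _) (fr_hom hAt (j' + 1))
    rw [Sq0_fr, ← Function.iterate_succ_apply' Pool.Agent.Q171.ND3.St.fr, Sq_iter] at h1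
    rw [hcls, hS1]
    exact h1
  by_cases h0 : fam (s + 2) (L - 1) (a.Sq 1).cls = 0
  · right
    rw [hS1] at h0
    have hz : ∀ j, L - 1 ≤ j → fam (s + 2) j (a.Sq 1).cls = 0 := by
      intro j hj
      obtain ⟨i, rfl⟩ : ∃ i, j = i + (L - 1) := ⟨j - (L - 1), by omega⟩
      rw [hS1, Function.iterate_add_apply, ← iter_ncl, h0]
      exact Pool.Agent.Q171.ND3.St.iter_zero _
    intro j hj
    have hk2 : D.d₂ (s + 1) (fam (s + 1) (j + 1) a.cls) = 0 := by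
      rw [hd2 j (by omega), hz j (by omega)]
      exact map_zero (h 0 (s + 2))
    have hk1 : D.d₂ (s + 1) (fam (s + 1) j a.cls) = 0 := by
      obtain ⟨j', rfl⟩ : ∃ j', j = j' + 1 := ⟨j - 1, by omega⟩
      rw [hd2 j' (by omega), hz j' (by omega)]
      exact map_zero (h 0 (s + 2))
    -- the degrees
    have hsp : ∀ i, L ≤ i → 2 ^ L₀ ∣ 2 ^ i * c ∧ L₀ ≤ l 0 + i ∧ 2 ^ L₀ * (2 ^ i * c) ≤ 2 ^ (l 0 + i) ∧
        (∀ q, (l q + i) + L₀ ≤ l (q + 1) + i) ∧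
        2 ^ i * c + ∑ q ∈ range m, 2 ^ (l q + i) = 2 ^ i * t := by
      intro i hi
      refine ⟨Dvd.dvd.mul_right (pow_dvd_pow 2 (by omega)) _, by omega, ?_, ?_, ?_⟩
      · have h1 : 2 ^ L₀ * c ≤ 2 ^ l 0 :=
          le_trans (Nat.mul_le_mul_right _ (Nat.pow_le_pow_right (by norm_num) (by omega))) hc
        calc 2 ^ L₀ * (2 ^ i * c) = (2 ^ L₀ * c) * 2 ^ i := by ring
          _ ≤ 2 ^ l 0 * 2 ^ i := Nat.mul_le_mul_right _ h1
          _ = 2 ^ (l 0 + i) := (pow_add _ _ _).symm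
      · intro q
        have := hl q
        omega
      · rw [ht, mul_add, mul_sum]
        congr 1
        exact sum_congr rfl fun q _ => by rw [pow_add, mul_comm]
    have hdeg : ∀ i, IsDeg (s + 1) (2 ^ i * t) (fam (s + 1) i a.cls) := by
      intro i
      rw [hcls]
      exact isDeg_iff.mpr ⟨_, fr_hom hAt i, rfl⟩
    refine ⟨hk2, ?_, ?_⟩
    · obtain ⟨g1, g2, g3, g4, g5⟩ := hsp j hj
      have hu := hL₀ (2 ^ j * c) b m (fun q => l q + j) g1 (hb j hj) g2 g3 g4 D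
        (fam (s + 1) j a.cls) (by rw [g5]; exact hdeg j)
      obtain ⟨x, hx, hxy⟩ := ((hu.1 (by omega)).1).mp hk1
      rw [g5] at hx
      have ev : Even (2 ^ j * t / 2) := by
        obtain ⟨j', rfl⟩ : ∃ j', j = j' + 2 := ⟨j - 2, by omega⟩
        have e1 : 2 ^ (j' + 2) * t / 2 = 2 * (2 ^ j' * t) := by
          rw [pow_succ, pow_succ, show 2 ^ j' * 2 * 2 * t = 2 * (2 * (2 ^ j' * t)) by ring]
          exact Nat.mul_div_cancel_left _ (by norm_num)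
        rw [e1]
        exact even_two_mul _
      have hsq : sq0 (s + 1) (x.Sq 1).cls = fam (s + 1) (j + 1) a.cls := by
        rw [hxy, fam, fam, Function.iterate_succ_apply']
      obtain ⟨w, hw⟩ := D.bruner₃ s _ x ev hx (by rw [hsq]; exact hk2)
      refine ⟨w, ?_⟩
      rw [hsq] at hw
      rw [hw]
      congr 2
      rw [hS2]
      have h3 : ncl (Sq 1 x.toZ) = ncl (Pool.Agent.Q171.ND3.St.fr^[j] A) := by
        rw [← hcls]
        exact hxy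
      have h4 : IsHom (2 * (2 ^ j * t / 2)) (Sq 1 x.toZ).1 := Sq_hom hx
      have e2 : 2 * (2 ^ j * t / 2) = 2 ^ j * t := by
        obtain ⟨j', rfl⟩ : ∃ j', j = j' + 1 := ⟨j - 1, by omega⟩
        exact Nat.mul_div_cancel' (Dvd.dvd.mul_right (dvd_pow_self 2 (by omega)) _)
      rw [e2] at h4
      have h5 := wdq 1 h4 (fr_hom hAt j) h3
      rw [← Sq_iter]
      exact h5
    · rintro ⟨w, hw⟩
      obtain ⟨g1, g2, g3, g4, g5⟩ := hsp (j + 1) (by omega)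
      have hu := hL₀ (2 ^ (j + 1) * c) b m (fun q => l q + (j + 1)) g1 (hb (j + 1) (by omega)) g2 g3
        g4 D (fam (s + 1) (j + 1) a.cls) (by rw [g5]; exact hdeg (j + 1))
      exact hnt (j + 1) (hu.2 hm ⟨hk2, w, hw⟩)
  · left
    intro j hj
    refine ⟨hd2 j (by omega), fun h1 => h0 ?_⟩
    rw [hS1] at h1
    have h2 : ncl (Pool.Agent.Q171.ND3.St.fr^[j] (Sq 1 A)) = 0 := by
      refine hr (2 ^ j * t) (Dvd.dvd.mul_right (pow_dvd_pow 2 (by omega)) _) _ ?_ h1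
      have h3 := fr_hom (Sq_hom (k := 1) hAt) j
      rwa [mul_left_comm] at h3
    rw [hS1]
    obtain ⟨i, rfl⟩ : ∃ i, j = i + (L - 1) := ⟨j - (L - 1), by omega⟩
    rw [Function.iterate_add_apply] at h2
    have h4 := fr_hom (Sq_hom (k := 1) hAt) (L - 1)
    exact down (a := s + 2) (c := 2 ^ (L - 1) * (2 * t)) i
      (Dvd.dvd.mul_right (pow_dvd_pow 2 (by omega)) _) _ h4 h2

end Pool.Agent.H749.GS
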